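import Mathlib

set_option autoImplicit false
open Filter Topology Finset

namespace Pool.Agent.H6R3.DR

/-- one step of the recursion for `m = 2` -/
noncomputable def nxt (f : ℕ → ℝ) (k : ℕ) : ℝ :=
  (∑ ij ∈ antidiagonal (k + 1), f ij.1 * f ij.2) + (if k = 0 then f 0 ^ 2 else 0)

noncomputable def sq (f : ℕ → ℝ) : ℕ → ℕ → ℝ
  | 0 => f
  | n + 1 => nxt (sq f n)

structure Good (f : ℕ → ℝ) : Prop where
  nonneg : ∀ k, 0 ≤ f k
  sum1 : HasSum f 1
  summ : Summable (fun k : ℕ => f k * 2 ^ k)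
  summ' : Summable (fun k : ℕ => (k : ℝ) * f k * 2 ^ k)
  crit : ∑' k : ℕ, (k : ℝ) * f k * 2 ^ k = ∑' k : ℕ, f k * 2 ^ k
  pos : 0 < f 0

noncomputable def H (f : ℕ → ℝ) : ℝ := ∑' k : ℕ, f k * 2 ^ k

lemma cauchy {u v : ℕ → ℝ} (hu : Summable u) (hv : Summable v) :
    HasSum (fun k => ∑ ij ∈ antidiagonal k, u ij.1 * v ij.2) ((∑' k, u k) * ∑' k, v k) := by
  rw [tsum_mul_tsum_eq_tsum_sum_antidiagonal_of_summable_norm hu.norm hv.norm]
  exact (summable_norm_sum_mul_antidiagonal_of_summable_norm hu.norm hv.norm).of_norm.hasSum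

lemma conv_pow (f : ℕ → ℝ) (s : ℝ) (k : ℕ) :
    ∑ ij ∈ antidiagonal k, (f ij.1 * s ^ ij.1) * (f ij.2 * s ^ ij.2) =
      (∑ ij ∈ antidiagonal k, f ij.1 * f ij.2) * s ^ k := by
  rw [sum_mul]
  refine sum_congr rfl fun ij h => ?_
  rw [← mem_antidiagonal.mp h, pow_add]
  ring

lemma hasSum_nxt {f : ℕ → ℝ} {s : ℝ} (hs : 0 < s) (h : Summable (fun k : ℕ => f k * s ^ k)) :
    HasSum (fun k : ℕ => nxt f k * s ^ k)
      (((∑' k : ℕ, f k * s ^ k) ^ 2 - f 0 ^ 2) / s + f 0 ^ 2) := by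
  have h1 := cauchy h h
  have h2 := (hasSum_nat_add_iff' 1).mpr h1
  have h3 := (h2.div_const s).add (hasSum_ite_eq 0 (f 0 ^ 2))
  simp only [sum_range_one, Finset.Nat.antidiagonal_zero, sum_singleton, pow_zero, mul_one] at h3
  have e : ((∑' k : ℕ, f k * s ^ k) * (∑' k : ℕ, f k * s ^ k) - f 0 * f 0) / s + f 0 ^ 2
      = ((∑' k : ℕ, f k * s ^ k) ^ 2 - f 0 ^ 2) / s + f 0 ^ 2 := by ring
  rw [e] at h3
  have e2 : (fun k : ℕ => nxt f k * s ^ k) = fun k : ℕ =>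
      (∑ ij ∈ antidiagonal (k + 1), f ij.1 * s ^ ij.1 * (f ij.2 * s ^ ij.2)) / s +
        if k = 0 then f 0 ^ 2 else 0 := by
    funext k
    unfold nxt
    rw [conv_pow, pow_succ]
    rcases Nat.eq_zero_or_pos k with rfl | hk
    · simp
      field_simp
    · rw [if_neg hk.ne']
      field_simp
      ring
  rw [e2]
  exact h3

lemma nxt_nonneg {f : ℕ → ℝ} (h : ∀ k, 0 ≤ f k) (k : ℕ) : 0 ≤ nxt f k := by
  unfold nxt
  refine add_nonneg (sum_nonneg fun ij _ => mul_nonneg (h _) (h _)) ?_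
  split_ifs
  · positivity
  · exact le_rfl

lemma Good.H_nxt {f : ℕ → ℝ} (h : Good f) : H (nxt f) = (H f ^ 2 + f 0 ^ 2) / 2 := by
  have := (hasSum_nxt (s := 2) (by norm_num) h.summ).tsum_eq
  unfold H
  rw [this]
  ring

lemma hasSum_nxt' {f : ℕ → ℝ} (h : Good f) :
    HasSum (fun k : ℕ => (k : ℝ) * nxt f k * 2 ^ k) ((H f ^ 2 + f 0 ^ 2) / 2) := by
  have h1 := cauchy h.summ h.summ
  have h2 := cauchy h.summ' h.summ
  have h3 := cauchy h.summ h.summ'
  rw [h.crit] at h2 h3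
  have h4 := h2.add h3
  have e1 : (fun k : ℕ => ∑ ij ∈ antidiagonal k, (ij.1 : ℝ) * f ij.1 * 2 ^ ij.1 * (f ij.2 * 2 ^ ij.2)
      + ∑ ij ∈ antidiagonal k, f ij.1 * 2 ^ ij.1 * ((ij.2 : ℝ) * f ij.2 * 2 ^ ij.2)) =
      fun k : ℕ => (k : ℝ) * ∑ ij ∈ antidiagonal k, f ij.1 * 2 ^ ij.1 * (f ij.2 * 2 ^ ij.2) := by
    funext k
    rw [← sum_add_distrib, mul_sum]
    refine sum_congr rfl fun ij hij => ?_
    rw [← mem_antidiagonal.mp hij]
    push_cast
    ring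
  rw [e1] at h4
  have h5 := (hasSum_nat_add_iff' 1).mpr h4
  have h6 := (hasSum_nat_add_iff' 1).mpr h1
  have h7 := (h5.sub h6).div_const 2
  simp only [sum_range_one, Finset.Nat.antidiagonal_zero, sum_singleton, pow_zero, mul_one,
    Nat.cast_zero, zero_mul, sub_zero] at h7
  have e2 : (fun k : ℕ => (k : ℝ) * nxt f k * 2 ^ k) = fun k : ℕ =>
      (((k + 1 : ℕ) : ℝ) * ∑ ij ∈ antidiagonal (k + 1), f ij.1 * 2 ^ ij.1 * (f ij.2 * 2 ^ ij.2) -
        ∑ ij ∈ antidiagonal (k + 1), f ij.1 * 2 ^ ij.1 * (f ij.2 * 2 ^ ij.2)) / 2 := by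
    funext k
    unfold nxt
    rw [conv_pow, pow_succ]
    rcases Nat.eq_zero_or_pos k with rfl | hk
    · simp
    · rw [if_neg hk.ne']
      push_cast
      ring
  rw [e2]
  have e3 : (H f ^ 2 + f 0 ^ 2) / 2 = ((∑' k : ℕ, f k * 2 ^ k) * (∑' k : ℕ, f k * 2 ^ k) +
      (∑' k : ℕ, f k * 2 ^ k) * (∑' k : ℕ, f k * 2 ^ k) -
      ((∑' k : ℕ, f k * 2 ^ k) * (∑' k : ℕ, f k * 2 ^ k) - f 0 * f 0)) / 2 := by
    unfold H
    ring
  rw [e3]
  exact h7

lemma Good.nxt {f : ℕ → ℝ} (h : Good f) : Good (nxt f) := by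
  have h1 : Summable (fun k : ℕ => f k * 1 ^ k) := by simpa using h.sum1.summable
  have h2 := hasSum_nxt (s := 1) one_pos h1
  have h3 := hasSum_nxt (s := 2) two_pos h.summ
  have h4 := hasSum_nxt' h
  refine ⟨nxt_nonneg h.nonneg, ?_, h3.summable, h4.summable, ?_, ?_⟩
  · simp only [one_pow, mul_one, h.sum1.tsum_eq, div_one, sub_add_cancel] at h2
    exact h2
  · rw [h4.tsum_eq, ← h.H_nxt]
    rfl
  · have : 0 < f 0 ^ 2 := pow_pos h.pos 2
    unfold DR.nxt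
    rw [if_pos rfl]
    have := sum_nonneg (s := antidiagonal (0 + 1)) (f := fun ij : ℕ × ℕ => f ij.1 * f ij.2)
      fun ij _ => mul_nonneg (h.nonneg _) (h.nonneg _)
    linarith

lemma Good.sq {f : ℕ → ℝ} (h : Good f) (n : ℕ) : Good (sq f n) := by
  induction n with
  | zero => exact h
  | succ n ih => exact ih.nxt

lemma Good.H_le {f : ℕ → ℝ} (h : Good f) : H f ≤ 2 := by
  have h1 : HasSum (fun k : ℕ => (k : ℝ) * f k * 2 ^ k - f k * 2 ^ k + 2 * f k) 2 := by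
    have := (h.summ'.hasSum.sub h.summ.hasSum).add (h.sum1.mul_left 2)
    rw [h.crit, sub_self, zero_add, mul_one] at this
    exact this
  refine hasSum_le ?_ h.summ.hasSum h1
  intro k
  have hk := h.nonneg k
  match k with
  | 0 => simp; linarith
  | 1 => simp; linarith
  | (k + 2) =>
    have h2 : (0 : ℝ) ≤ f (k + 2) * 2 ^ (k + 2) := mul_nonneg hk (by positivity)
    have h3 : (0 : ℝ) ≤ (k : ℝ) * (f (k + 2) * 2 ^ (k + 2)) := mul_nonneg (by positivity) h2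
    push_cast
    nlinarith

lemma Good.one_le_H {f : ℕ → ℝ} (h : Good f) : 1 ≤ H f := by
  refine hasSum_le ?_ h.sum1 h.summ.hasSum
  intro k
  have : (1 : ℝ) ≤ 2 ^ k := one_le_pow₀ (by norm_num)
  nlinarith [h.nonneg k]

lemma Good.f0_le {f : ℕ → ℝ} (h : Good f) : f 0 ≤ 1 := by
  exact le_hasSum h.sum1 0 fun k _ => h.nonneg k

/-- tail sums -/
noncomputable def A (f : ℕ → ℝ) (K : ℕ) : ℝ := ∑' k : ℕ, f (k + K) * 2 ^ (k + K)

lemma Good.summA {f : ℕ → ℝ} (h : Good f) (K : ℕ) :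
    Summable (fun k : ℕ => f (k + K) * 2 ^ (k + K)) :=
  (summable_nat_add_iff (f := fun k : ℕ => f k * 2 ^ k) K).mpr h.summ

lemma Good.A_nonneg {f : ℕ → ℝ} (h : Good f) (K : ℕ) : 0 ≤ A f K :=
  tsum_nonneg fun k => mul_nonneg (h.nonneg _) (by positivity)

lemma Good.A_succ {f : ℕ → ℝ} (h : Good f) (K : ℕ) : A f (K + 1) ≤ A f K := by
  unfold A
  rw [(h.summA K).tsum_eq_zero_add]
  have h1 : 0 ≤ f (0 + K) * 2 ^ (0 + K) := mul_nonneg (h.nonneg _) (by positivity)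
  have h2 : (fun k : ℕ => f (k + 1 + K) * (2 : ℝ) ^ (k + 1 + K)) =
      fun k : ℕ => f (k + (K + 1)) * (2 : ℝ) ^ (k + (K + 1)) := by
    funext k
    rw [add_assoc, add_comm 1 K]
  rw [h2]
  linarith

lemma Good.A_anti {f : ℕ → ℝ} (h : Good f) {K L : ℕ} (hKL : K ≤ L) : A f L ≤ A f K := by
  induction L, hKL using Nat.le_induction with
  | base => exact le_rfl
  | succ L _ ih => exact (h.A_succ L).trans ih

lemma Good.A_le {f : ℕ → ℝ} (h : Good f) {K : ℕ} (hK : 1 ≤ K) : A f K ≤ 2 / K := by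
  have hK' : (0 : ℝ) < K := by exact_mod_cast hK
  rw [le_div_iff₀ hK']
  have h1 : HasSum (fun k : ℕ => ((k : ℝ)) * f k * 2 ^ k) (H f) := by
    have := h.summ'.hasSum
    rw [h.crit] at this
    exact this
  have h2 := (hasSum_nat_add_iff' K).mpr h1
  have h3 : 0 ≤ ∑ i ∈ range K, (i : ℝ) * f i * 2 ^ i :=
    sum_nonneg fun i _ => mul_nonneg (mul_nonneg (by positivity) (h.nonneg i)) (by positivity)
  have h4 : A f K * K ≤ H f - ∑ i ∈ range K, (i : ℝ) * f i * 2 ^ i := by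
    refine hasSum_le ?_ ((h.summA K).hasSum.mul_right (K : ℝ)) h2
    intro k
    have h5 : (0 : ℝ) ≤ f (k + K) * 2 ^ (k + K) := mul_nonneg (h.nonneg _) (by positivity)
    have h6 : (0 : ℝ) ≤ (k : ℝ) * (f (k + K) * 2 ^ (k + K)) := mul_nonneg (by positivity) h5
    push_cast
    nlinarith
  linarith [h.H_le]

noncomputable def S (f : ℕ → ℝ) (J : ℕ) : ℝ := ∑ j ∈ range (J + 1), f j * 2 ^ j

lemma Good.S_add {f : ℕ → ℝ} (h : Good f) (J : ℕ) : S f J + A f (J + 1) = H f :=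
  h.summ.sum_add_tsum_nat_add (J + 1)

lemma Good.S_pos {f : ℕ → ℝ} (h : Good f) (J : ℕ) : 0 < S f J := by
  unfold S
  refine sum_pos' (fun i _ => mul_nonneg (h.nonneg _) (by positivity)) ⟨0, by simp, ?_⟩
  simpa using h.pos

lemma point {f : ℕ → ℝ} (h : Good f) {J k : ℕ} (hk : 2 * J ≤ k) (hk1 : 1 ≤ k) :
    ∑ j ∈ range (J + 1), (f j * 2 ^ j) * (f (k + 1 - j) * 2 ^ (k + 1 - j)) ≤
      nxt f k * 2 ^ k := by
  set a : ℕ → ℝ := fun j => f j * 2 ^ j with ha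
  have ha0 : ∀ j, 0 ≤ a j := fun j => mul_nonneg (h.nonneg _) (by positivity)
  have h1 : nxt f k * 2 ^ k = (∑ ij ∈ antidiagonal (k + 1), a ij.1 * a ij.2) / 2 := by
    unfold nxt
    rw [conv_pow, if_neg (by omega), pow_succ]
    ring
  rw [h1, Finset.Nat.sum_antidiagonal_eq_sum_range_succ_mk]
  set g : ℕ → ℝ := fun i => a i * a (k + 1 - i) with hg
  have hg0 : ∀ j, 0 ≤ g j := fun j => mul_nonneg (ha0 _) (ha0 _)
  have hsub : range (J + 1) ∪ (range (J + 1)).image (fun j => k + 1 - j) ⊆ range (k + 1).succ := by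
    intro x hx
    rw [mem_union, mem_image] at hx
    rcases hx with hx | ⟨y, hy, rfl⟩
    · rw [mem_range] at *
      omega
    · rw [mem_range] at *
      omega
  have hdis : Disjoint (range (J + 1)) ((range (J + 1)).image (fun j => k + 1 - j)) := by
    rw [disjoint_left]
    intro x hx hx2
    rw [mem_image] at hx2
    obtain ⟨y, hy, rfl⟩ := hx2
    rw [mem_range] at *
    omega
  have h2 := sum_le_sum_of_subset_of_nonneg hsub (f := g) fun i _ _ => hg0 i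
  rw [sum_union hdis, sum_image] at h2
  · have h3 : ∑ j ∈ range (J + 1), g (k + 1 - j) = ∑ j ∈ range (J + 1), g j := by
      refine sum_congr rfl fun j hj => ?_
      rw [mem_range] at hj
      simp only [hg]
      rw [show k + 1 - (k + 1 - j) = j by omega, mul_comm]
    rw [h3] at h2
    have h4 : ∑ j ∈ range (J + 1), g j =
      ∑ j ∈ range (J + 1), (f j * 2 ^ j) * (f (k + 1 - j) * 2 ^ (k + 1 - j)) := rfl
    rw [← h4]
    have h5 : ∑ i ∈ range (k + 1).succ, g i = ∑ i ∈ range (k + 1).succ, a i * a (k + 1 - i) := rfl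
    linarith
  · intro x hx y hy hxy
    simp only [coe_range, Set.mem_Iio] at hx hy
    simp only at hxy
    omega

lemma step {f : ℕ → ℝ} (h : Good f) {J K : ℕ} (hK : 2 * J ≤ K) (hK1 : 1 ≤ K) :
    S f J * A f (K + 1) ≤ A (nxt f) K := by
  have h1 : S f J * A f (K + 1) ≤ ∑ j ∈ range (J + 1), (f j * 2 ^ j) * A f (K + 1 - j) := by
    unfold S
    rw [sum_mul]
    refine sum_le_sum fun j _ => ?_
    exact mul_le_mul_of_nonneg_left (h.A_anti (Nat.sub_le _ _))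
      (mul_nonneg (h.nonneg _) (by positivity))
  refine h1.trans ?_
  have h2 : HasSum (fun k : ℕ => ∑ j ∈ range (J + 1),
      (f j * 2 ^ j) * (f (k + (K + 1 - j)) * 2 ^ (k + (K + 1 - j))))
      (∑ j ∈ range (J + 1), (f j * 2 ^ j) * A f (K + 1 - j)) :=
    hasSum_sum fun j _ => (h.summA _).hasSum.mul_left _
  refine hasSum_le ?_ h2 (h.nxt.summA K).hasSum
  intro k
  have h3 := point h (J := J) (k := k + K) (by omega) (by omega)
  refine le_trans (le_of_eq ?_) h3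
  refine sum_congr rfl fun j hj => ?_
  rw [mem_range] at hj
  rw [show k + K + 1 - j = k + (K + 1 - j) by omega]

lemma iter {f : ℕ → ℝ} (h : Good f) (n : ℕ) : ∀ K, 16 * n ≤ K →
    (∏ i ∈ range n, S (sq f i) (8 * (i + 1))) * A f (K + n) ≤ A (sq f n) K := by
  induction n with
  | zero =>
    intro K _
    simp [sq]
  | succ n ih =>
    intro K hK
    have h1 := step (h.sq n) (J := 8 * (n + 1)) (K := K) (by omega) (by omega)
    have h2 := ih (K + 1) (by omega)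
    rw [prod_range_succ]
    have h3 : A (sq f (n + 1)) K = A (nxt (sq f n)) K := rfl
    rw [h3]
    refine le_trans ?_ h1
    have h4 := mul_le_mul_of_nonneg_left h2 ((h.sq n).S_pos (8 * (n + 1))).le
    rw [show K + (n + 1) = K + 1 + n by omega]
    linarith

end Pool.Agent.H6R3.DR
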