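import Mathlib
import Pool.Agent.H6R3.DR1

set_option autoImplicit false
open Filter Topology Finset

namespace Pool.Agent.H6R3.DR

/-- the lower bound for the survival probability that follows from the conjectured asymptotics -/
lemma surv {f : ℕ → ℝ} (h : Good f)
    (hc : Tendsto (fun n : ℕ => ((∑' k : ℕ, sq f n k * (1 / 16 : ℝ) ^ k) - 1) /
      (4 * (2 : ℝ) / (((2 : ℝ) - 1) ^ 2) * (((1 / 16 : ℝ) - 1) / ((2 : ℝ) - 1 / 16)) / ((n : ℝ) ^ 2)))
      atTop (𝓝 1)) :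
    ∃ N : ℕ, ∀ n : ℕ, N ≤ n → 3.8 / (n : ℝ) ^ 2 ≤ 1 - sq f n 0 := by
  have h1 : ∀ᶠ n : ℕ in atTop, (0.99 : ℝ) < ((∑' k : ℕ, sq f n k * (1 / 16 : ℝ) ^ k) - 1) /
      (4 * (2 : ℝ) / (((2 : ℝ) - 1) ^ 2) * (((1 / 16 : ℝ) - 1) / ((2 : ℝ) - 1 / 16)) /
        ((n : ℝ) ^ 2)) := hc.eventually (lt_mem_nhds (by norm_num))
  obtain ⟨N, hN⟩ := eventually_atTop.mp (h1.and (eventually_ge_atTop 1))
  refine ⟨N, fun n hn => ?_⟩
  obtain ⟨h2, h3⟩ := hN n hn
  have hn0 : (0 : ℝ) < n := by exact_mod_cast h3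
  have hsm : Summable (fun k : ℕ => sq f n k * (1 / 16 : ℝ) ^ k) := by
    refine Summable.of_nonneg_of_le (fun k => mul_nonneg ((h.sq n).nonneg k) (by positivity))
      (fun k => ?_) (h.sq n).sum1.summable
    exact mul_le_of_le_one_right ((h.sq n).nonneg k) (pow_le_one₀ (by norm_num) (by norm_num))
  have h4 : sq f n 0 ≤ ∑' k : ℕ, sq f n k * (1 / 16 : ℝ) ^ k := by
    have := hsm.le_tsum 0 fun k _ => mul_nonneg ((h.sq n).nonneg k) (by positivity)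
    simpa using this
  have h5 : (4 * (2 : ℝ) / (((2 : ℝ) - 1) ^ 2) * (((1 / 16 : ℝ) - 1) / ((2 : ℝ) - 1 / 16)) /
        ((n : ℝ) ^ 2)) = -(120 / 31) / (n : ℝ) ^ 2 := by norm_num
  rw [h5] at h2
  have h6 : (0 : ℝ) < (n : ℝ) ^ 2 := by positivity
  have h7 : ((∑' k : ℕ, sq f n k * (1 / 16 : ℝ) ^ k) - 1) / (-(120 / 31) / (n : ℝ) ^ 2) =
      (1 - ∑' k : ℕ, sq f n k * (1 / 16 : ℝ) ^ k) * (n : ℝ) ^ 2 / (120 / 31) := by
    field_simp
    ring
  rw [h7, lt_div_iff₀ (by norm_num)] at h2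
  rw [div_le_iff₀ h6]
  nlinarith

/-- the main lower bound for `n (H_n - 1)` -/
lemma lower {f : ℕ → ℝ} (h : Good f) {N : ℕ}
    (hN : ∀ n : ℕ, N ≤ n → 3.8 / (n : ℝ) ^ 2 ≤ 1 - sq f n 0) :
    ∀ n : ℕ, N + 100 ≤ n → 7 / 4 < (n : ℝ) * (H (sq f n) - 1) := by
  intro n0 hn0
  by_contra hcon
  push Not at hcon
  have key : ∀ n : ℕ, n0 ≤ n → (n : ℝ) * (H (sq f n) - 1) ≤
      7 / 4 - (1 / 4) * ∑ i ∈ Ico n0 n, (1 / ((i : ℝ) + 1)) := by
    intro n hn
    induction n, hn using Nat.le_induction with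
    | base => simpa using hcon
    | succ n hn ih =>
      rw [sum_Ico_succ_top hn]
      have hS : 0 ≤ ∑ i ∈ Ico n0 n, (1 / ((i : ℝ) + 1)) :=
        sum_nonneg fun i _ => by positivity
      have h100 : (100 : ℝ) ≤ n := by exact_mod_cast (by omega : 100 ≤ n)
      have hnp : (0 : ℝ) < n := by linarith
      set e := H (sq f n) - 1 with he
      have he0 : 0 ≤ e := by linarith [(h.sq n).one_le_H]
      have hE : (n : ℝ) * e ≤ 7 / 4 := by linarith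
      set π := 1 - sq f n 0 with hπ
      have hπ1 : π ≤ 1 := by linarith [(h.sq n).pos]
      have hπN : 3.8 / (n : ℝ) ^ 2 ≤ π := hN n (by omega)
      have hrec : H (sq f (n + 1)) - 1 = e + e ^ 2 / 2 - (π - π ^ 2 / 2) := by
        have : H (sq f (n + 1)) = (H (sq f n) ^ 2 + sq f n 0 ^ 2) / 2 := (h.sq n).H_nxt
        rw [this, he, hπ]
        ring
      have hπ2 : 3.79 / (n : ℝ) ^ 2 ≤ π - π ^ 2 / 2 := by
        have hx0 : 0 < 3.8 / (n : ℝ) ^ 2 := by positivity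
        have hx1 : 3.8 / (n : ℝ) ^ 2 ≤ 0.001 := by
          rw [div_le_iff₀ (by positivity)]
          nlinarith
        have h1 : 3.79 / (n : ℝ) ^ 2 = (3.79 / 3.8) * (3.8 / (n : ℝ) ^ 2) := by
          field_simp
        rw [h1]
        nlinarith
      have hstep : ((n : ℝ) + 1) * (H (sq f (n + 1)) - 1) ≤ (n : ℝ) * e - 1 / 4 * (1 / ((n : ℝ) + 1)) := by
        rw [hrec]
        have h2 : ((n : ℝ) + 1) * (e + e ^ 2 / 2 - (π - π ^ 2 / 2)) ≤
            ((n : ℝ) + 1) * (e + e ^ 2 / 2 - 3.79 / (n : ℝ) ^ 2) := by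
          apply mul_le_mul_of_nonneg_left _ (by positivity)
          linarith
        refine h2.trans ?_
        set E := (n : ℝ) * e with hEdef
        have h3 : e = E / n := by
          rw [hEdef]
          field_simp
        have hE0 : 0 ≤ E := by positivity
        rw [h3]
        have h4 : ((n : ℝ) + 1) * (E / n + (E / n) ^ 2 / 2 - 3.79 / (n : ℝ) ^ 2) =
            E + (E + (1 + 1 / (n : ℝ)) * (E ^ 2 / 2 - 3.79)) / n := by
          field_simp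
          ring
        rw [h4]
        have h5 : 0 ≤ 1 / (n : ℝ) := by positivity
        have h6 : E ^ 2 / 2 - 3.79 ≤ -2.25 := by nlinarith
        have h7 : E + (1 + 1 / (n : ℝ)) * (E ^ 2 / 2 - 3.79) ≤ -1 / 4 := by nlinarith
        have h8 : (E + (1 + 1 / (n : ℝ)) * (E ^ 2 / 2 - 3.79)) / n ≤ (-1 / 4) / n := by
          gcongr
        have h9 : (1 : ℝ) / ((n : ℝ) + 1) ≤ 1 / n := by
          apply one_div_le_one_div_of_le hnp
          linarith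
        have h10 : (-1 / 4 : ℝ) / n = - (1 / 4 * (1 / (n : ℝ))) := by ring
        rw [h10] at h8
        linarith
      push_cast
      linarith
  -- divergence of the harmonic series
  have hdiv := Real.tendsto_sum_range_one_div_nat_succ_atTop
  obtain ⟨M, hM1, hM2⟩ := ((hdiv.eventually (eventually_ge_atTop
    (∑ i ∈ range n0, (1 / ((i : ℝ) + 1)) + 8))).and (eventually_ge_atTop n0)).exists
  have h1 := key M hM2
  have h2 : ∑ i ∈ Ico n0 M, (1 / ((i : ℝ) + 1)) =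
      ∑ i ∈ range M, (1 / ((i : ℝ) + 1)) - ∑ i ∈ range n0, (1 / ((i : ℝ) + 1)) :=
    sum_Ico_eq_sub _ hM2
  have h3 : 0 ≤ (M : ℝ) * (H (sq f M) - 1) :=
    mul_nonneg (by positivity) (by linarith [(h.sq M).one_le_H])
  linarith

lemma S_ge {f : ℕ → ℝ} (h : Good f) {N : ℕ}
    (hN : ∀ n : ℕ, N ≤ n → 7 / 4 < (n : ℝ) * (H (sq f n) - 1)) {n : ℕ} (hn : N + 1 ≤ n) :
    1 + (3 / 2) / ((n : ℝ) + 1) ≤ S (sq f n) (8 * (n + 1)) := by
  have h1 := (h.sq n).S_add (8 * (n + 1))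
  have h2 := (h.sq n).A_le (K := 8 * (n + 1) + 1) (by omega)
  have h3 := hN n (by omega)
  have hn0 : (0 : ℝ) < n := by exact_mod_cast (by omega : 0 < n)
  have h4 : (2 : ℝ) / ((8 * (n + 1) + 1 : ℕ) : ℝ) ≤ (1 / 4) / ((n : ℝ) + 1) := by
    push_cast
    rw [div_le_div_iff₀ (by positivity) (by positivity)]
    linarith
  have h5 : (7 / 4 : ℝ) / ((n : ℝ) + 1) ≤ H (sq f n) - 1 := by
    rw [div_le_iff₀ (by positivity)]
    have : 0 ≤ H (sq f n) - 1 := by linarith [(h.sq n).one_le_H]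
    nlinarith
  have h6 : (3 / 2 : ℝ) / ((n : ℝ) + 1) = (7 / 4 : ℝ) / ((n : ℝ) + 1) - (1 / 4) / ((n : ℝ) + 1) := by
    ring
  linarith

/-- growth of the product -/
lemma prod_growth {f : ℕ → ℝ} (h : Good f) {N : ℕ}
    (hS : ∀ n : ℕ, N ≤ n → 1 + (3 / 2) / ((n : ℝ) + 1) ≤ S (sq f n) (8 * (n + 1))) :
    ∃ c : ℝ, 0 < c ∧ ∀ n : ℕ, N ≤ n →
      c * (n : ℝ) ^ 3 ≤ (∏ i ∈ range n, S (sq f i) (8 * (i + 1))) ^ 2 := by
  set P : ℕ → ℝ := fun n => ∏ i ∈ range n, S (sq f i) (8 * (i + 1)) with hP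
  have hPpos : ∀ n, 0 < P n := fun n => prod_pos fun i _ => (h.sq i).S_pos _
  refine ⟨(P N) ^ 2 / (((N : ℝ) + 1) * (N + 2) * (N + 3)), by have := hPpos N; positivity, ?_⟩
  have key : ∀ n : ℕ, N ≤ n → (P N) ^ 2 * (((n : ℝ) + 1) * (n + 2) * (n + 3)) ≤
      P n ^ 2 * (((N : ℝ) + 1) * (N + 2) * (N + 3)) := by
    intro n hn
    induction n, hn using Nat.le_induction with
    | base => exact le_rfl
    | succ n hn ih =>
      have h1 := hS n hn
      have h2 : P (n + 1) = P n * S (sq f n) (8 * (n + 1)) := prod_range_succ _ _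
      have hn0 : (0 : ℝ) < (n : ℝ) + 1 := by positivity
      have h3 : ((n : ℝ) + 4) / (n + 1) ≤ (S (sq f n) (8 * (n + 1))) ^ 2 := by
        have h4 : ((n : ℝ) + 4) / (n + 1) ≤ (1 + (3 / 2) / ((n : ℝ) + 1)) ^ 2 := by
          have : (1 + (3 / 2) / ((n : ℝ) + 1)) ^ 2 - ((n : ℝ) + 4) / (n + 1) =
            (9 / 4) / ((n : ℝ) + 1) ^ 2 := by
            field_simp
            ring
          have h5 : 0 ≤ (9 / 4) / ((n : ℝ) + 1) ^ 2 := by positivity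
          linarith
        refine h4.trans ?_
        gcongr
      rw [h2, mul_pow]
      have h6 := mul_le_mul ih h3 (by positivity) (by positivity)
      have h7 : (P N) ^ 2 * (((n : ℝ) + 1) * (n + 2) * (n + 3)) * (((n : ℝ) + 4) / (n + 1)) =
          (P N) ^ 2 * ((((n + 1 : ℕ) : ℝ) + 1) * (((n + 1 : ℕ) : ℝ) + 2) * (((n + 1 : ℕ) : ℝ) + 3)) := by
        push_cast
        field_simp
        ring
      rw [h7] at h6
      linarith
  intro n hn
  have h1 := key n hn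
  rw [div_mul_eq_mul_div, div_le_iff₀ (by positivity)]
  refine le_trans ?_ h1
  have hn0 : (0 : ℝ) ≤ n := by positivity
  gcongr
  nlinarith [mul_nonneg hn0 hn0]

/-- the contradiction -/
lemma main {f : ℕ → ℝ} (h : Good f) {c0 : ℝ} (hc0 : 0 < c0)
    (hA : ∀ K : ℕ, 1 ≤ K → c0 / (K : ℝ) ^ 2 ≤ A f K)
    (hc : Tendsto (fun n : ℕ => ((∑' k : ℕ, sq f n k * (1 / 16 : ℝ) ^ k) - 1) /
      (4 * (2 : ℝ) / (((2 : ℝ) - 1) ^ 2) * (((1 / 16 : ℝ) - 1) / ((2 : ℝ) - 1 / 16)) / ((n : ℝ) ^ 2)))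
      atTop (𝓝 1)) : False := by
  obtain ⟨N, hN⟩ := surv h hc
  have h1 := lower h hN
  have h2 : ∀ n : ℕ, N + 101 ≤ n → 1 + (3 / 2) / ((n : ℝ) + 1) ≤ S (sq f n) (8 * (n + 1)) :=
    fun n hn => S_ge h h1 (by omega)
  obtain ⟨c, hcpos, h3⟩ := prod_growth h h2
  obtain ⟨M, hM⟩ := exists_nat_gt ((37 / c0) ^ 2 / c)
  set n := M + N + 101 with hn
  have hnM : (37 / c0) ^ 2 / c < (n : ℝ) := by
    refine hM.trans_le ?_
    exact_mod_cast (by omega : M ≤ n)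
  have hn1 : (1 : ℝ) ≤ n := by exact_mod_cast (by omega : 1 ≤ n)
  have hn0 : (0 : ℝ) < n := by linarith
  have h4 := h3 n (by omega)
  have h5 := iter h n (16 * n) le_rfl
  have h6 := (h.sq n).A_le (K := 16 * n) (by omega)
  have h7 := hA (16 * n + n) (by omega)
  set P := ∏ i ∈ range n, S (sq f i) (8 * (i + 1)) with hP
  have hPpos : 0 < P := prod_pos fun i _ => (h.sq i).S_pos _
  have h8 : P * (c0 / (((16 * n + n : ℕ) : ℝ)) ^ 2) ≤ 2 / ((16 * n : ℕ) : ℝ) :=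
    (mul_le_mul_of_nonneg_left h7 hPpos.le).trans (h5.trans h6)
  have h9 : P ≤ (37 / c0) * n := by
    push_cast at h8
    have e1 : P * (c0 / (16 * (n : ℝ) + n) ^ 2) = P * c0 / (289 * (n : ℝ) ^ 2) := by
      field_simp
      ring
    rw [e1, div_le_div_iff₀ (by positivity) (by positivity)] at h8
    rw [div_mul_eq_mul_div, le_div_iff₀ hc0]
    have e2 : P * c0 * 16 * (n : ℝ) ≤ 578 * n * n := by nlinarith
    have e3 : P * c0 * 16 ≤ 578 * n := by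
      exact le_of_mul_le_mul_right e2 hn0
    nlinarith
  have h10 : P ^ 2 ≤ ((37 / c0) * n) ^ 2 := by
    gcongr
  have h11 : c * (n : ℝ) ^ 3 ≤ (37 / c0) ^ 2 * (n : ℝ) ^ 2 := by
    calc c * (n : ℝ) ^ 3 ≤ P ^ 2 := h4
      _ ≤ _ := h10
      _ = _ := by ring
  have h12 : c * (n : ℝ) ≤ (37 / c0) ^ 2 := by
    have e : 0 < (n : ℝ) ^ 2 := by positivity
    refine le_of_mul_le_mul_right ?_ e
    calc c * (n : ℝ) * (n : ℝ) ^ 2 = c * (n : ℝ) ^ 3 := by ring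
      _ ≤ _ := h11
  rw [div_lt_iff₀ hcpos] at hnM
  linarith

end Pool.Agent.H6R3.DR
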