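import Mathlib
import Pool.Agent.H6R3.DR2

set_option autoImplicit false
open Filter Topology Finset

namespace Pool.Agent.H6R3.DR

/-- the heavy tailed initial law before normalisation: `g k = 1 / (k (k+1) (k+2) 2^k)` for `k ≥ 1`
and `g 0 = 1/4` -/
noncomputable def g0 (k : ℕ) : ℝ :=
  if k = 0 then 1 / 4 else 1 / ((k : ℝ) * (k + 1) * (k + 2) * 2 ^ k)

lemma g0_nonneg (k : ℕ) : 0 ≤ g0 k := by
  unfold g0
  split_ifs <;> positivity

lemma hasSum_a : HasSum (fun k : ℕ => g0 k * 2 ^ k) (1 / 2) := by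
  rw [hasSum_iff_tendsto_nat_of_nonneg (fun k => mul_nonneg (g0_nonneg k) (by positivity))]
  have h1 : ∀ n : ℕ, ∑ i ∈ range (n + 1), g0 i * 2 ^ i =
      1 / 2 - 1 / (2 * ((n : ℝ) + 1) * (n + 2)) := by
    intro n
    induction n with
    | zero =>
      simp [g0]
      norm_num
    | succ n ih =>
      rw [sum_range_succ, ih]
      unfold g0
      rw [if_neg (by omega)]
      push_cast
      field_simp
      ring
  rw [← tendsto_add_atTop_iff_nat 1]
  simp only [h1]
  have h2 : Tendsto (fun n : ℕ => 1 / (2 * ((n : ℝ) + 1) * (n + 2))) atTop (𝓝 0) := by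
    refine squeeze_zero (fun n => by positivity) (fun n => ?_)
      tendsto_one_div_add_atTop_nhds_zero_nat
    apply one_div_le_one_div_of_le (by positivity)
    have : (0 : ℝ) ≤ n := by positivity
    nlinarith
  simpa using h2.const_sub (1 / 2 : ℝ)

lemma hasSum_b : HasSum (fun k : ℕ => (k : ℝ) * g0 k * 2 ^ k) (1 / 2) := by
  rw [hasSum_iff_tendsto_nat_of_nonneg
    (fun k => mul_nonneg (mul_nonneg (by positivity) (g0_nonneg k)) (by positivity))]
  have h1 : ∀ n : ℕ, ∑ i ∈ range (n + 1), (i : ℝ) * g0 i * 2 ^ i =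
      1 / 2 - 1 / ((n : ℝ) + 2) := by
    intro n
    induction n with
    | zero => simp
    | succ n ih =>
      rw [sum_range_succ, ih]
      unfold g0
      rw [if_neg (by omega)]
      push_cast
      field_simp
      ring
  rw [← tendsto_add_atTop_iff_nat 1]
  simp only [h1]
  have h2 : Tendsto (fun n : ℕ => 1 / ((n : ℝ) + 2)) atTop (𝓝 0) := by
    refine squeeze_zero (fun n => by positivity) (fun n => ?_)
      tendsto_one_div_add_atTop_nhds_zero_nat
    apply one_div_le_one_div_of_le (by positivity)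
    linarith
  simpa using h2.const_sub (1 / 2 : ℝ)

lemma summ_g0 : Summable g0 := by
  refine Summable.of_nonneg_of_le g0_nonneg (fun k => ?_) hasSum_a.summable
  have : (1 : ℝ) ≤ 2 ^ k := one_le_pow₀ (by norm_num)
  nlinarith [g0_nonneg k]

noncomputable def T : ℝ := ∑' k, g0 k

lemma T_pos : 0 < T := by
  refine summ_g0.tsum_pos g0_nonneg 0 ?_
  simp [g0]

/-- the initial law -/
noncomputable def law (k : ℕ) : ℝ := g0 k / T

lemma law_mul (k : ℕ) (x : ℝ) : law k * x = (g0 k * x) / T := by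
  unfold law
  ring

lemma hasSum_law2 : HasSum (fun k : ℕ => law k * 2 ^ k) (1 / 2 / T) := by
  simp only [law_mul]
  exact hasSum_a.div_const T

lemma hasSum_law2' : HasSum (fun k : ℕ => (k : ℝ) * law k * 2 ^ k) (1 / 2 / T) := by
  have e : (fun k : ℕ => (k : ℝ) * law k * 2 ^ k) = fun k : ℕ => ((k : ℝ) * g0 k * 2 ^ k) / T := by
    funext k
    unfold law
    ring
  rw [e]
  exact hasSum_b.div_const T

lemma good_law : Good law := by
  refine ⟨fun k => div_nonneg (g0_nonneg k) T_pos.le, ?_, hasSum_law2.summable,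
    hasSum_law2'.summable, ?_, ?_⟩
  · have := summ_g0.hasSum.div_const T
    rwa [show (∑' k, g0 k) / T = 1 from div_self T_pos.ne'] at this
  · rw [hasSum_law2'.tsum_eq, hasSum_law2.tsum_eq]
  · refine div_pos ?_ T_pos
    simp [g0]

lemma law_tail : ∃ c0 : ℝ, 0 < c0 ∧ ∀ K : ℕ, 1 ≤ K → c0 / (K : ℝ) ^ 2 ≤ A law K := by
  refine ⟨1 / (24 * T), by have := T_pos; positivity, fun K hK => ?_⟩
  have hT := T_pos
  have hK0 : (1 : ℝ) ≤ K := by exact_mod_cast hK
  have h1 : ∑ k ∈ range K, law (k + K) * 2 ^ (k + K) ≤ A law K :=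
    (good_law.summA K).sum_le_tsum (range K)
      fun k _ => mul_nonneg (good_law.nonneg _) (by positivity)
  refine le_trans ?_ h1
  have h2 : ∀ k ∈ range K, 1 / (24 * (K : ℝ) ^ 3) / T ≤ law (k + K) * 2 ^ (k + K) := by
    intro k hk
    rw [mem_range] at hk
    have hk' : (k : ℝ) ≤ K - 1 := by
      have : (k : ℝ) + 1 ≤ K := by exact_mod_cast hk
      linarith
    have hk0 : (0 : ℝ) ≤ k := by positivity
    rw [law_mul]
    unfold g0
    rw [if_neg (by omega)]
    gcongr
    have e : 1 / (((k + K : ℕ) : ℝ) * (((k + K : ℕ) : ℝ) + 1) * (((k + K : ℕ) : ℝ) + 2) *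
        2 ^ (k + K)) * 2 ^ (k + K) =
        1 / (((k : ℝ) + K) * ((k : ℝ) + K + 1) * ((k : ℝ) + K + 2)) := by
      push_cast
      field_simp
    rw [e]
    apply one_div_le_one_div_of_le (by positivity)
    have a1 : (k : ℝ) + K ≤ 2 * K := by linarith
    have a2 : (k : ℝ) + K + 1 ≤ 2 * K := by linarith
    have a3 : (k : ℝ) + K + 2 ≤ 3 * K := by linarith
    calc ((k : ℝ) + K) * ((k : ℝ) + K + 1) * ((k : ℝ) + K + 2)
        ≤ (2 * K) * (2 * K) * (3 * K) := by gcongr
      _ ≤ 24 * (K : ℝ) ^ 3 := by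
        have : (0 : ℝ) ≤ (K : ℝ) ^ 3 := by positivity
        nlinarith
  have h3 := card_nsmul_le_sum _ _ _ h2
  rw [card_range, nsmul_eq_mul] at h3
  refine le_trans (le_of_eq ?_) h3
  field_simp

lemma nxt_eq (f : ℕ → ℝ) (k : ℕ) : nxt f k =
    (∑ x : Fin 2 → Fin (k + 2), if (∑ i, (x i : ℕ)) = k + 1 then ∏ i, f (x i) else 0)
      + (if k = 0 then f 0 ^ 2 else 0) := by
  unfold nxt
  congr 1
  rw [← (finTwoArrowEquiv (Fin (k + 2))).symm.sum_comp]
  simp only [finTwoArrowEquiv_symm_apply, Fin.sum_univ_two, Fin.prod_univ_two,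
    Matrix.cons_val_zero, Matrix.cons_val_one]
  rw [← sum_filter]
  refine sum_bij' (fun ij h => ((⟨ij.1, ?_⟩ : Fin (k + 2)), (⟨ij.2, ?_⟩ : Fin (k + 2))))
    (fun xy _ => ((xy.1 : ℕ), (xy.2 : ℕ))) ?_ ?_ ?_ ?_ ?_
  · have := mem_antidiagonal.mp h
    omega
  · have := mem_antidiagonal.mp h
    omega
  · intro ij h
    simp only [mem_filter, mem_univ, true_and]
    exact mem_antidiagonal.mp h
  · intro xy h
    simp only [mem_filter, mem_univ, true_and] at h
    exact mem_antidiagonal.mpr h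
  · intro ij h
    rfl
  · intro xy h
    rfl
  · intro ij h
    rfl

end Pool.Agent.H6R3.DR
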