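import Mathlib

set_option autoImplicit false
open MeasureTheory Filter Topology ENNReal

namespace Pool.Agent.H6R3.HS

abbrev E := EuclideanSpace ℝ (Fin 3)

variable {F : Type} [NormedAddCommGroup F]

/-- real valued `L²` norm -/
noncomputable def N2 (f : E → F) : ℝ := (eLpNorm f 2 volume).toReal

lemma N2_nonneg (f : E → F) : 0 ≤ N2 f := ENNReal.toReal_nonneg

lemma N2_eq {f : E → F} (hf : MemLp f 2 volume) : N2 f = (∫ x, ‖f x‖ ^ 2) ^ ((1 : ℝ) / 2) := by
  unfold N2
  rw [hf.eLpNorm_eq_integral_rpow_norm (by norm_num) (by norm_num)]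
  rw [ENNReal.toReal_ofReal (by positivity)]
  norm_num

lemma N2_sq {f : E → F} (hf : MemLp f 2 volume) : N2 f ^ 2 = ∫ x, ‖f x‖ ^ 2 := by
  rw [N2_eq hf]
  have h0 : 0 ≤ ∫ x, ‖f x‖ ^ 2 := integral_nonneg fun x => by positivity
  rw [← Real.rpow_natCast, ← Real.rpow_mul h0]
  norm_num

lemma N2_add {f g : E → F} (hf : MemLp f 2 volume) (hg : MemLp g 2 volume) :
    N2 (fun x => f x + g x) ≤ N2 f + N2 g := by
  unfold N2
  rw [← ENNReal.toReal_add hf.2.ne hg.2.ne]
  exact ENNReal.toReal_mono (ENNReal.add_ne_top.mpr ⟨hf.2.ne, hg.2.ne⟩)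
    (eLpNorm_add_le hf.1 hg.1 (by norm_num))

lemma N2_neg (f : E → F) : N2 (fun x => - f x) = N2 f := by
  unfold N2
  rw [show (fun x => - f x) = -f from rfl, eLpNorm_neg]

lemma N2_sub_comm (f g : E → F) : N2 (fun x => f x - g x) = N2 (fun x => g x - f x) := by
  rw [← N2_neg]
  congr 1
  funext x
  abel

lemma CS {F' : Type} [NormedAddCommGroup F'] {f : E → F} {g : E → F'} (hf : MemLp f 2 volume)
    (hg : MemLp g 2 volume) : ∫ x, ‖f x‖ * ‖g x‖ ≤ N2 f * N2 g := by
  have h := integral_mul_le_Lp_mul_Lq_of_nonneg (μ := (volume : Measure E)) (p := 2) (q := 2)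
    (f := fun x => ‖f x‖) (g := fun x => ‖g x‖) ⟨by norm_num, by norm_num, by norm_num⟩
    (Eventually.of_forall fun x => norm_nonneg _) (Eventually.of_forall fun x => norm_nonneg _)
    (by simpa using hf.norm) (by simpa using hg.norm)
  rw [N2_eq hf, N2_eq hg]
  simpa using h

lemma CS_mul {f g : E → ℝ} (hf : MemLp f 2 volume) (hg : MemLp g 2 volume) :
    |∫ x, f x * g x| ≤ N2 f * N2 g := by
  rw [← Real.norm_eq_abs]
  refine (norm_integral_le_integral_norm _).trans ?_
  simp only [norm_mul]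
  exact CS hf hg

lemma CS_inner {f g : E → E} (hf : MemLp f 2 volume) (hg : MemLp g 2 volume) :
    |∫ x, inner ℝ (f x) (g x)| ≤ N2 f * N2 g := by
  rw [← Real.norm_eq_abs]
  refine (norm_integral_le_integral_norm _).trans ?_
  refine le_trans ?_ (CS hf hg)
  refine integral_mono_of_nonneg (Eventually.of_forall fun x => norm_nonneg _) ?_
    (Eventually.of_forall fun x => norm_inner_le_norm _ _)
  exact hf.norm.integrable_mul hg.norm

lemma int_mul {f g : E → ℝ} (hf : MemLp f 2 volume) (hg : MemLp g 2 volume) :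
    Integrable (fun x => f x * g x) volume := hf.integrable_mul hg

lemma int_inner {f g : E → E} (hf : MemLp f 2 volume) (hg : MemLp g 2 volume) :
    Integrable (fun x => inner ℝ (f x) (g x)) volume := by
  have h := hf.norm.integrable_mul hg.norm
  refine h.mono (hf.1.inner hg.1) (Eventually.of_forall fun x => ?_)
  simp only [Pi.mul_apply, norm_mul, norm_norm]
  exact norm_inner_le_norm _ _

/-- scaling of integrals -/
lemma integral_dil (f : E → ℝ) {l : ℝ} (hl : 0 < l) :
    ∫ x, f (l • x) = (l ^ 3)⁻¹ * ∫ x, f x := by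
  rw [Measure.integral_comp_smul]
  have : Module.finrank ℝ E = 3 := by simp [E]
  rw [this, smul_eq_mul, abs_of_pos (by positivity)]

lemma memLp_dil {f : E → F} {p : ℝ≥0∞} (hf : MemLp f p volume) {l : ℝ} (hl : 0 < l) :
    MemLp (fun x => f (l • x)) p volume := by
  have h1 : Measure.map (fun x : E => l • x) volume = ENNReal.ofReal |(l ^ 3)⁻¹| • (volume : Measure E) := by
    have := Measure.map_addHaar_smul (volume : Measure E) hl.ne'
    rwa [show Module.finrank ℝ E = 3 by simp [E]] at this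
  have h2 : MemLp f p (Measure.map (fun x : E => l • x) volume) := by
    rw [h1]
    exact hf.smul_measure (by simp)
  exact h2.comp_of_map (measurable_const_smul l).aemeasurable

lemma N2_dil {f : E → F} (hf : MemLp f 2 volume) {l : ℝ} (hl : 0 < l) :
    N2 (fun x => f (l ^ 2 • x)) = (l ^ 3)⁻¹ * N2 f := by
  have h1 := N2_sq (memLp_dil hf (l := l ^ 2) (by positivity))
  have h2 := integral_dil (fun x => ‖f x‖ ^ 2) (l := l ^ 2) (by positivity)
  rw [h2, ← N2_sq hf] at h1
  have h3 : N2 (fun x => f (l ^ 2 • x)) ^ 2 = ((l ^ 3)⁻¹ * N2 f) ^ 2 := by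
    rw [h1]
    field_simp
  exact (pow_left_inj₀ (N2_nonneg _) (mul_nonneg (by positivity) (N2_nonneg _)) (by norm_num)).mp h3

end Pool.Agent.H6R3.HS
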