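import Mathlib
import Pool.Agent.H6R3.HS1

set_option autoImplicit false
open MeasureTheory Filter Topology ENNReal

namespace Pool.Agent.H6R3.HS

/-- smooth test functions vanishing near the origin -/
structure Tst (φ : E → ℝ) : Prop where
  smooth : ContDiff ℝ ((⊤ : ℕ∞) : WithTop ℕ∞) φ
  comp : HasCompactSupport φ
  zero : (0 : E) ∉ tsupport φ

lemma sq_int_le {f : ℝ → ℝ} (hf : Continuous f) {l : ℝ} (hl : 1 < l) :
    (∫ t in (1 : ℝ)..l, f t) ^ 2 ≤ (l - 1) * ∫ t in (1 : ℝ)..l, f t ^ 2 := by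
  set I := ∫ t in (1 : ℝ)..l, f t with hI
  set c := I / (l - 1) with hc
  have hl0 : 0 < l - 1 := by linarith
  have h1 : 0 ≤ ∫ t in (1 : ℝ)..l, (f t - c) ^ 2 :=
    intervalIntegral.integral_nonneg hl.le fun t _ => by positivity
  have h2 : ∫ t in (1 : ℝ)..l, (f t - c) ^ 2 =
      (∫ t in (1 : ℝ)..l, f t ^ 2) - 2 * c * I + c ^ 2 * (l - 1) := by
    have e : (fun t => (f t - c) ^ 2) = fun t => (f t ^ 2 - 2 * c * f t) + c ^ 2 := by
      funext t
      ring
    rw [e, intervalIntegral.integral_add, intervalIntegral.integral_sub,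
      intervalIntegral.integral_const_mul, intervalIntegral.integral_const, smul_eq_mul]
    · ring
    · exact (hf.pow 2).intervalIntegrable _ _
    · exact (continuous_const.mul hf).intervalIntegrable _ _
    · exact ((hf.pow 2).sub (continuous_const.mul hf)).intervalIntegrable _ _
    · exact continuous_const.intervalIntegrable _ _
  rw [h2] at h1
  have h3 : c * (l - 1) = I := by
    rw [hc]
    field_simp
  have h4 : c ^ 2 * (l - 1) = c * I := by
    rw [← h3]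
    ring
  rw [h4] at h1
  have h5 : I ^ 2 = (l - 1) * (c * I) := by
    rw [← h3]
    ring
  rw [h5]
  apply mul_le_mul_of_nonneg_left _ hl0.le
  linarith

lemma pointwise {φ : E → ℝ} (hφ : ContDiff ℝ ((⊤ : ℕ∞) : WithTop ℕ∞) φ) {l : ℝ} (hl : 1 < l) (x : E) :
    (φ (l • x) - φ x) ^ 2 ≤ ‖x‖ ^ 2 * ((l - 1) * ∫ t in (1 : ℝ)..l, ‖fderiv ℝ φ (t • x)‖ ^ 2) := by
  have hd : Differentiable ℝ φ := hφ.differentiable (by simp)
  have hcd : Continuous (fderiv ℝ φ) := hφ.continuous_fderiv (by simp)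
  have h1 : ∀ t : ℝ, HasDerivAt (fun t : ℝ => φ (t • x)) (fderiv ℝ φ (t • x) x) t := by
    intro t
    have h2 : HasDerivAt (fun t : ℝ => t • x) x t := by
      simpa using (hasDerivAt_id t).smul_const x
    exact (hd (t • x)).hasFDerivAt.comp_hasDerivAt t h2
  have hc : Continuous fun t : ℝ => fderiv ℝ φ (t • x) x :=
    (hcd.comp (continuous_id.smul continuous_const)).clm_apply continuous_const
  have h3 : φ (l • x) - φ x = ∫ t in (1 : ℝ)..l, fderiv ℝ φ (t • x) x := by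
    rw [intervalIntegral.integral_eq_sub_of_hasDerivAt (fun t _ => h1 t)
      (hc.intervalIntegrable _ _), one_smul]
  rw [h3]
  refine (sq_int_le hc hl).trans ?_
  have h4 : ∫ t in (1 : ℝ)..l, (fderiv ℝ φ (t • x) x) ^ 2 ≤
      ∫ t in (1 : ℝ)..l, ‖x‖ ^ 2 * ‖fderiv ℝ φ (t • x)‖ ^ 2 := by
    refine intervalIntegral.integral_mono_on hl.le ((hc.pow 2).intervalIntegrable _ _) ?_ ?_
    · exact (continuous_const.mul ((hcd.comp (continuous_id.smul continuous_const)).norm.pow 2)).intervalIntegrable _ _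
    · intro t _
      have := (fderiv ℝ φ (t • x)).le_opNorm x
      rw [Real.norm_eq_abs] at this
      rw [← sq_abs]
      calc |fderiv ℝ φ (t • x) x| ^ 2 ≤ (‖fderiv ℝ φ (t • x)‖ * ‖x‖) ^ 2 := by gcongr
        _ = _ := by ring
  rw [intervalIntegral.integral_const_mul] at h4
  have hl0 : 0 ≤ l - 1 := by linarith
  calc (l - 1) * ∫ t in (1 : ℝ)..l, (fderiv ℝ φ (t • x) x) ^ 2 
      ≤ (l - 1) * (‖x‖ ^ 2 * ∫ t in (1 : ℝ)..l, ‖fderiv ℝ φ (t • x)‖ ^ 2) := by gcongr
    _ = _ := by ring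

lemma swap {φ : E → ℝ} (hφ : ContDiff ℝ ((⊤ : ℕ∞) : WithTop ℕ∞) φ) (hc : HasCompactSupport φ)
    {l : ℝ} (hl : 1 < l) :
    Integrable (fun x : E => ∫ t in (1 : ℝ)..l, ‖fderiv ℝ φ (t • x)‖ ^ 2) volume ∧
    ∫ x : E, ∫ t in (1 : ℝ)..l, ‖fderiv ℝ φ (t • x)‖ ^ 2 ≤ (l - 1) * ∫ x, ‖fderiv ℝ φ x‖ ^ 2 := by
  have hcd : Continuous (fderiv ℝ φ) := hφ.continuous_fderiv (by simp)
  have hcs : HasCompactSupport (fderiv ℝ φ) := hc.fderiv (𝕜 := ℝ)
  obtain ⟨R, hR⟩ := hcs.isCompact.isBounded.subset_closedBall 0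
  have hF : Continuous fun z : E × ℝ => ‖fderiv ℝ φ (z.2 • z.1)‖ ^ 2 :=
    ((hcd.comp (continuous_snd.smul continuous_fst)).norm.pow 2)
  have hint : Integrable (fun z : E × ℝ => ‖fderiv ℝ φ (z.2 • z.1)‖ ^ 2)
      ((volume : Measure E).prod (volume.restrict (Set.Ioc 1 l))) := by
    have h1 : (volume : Measure E).prod ((volume : Measure ℝ).restrict (Set.Ioc 1 l)) =
        ((volume : Measure E).prod (volume : Measure ℝ)).restrict (Set.univ ×ˢ Set.Ioc 1 l) := by
      rw [← Measure.prod_restrict, Measure.restrict_univ]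
    rw [h1]
    have h2 : IntegrableOn (fun z : E × ℝ => ‖fderiv ℝ φ (z.2 • z.1)‖ ^ 2)
        (Metric.closedBall 0 R ×ˢ Set.Icc 1 l) ((volume : Measure E).prod (volume : Measure ℝ)) :=
      hF.continuousOn.integrableOn_compact ((isCompact_closedBall _ _).prod isCompact_Icc)
    refine IntegrableOn.of_forall_sdiff_eq_zero h2 (MeasurableSet.univ.prod measurableSet_Ioc) ?_
    rintro ⟨x, t⟩ ⟨⟨_, ht⟩, hn⟩
    simp only [Set.mem_prod, Metric.mem_closedBall, dist_zero_right, not_and_or, not_le] at hn ht ⊢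
    have hx : R < ‖x‖ := by
      rcases hn with h | h
      · exact h
      · exact absurd ⟨ht.1.le, ht.2⟩ h
    have hz : fderiv ℝ φ (t • x) = 0 := by
      by_contra hne
      have h3 := hR (subset_tsupport _ hne)
      rw [Metric.mem_closedBall, dist_zero_right, norm_smul, Real.norm_eq_abs,
        abs_of_pos (by linarith [ht.1])] at h3
      have : ‖x‖ ≤ t * ‖x‖ := by nlinarith [norm_nonneg x, ht.1]
      linarith
    simp [hz]
  have e1 : (fun x : E => ∫ t in (1 : ℝ)..l, ‖fderiv ℝ φ (t • x)‖ ^ 2) =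
      fun x : E => ∫ t in Set.Ioc 1 l, ‖fderiv ℝ φ (t • x)‖ ^ 2 := by
    funext x
    rw [intervalIntegral.integral_of_le hl.le]
  refine ⟨?_, ?_⟩
  · rw [e1]
    exact hint.integral_prod_left
  · rw [e1, integral_integral_swap hint]
    have h3 : ∀ t ∈ Set.Ioc 1 l, ∫ x : E, ‖fderiv ℝ φ (t • x)‖ ^ 2 ≤ ∫ x, ‖fderiv ℝ φ x‖ ^ 2 := by
      intro t ht
      rw [integral_dil (fun x => ‖fderiv ℝ φ x‖ ^ 2) (by linarith [ht.1] : 0 < t)]
      have h4 : 0 ≤ ∫ x, ‖fderiv ℝ φ x‖ ^ 2 := integral_nonneg fun x => by positivity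
      have h5 : (t ^ 3)⁻¹ ≤ 1 := inv_le_one_of_one_le₀ (one_le_pow₀ ht.1.le)
      nlinarith
    calc ∫ t in Set.Ioc 1 l, ∫ x : E, ‖fderiv ℝ φ (t • x)‖ ^ 2
        ≤ ∫ t in Set.Ioc 1 l, ∫ x, ‖fderiv ℝ φ x‖ ^ 2 := by
          refine setIntegral_mono_on ?_ (integrableOn_const (by simp)) measurableSet_Ioc h3
          exact hint.integral_prod_right
      _ = _ := by
          rw [setIntegral_const]
          simp [Measure.real, Real.volume_Ioc, ENNReal.toReal_ofReal (by linarith : 0 ≤ l - 1)]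

/-- the difference quotient along dilations -/
noncomputable def dq (l : ℝ) (φ : E → ℝ) (x : E) : ℝ := (φ (l • x) - φ x) / ‖x‖

lemma near_zero {φ : E → ℝ} (h : Tst φ) {l : ℝ} (hl : 1 ≤ l) :
    ∃ r : ℝ, 0 < r ∧ ∀ x : E, ‖x‖ < r → φ (l • x) = 0 ∧ φ x = 0 := by
  have h1 : (tsupport φ)ᶜ ∈ 𝓝 (0 : E) := (isClosed_tsupport φ).isOpen_compl.mem_nhds h.zero
  obtain ⟨r, hr, hr2⟩ := Metric.mem_nhds_iff.mp h1
  refine ⟨r / l, by positivity, fun x hx => ?_⟩
  have hl0 : 0 < l := by linarith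
  have hx2 : ‖x‖ < r := lt_of_lt_of_le hx (div_le_self hr.le hl)
  have hx1 : ‖l • x‖ < r := by
    rw [norm_smul, Real.norm_eq_abs, abs_of_pos hl0]
    rw [lt_div_iff₀ hl0] at hx
    linarith
  constructor
  · exact image_eq_zero_of_notMem_tsupport (hr2 (by simpa using hx1))
  · exact image_eq_zero_of_notMem_tsupport (hr2 (by simpa using hx2))

lemma div_norm_cont {f : E → ℝ} (hf : Continuous f) {r : ℝ} (hr : 0 < r)
    (h0 : ∀ x : E, ‖x‖ < r → f x = 0) : Continuous fun x : E => f x / ‖x‖ := by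
  have e : (fun x : E => f x / ‖x‖) = fun x : E => f x / max ‖x‖ r := by
    funext x
    rcases lt_or_ge ‖x‖ r with h | h
    · rw [h0 x h]
      simp
    · rw [max_eq_left h]
  rw [e]
  refine hf.div (continuous_norm.max continuous_const) fun x => ?_
  have : 0 < max ‖x‖ r := lt_max_of_lt_right hr
  exact this.ne'

lemma comp_dil {φ : E → ℝ} (hc : HasCompactSupport φ) {l : ℝ} (hl : 0 < l) :
    HasCompactSupport fun x : E => φ (l • x) := hc.comp_smul hl.ne'

lemma memLp_dq {φ : E → ℝ} (h : Tst φ) {l : ℝ} (hl : 1 ≤ l) : MemLp (dq l φ) 2 volume := by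
  obtain ⟨r, hr, h0⟩ := near_zero h hl
  have hc : Continuous φ := h.smooth.continuous
  have h1 : Continuous (dq l φ) := div_norm_cont (f := fun x => φ (l • x) - φ x)
    ((hc.comp (continuous_const_smul l)).sub hc) hr fun x hx => by simp [h0 x hx]
  refine h1.memLp_of_hasCompactSupport ?_
  have h2 : HasCompactSupport fun x : E => φ (l • x) - φ x :=
    (comp_dil h.comp (by linarith)).sub h.comp
  refine h2.mono ?_
  intro x hx
  rw [Function.mem_support] at *
  intro h3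
  apply hx
  unfold dq
  rw [h3, zero_div]

lemma memLp_fderiv {φ : E → ℝ} (h : ContDiff ℝ ((⊤ : ℕ∞) : WithTop ℕ∞) φ)
    (hc : HasCompactSupport φ) : MemLp (fderiv ℝ φ) 2 (volume : Measure E) :=
  (h.continuous_fderiv (by simp)).memLp_of_hasCompactSupport (hc.fderiv (𝕜 := ℝ))

/-- the uniform bound for the difference quotients -/
lemma dq_le {φ : E → ℝ} (h : Tst φ) {l : ℝ} (hl : 1 < l) :
    N2 (dq l φ) ≤ (l - 1) * N2 (fderiv ℝ φ) := by
  have hl0 : 0 ≤ l - 1 := by linarith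
  refine le_of_sq_le_sq ?_ (mul_nonneg hl0 (N2_nonneg _))
  rw [mul_pow, N2_sq (memLp_dq h hl.le), N2_sq (memLp_fderiv h.smooth h.comp)]
  obtain ⟨hs1, hs2⟩ := swap h.smooth h.comp hl
  calc ∫ x, ‖dq l φ x‖ ^ 2 ≤ ∫ x, (l - 1) * ∫ t in (1 : ℝ)..l, ‖fderiv ℝ φ (t • x)‖ ^ 2 := by
        refine integral_mono_of_nonneg (Eventually.of_forall fun x => by positivity)
          (hs1.const_mul _) (Eventually.of_forall fun x => ?_)
        simp only
        have hnn : 0 ≤ (l - 1) * ∫ t in (1 : ℝ)..l, ‖fderiv ℝ φ (t • x)‖ ^ 2 :=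
          mul_nonneg hl0 (intervalIntegral.integral_nonneg hl.le fun t _ => by positivity)
        unfold dq
        rw [Real.norm_eq_abs, sq_abs, div_pow]
        rcases eq_or_ne x 0 with rfl | hx
        · simpa using hnn
        · rw [div_le_iff₀ (by positivity)]
          have := pointwise h.smooth hl x
          linarith
    _ = (l - 1) * ∫ x, ∫ t in (1 : ℝ)..l, ‖fderiv ℝ φ (t • x)‖ ^ 2 := integral_const_mul _ _
    _ ≤ (l - 1) * ((l - 1) * ∫ x, ‖fderiv ℝ φ x‖ ^ 2) := by gcongr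
    _ = _ := by ring

end Pool.Agent.H6R3.HS
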