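import Mathlib
import Pool.Agent.H6R3.HS2

set_option autoImplicit false
open MeasureTheory Filter Topology ENNReal

namespace Pool.Agent.H6R3.HS

lemma supp_div {f : E → ℝ} (h : HasCompactSupport f) : HasCompactSupport fun x : E => f x / ‖x‖ := by
  refine h.mono ?_
  intro x hx
  rw [Function.mem_support] at *
  intro h3
  apply hx
  rw [h3, zero_div]

lemma near_zero' {φ : E → ℝ} (h : Tst φ) : ∃ r : ℝ, 0 < r ∧ ∀ x : E, ‖x‖ < r → φ x = 0 := by
  obtain ⟨r, hr, h0⟩ := near_zero h le_rfl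
  exact ⟨r, hr, fun x hx => (h0 x hx).2⟩

lemma memLp_hardy {φ : E → ℝ} (h : Tst φ) : MemLp (fun x => φ x / ‖x‖) 2 (volume : Measure E) := by
  obtain ⟨r, hr, h0⟩ := near_zero' h
  exact (div_norm_cont h.smooth.continuous hr h0).memLp_of_hasCompactSupport (supp_div h.comp)

/-- Hardy's inequality -/
lemma hardy {φ : E → ℝ} (h : Tst φ) : N2 (fun x => φ x / ‖x‖) ≤ 6 * N2 (fderiv ℝ φ) := by
  have h1 := dq_le h (l := 4) (by norm_num)
  have h2 := N2_dil (memLp_hardy h) (l := 2) (by norm_num)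
  have hm := memLp_dil (memLp_hardy h) (l := 2 ^ 2) (by norm_num)
  have e1 : (fun x => φ x / ‖x‖) = fun x => (4 * (φ ((2 : ℝ) ^ 2 • x) / ‖(2 : ℝ) ^ 2 • x‖)) +
      (- dq 4 φ x) := by
    funext x
    unfold dq
    rw [norm_smul]
    norm_num
    rcases eq_or_ne ‖x‖ 0 with hx | hx
    · simp [hx]
    · field_simp
      ring
  have h3 : N2 (fun x => φ x / ‖x‖) ≤
      N2 (fun x => 4 * (φ ((2 : ℝ) ^ 2 • x) / ‖(2 : ℝ) ^ 2 • x‖)) + N2 (fun x => - dq 4 φ x) := by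
    conv_lhs => rw [e1]
    exact N2_add (hm.const_mul 4) (memLp_dq h (by norm_num)).neg
  have h4 : N2 (fun x => 4 * (φ ((2 : ℝ) ^ 2 • x) / ‖(2 : ℝ) ^ 2 • x‖)) =
      4 * N2 (fun x => (φ ((2 : ℝ) ^ 2 • x) / ‖(2 : ℝ) ^ 2 • x‖)) := by
    unfold N2
    rw [show (fun x => 4 * (φ ((2 : ℝ) ^ 2 • x) / ‖(2 : ℝ) ^ 2 • x‖)) =
      (4 : ℝ) • (fun x => (φ ((2 : ℝ) ^ 2 • x) / ‖(2 : ℝ) ^ 2 • x‖)) from rfl,
      eLpNorm_const_smul, ENNReal.toReal_mul]
    congr 1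
    simp
  rw [N2_neg, h4, h2] at h3
  norm_num at h3
  linarith [N2_nonneg (fun x => φ x / ‖x‖)]

/-- lower bound for smooth functions, the Pohozaev computation for the Hardy-Sobolev term -/
lemma smooth_lower {φ : E → ℝ} (h : Tst φ) : ∃ C : ℝ, ∀ l : ℝ, 1 < l →
    (1 / 4) * ((l ^ 2)⁻¹ - 1) * (∫ x, φ x ^ 4 / ‖x‖) - C * (l - 1) ^ 2 ≤
      ∫ x, φ x ^ 3 * dq l φ x := by
  obtain ⟨M, hM⟩ := h.comp.exists_bound_of_continuous h.smooth.continuous
  simp only [Real.norm_eq_abs] at hM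
  have hM0 : 0 ≤ M := (abs_nonneg _).trans (hM 0)
  obtain ⟨R', hR'⟩ := h.comp.isCompact.isBounded.subset_closedBall 0
  set R := max R' 0 with hRdef
  have hR0 : 0 ≤ R := le_max_right _ _
  have hR : ∀ x : E, R < ‖x‖ → φ x = 0 := by
    intro x hx
    by_contra hne
    have := hR' (subset_tsupport _ hne)
    rw [Metric.mem_closedBall, dist_zero_right] at this
    linarith [le_max_left R' 0]
  obtain ⟨r, hr, h0⟩ := near_zero' h
  have hc := h.smooth.continuous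
  have h4c : Continuous fun x : E => φ x ^ 4 / ‖x‖ :=
    div_norm_cont (hc.pow 4) hr fun x hx => by simp [h0 x hx]
  have h4s : HasCompactSupport fun x : E => φ x ^ 4 / ‖x‖ := by
    refine supp_div (h.comp.mono ?_)
    intro x hx
    rw [Function.mem_support] at *
    intro h3
    apply hx
    rw [h3]
    norm_num
  have h4i : Integrable (fun x : E => φ x ^ 4 / ‖x‖) volume :=
    h4c.integrable_of_hasCompactSupport h4s
  refine ⟨(9 / 2) * M ^ 2 * R * N2 (fderiv ℝ φ) ^ 2, fun l hl => ?_⟩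
  have hl0 : 0 < l := by linarith
  have hdq := memLp_dq h hl.le
  have hdqi : Integrable (fun x => dq l φ x ^ 2) volume := hdq.integrable_sq
  have hφ3 : MemLp (fun x => φ x ^ 3) 2 (volume : Measure E) := by
    refine Continuous.memLp_of_hasCompactSupport (f := fun x => φ x ^ 3) (hc.pow 3) (h.comp.mono ?_)
    intro x hx
    rw [Function.mem_support] at *
    intro h3
    apply hx
    simp only [h3]
    norm_num
  have hi3 : Integrable (fun x => φ x ^ 3 * dq l φ x) volume := hφ3.integrable_mul hdq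
  have hdil : Integrable (fun x : E => φ (l • x) ^ 4 / ‖l • x‖) volume := by
    have := memLp_dil (memLp_one_iff_integrable.mpr h4i) hl0
    exact memLp_one_iff_integrable.mp this
  have hscale : ∫ x : E, φ (l • x) ^ 4 / ‖l • x‖ = (l ^ 3)⁻¹ * ∫ x, φ x ^ 4 / ‖x‖ :=
    integral_dil (fun x => φ x ^ 4 / ‖x‖) hl0
  have hpt : ∀ x : E, (1 / 4) * (l * (φ (l • x) ^ 4 / ‖l • x‖) - φ x ^ 4 / ‖x‖) -
      (9 / 2) * M ^ 2 * R * dq l φ x ^ 2 ≤ φ x ^ 3 * dq l φ x := by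
    intro x
    rcases eq_or_ne x 0 with rfl | hx
    · simp [dq]
    have hxn : 0 < ‖x‖ := norm_pos_iff.mpr hx
    rcases lt_or_ge R ‖x‖ with hxR | hxR
    · have e1 : φ x = 0 := hR x hxR
      have e2 : φ (l • x) = 0 := hR _ (by
        rw [norm_smul, Real.norm_eq_abs, abs_of_pos hl0]
        nlinarith)
      simp [dq, e1, e2]
    · rw [norm_smul, Real.norm_eq_abs, abs_of_pos hl0]
      set a := φ x with ha
      set b := φ (l • x) with hb
      have hda : |a| ≤ M := hM x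
      have hdb : |b| ≤ M := hM _
      have ha2 : a ^ 2 ≤ M ^ 2 := by rw [← sq_abs]; gcongr
      have hb2 : b ^ 2 ≤ M ^ 2 := by rw [← sq_abs]; gcongr
      have hkey : (3 / 2) * a ^ 2 * (b - a) ^ 2 + a * (b - a) ^ 3 + (b - a) ^ 4 / 4 ≤
          (9 / 2) * M ^ 2 * (b - a) ^ 2 := by
        have e : (3 / 2) * a ^ 2 * (b - a) ^ 2 + a * (b - a) ^ 3 + (b - a) ^ 4 / 4 =
          ((3 / 4) * a ^ 2 + (1 / 2) * a * b + (1 / 4) * b ^ 2) * (b - a) ^ 2 := by ring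
        rw [e]
        apply mul_le_mul_of_nonneg_right _ (by positivity)
        nlinarith [sq_nonneg (a - b)]
      have hkey2 : (1 / 4) * (b ^ 4 - a ^ 4) - (9 / 2) * M ^ 2 * (b - a) ^ 2 ≤ a ^ 3 * (b - a) := by
        have e : a ^ 3 * (b - a) = (1 / 4) * (b ^ 4 - a ^ 4) -
          ((3 / 2) * a ^ 2 * (b - a) ^ 2 + a * (b - a) ^ 3 + (b - a) ^ 4 / 4) := by ring
        rw [e]
        linarith
      have e3 : dq l φ x = (b - a) / ‖x‖ := rfl
      rw [e3]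
      have h5 : (1 / 4) * (l * (b ^ 4 / (l * ‖x‖)) - a ^ 4 / ‖x‖) = ((1 / 4) * (b ^ 4 - a ^ 4)) / ‖x‖ := by
        field_simp
      have h6 : a ^ 3 * ((b - a) / ‖x‖) = (a ^ 3 * (b - a)) / ‖x‖ := by ring
      rw [h5, h6]
      have h7 : ((9 / 2) * M ^ 2 * (b - a) ^ 2) / ‖x‖ ≤ (9 / 2) * M ^ 2 * R * ((b - a) / ‖x‖) ^ 2 := by
        have e4 : ((9 / 2) * M ^ 2 * (b - a) ^ 2) / ‖x‖ = (9 / 2) * M ^ 2 * ‖x‖ * ((b - a) / ‖x‖) ^ 2 := by
          field_simp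
        rw [e4]
        gcongr
      have h8 := div_le_div_of_nonneg_right hkey2 hxn.le
      rw [sub_div] at h8
      linarith
  have hI1 : Integrable (fun x : E => l * (φ (l • x) ^ 4 / ‖l • x‖) - φ x ^ 4 / ‖x‖) volume :=
    (hdil.const_mul l).sub h4i
  have hI2 : Integrable (fun x : E => (1 / 4) * (l * (φ (l • x) ^ 4 / ‖l • x‖) - φ x ^ 4 / ‖x‖))
      volume := hI1.const_mul _
  have hI3 : Integrable (fun x : E => (9 / 2) * M ^ 2 * R * dq l φ x ^ 2) volume :=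
    hdqi.const_mul _
  have hfin : ∫ x : E, ((1 / 4) * (l * (φ (l • x) ^ 4 / ‖l • x‖) - φ x ^ 4 / ‖x‖) -
      (9 / 2) * M ^ 2 * R * dq l φ x ^ 2) ≤ ∫ x, φ x ^ 3 * dq l φ x :=
    integral_mono (hI2.sub hI3) hi3 hpt
  rw [integral_sub hI2 hI3,
    integral_const_mul, integral_sub (hdil.const_mul l) h4i, integral_const_mul, integral_const_mul,
    hscale] at hfin
  have h9 : ∫ x, dq l φ x ^ 2 ≤ ((l - 1) * N2 (fderiv ℝ φ)) ^ 2 := by
    have := N2_sq hdq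
    simp only [Real.norm_eq_abs, sq_abs] at this
    rw [← this]
    have h10 := dq_le h hl
    have h11 := N2_nonneg (dq l φ)
    gcongr
  have h12 : (9 / 2) * M ^ 2 * R * ∫ x, dq l φ x ^ 2 ≤
      (9 / 2) * M ^ 2 * R * ((l - 1) * N2 (fderiv ℝ φ)) ^ 2 := by gcongr
  have h13 : 1 / 4 * (l * ((l ^ 3)⁻¹ * ∫ x, φ x ^ 4 / ‖x‖) - ∫ x, φ x ^ 4 / ‖x‖) =
      (1 / 4) * ((l ^ 2)⁻¹ - 1) * ∫ x, φ x ^ 4 / ‖x‖ := by
    field_simp
  rw [h13] at hfin
  have h14 : (9 / 2) * M ^ 2 * R * ((l - 1) * N2 (fderiv ℝ φ)) ^ 2 =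
      (9 / 2) * M ^ 2 * R * N2 (fderiv ℝ φ) ^ 2 * (l - 1) ^ 2 := by ring
  linarith

end Pool.Agent.H6R3.HS
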