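import Mathlib
import Pool.Agent.H6R3.HS3

set_option autoImplicit false
open MeasureTheory Filter Topology ENNReal

namespace Pool.Agent.H6R3.HS

instance t663 : ENNReal.HolderTriple 6 6 3 := ⟨by
  rw [← ENNReal.toReal_eq_toReal_iff' (by simp) (by simp), ENNReal.toReal_add (by simp) (by simp)]
  norm_num⟩

instance t632 : ENNReal.HolderTriple 6 3 2 := ⟨by
  rw [← ENNReal.toReal_eq_toReal_iff' (by simp) (by simp), ENNReal.toReal_add (by simp) (by simp)]
  norm_num⟩

/-- real valued `L^p` norm -/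
noncomputable def Np (p : ℝ≥0∞) (f : E → ℝ) : ℝ := (eLpNorm f p volume).toReal

lemma Np_nonneg (p : ℝ≥0∞) (f : E → ℝ) : 0 ≤ Np p f := ENNReal.toReal_nonneg

lemma Np_add {p : ℝ≥0∞} (hp : 1 ≤ p) {f g : E → ℝ} (hf : MemLp f p volume) (hg : MemLp g p volume) :
    Np p (fun x => f x + g x) ≤ Np p f + Np p g := by
  unfold Np
  rw [← ENNReal.toReal_add hf.2.ne hg.2.ne]
  exact ENNReal.toReal_mono (ENNReal.add_ne_top.mpr ⟨hf.2.ne, hg.2.ne⟩)
    (eLpNorm_add_le hf.1 hg.1 hp)

lemma Np_mul {p q r : ℝ≥0∞} [ENNReal.HolderTriple p q r] {f g : E → ℝ} (hf : MemLp f p volume)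
    (hg : MemLp g q volume) : MemLp (fun x => f x * g x) r volume ∧
      Np r (fun x => f x * g x) ≤ Np p f * Np q g := by
  have h : eLpNorm (f • g) r volume ≤ eLpNorm f p volume * eLpNorm g q volume :=
    eLpNorm_smul_le_mul_eLpNorm (p := p) (q := q) (r := r) hg.1 hf.1
  refine ⟨MemLp.mul (p := p) (q := q) (r := r) hg hf, ?_⟩
  unfold Np
  rw [← ENNReal.toReal_mul]
  exact ENNReal.toReal_mono (ENNReal.mul_ne_top hf.2.ne hg.2.ne) h

lemma mul3 {f g k : E → ℝ} (hf : MemLp f 6 volume) (hg : MemLp g 6 volume)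
    (hk : MemLp k 6 volume) : MemLp (fun x => f x * (g x * k x)) 2 volume ∧
      N2 (fun x => f x * (g x * k x)) ≤ Np 6 f * (Np 6 g * Np 6 k) := by
  obtain ⟨h1, h2⟩ := Np_mul (r := 3) hg hk
  obtain ⟨h3, h4⟩ := Np_mul (r := 2) hf h1
  exact ⟨h3, h4.trans (mul_le_mul_of_nonneg_left h2 (Np_nonneg _ _))⟩

/-- the product of `f ∈ L² ∩ L⁶` and `g ∈ L⁶` -/
lemma mul2 {f g : E → ℝ} (hf2 : MemLp f 2 volume) (hf : MemLp f 6 volume)
    (hg : MemLp g 6 volume) : MemLp (fun x => f x * g x) 2 volume ∧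
      N2 (fun x => f x * g x) ^ 2 ≤ N2 f * (Np 6 f * (Np 6 g * Np 6 g)) := by
  obtain ⟨h1, h2⟩ := mul3 hf hg hg
  have h3 : Integrable (fun x => f x * (f x * (g x * g x))) volume := hf2.integrable_mul h1
  have h4 : MemLp (fun x => f x * g x) 2 volume := by
    refine (memLp_two_iff_integrable_sq (f := fun x => f x * g x) (hf.1.mul hg.1)).mpr ?_
    refine h3.congr (Eventually.of_forall fun x => ?_)
    simp only
    ring
  refine ⟨h4, ?_⟩
  rw [N2_sq h4]
  have h5 : ∫ x, ‖f x * g x‖ ^ 2 = ∫ x, f x * (f x * (g x * g x)) := by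
    congr 1
    funext x
    rw [Real.norm_eq_abs, sq_abs]
    ring
  rw [h5]
  refine (le_abs_self _).trans ((CS_mul hf2 h1).trans ?_)
  exact mul_le_mul_of_nonneg_left h2 (N2_nonneg _)

lemma Tst.memLp {φ : E → ℝ} (h : Tst φ) (p : ℝ≥0∞) : MemLp φ p (volume : Measure E) :=
  h.smooth.continuous.memLp_of_hasCompactSupport h.comp

lemma Tst.sub {φ ψ : E → ℝ} (h : Tst φ) (h' : Tst ψ) : Tst (fun x => φ x - ψ x) := by
  refine ⟨h.smooth.sub h'.smooth, h.comp.sub h'.comp, ?_⟩
  intro h0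
  have h1 : tsupport (fun x => φ x - ψ x) ⊆ tsupport φ ∪ tsupport ψ := by
    refine closure_minimal ?_ ((isClosed_tsupport φ).union (isClosed_tsupport ψ))
    intro x hx
    by_contra hn
    rw [Set.mem_union, not_or] at hn
    apply hx
    simp [image_eq_zero_of_notMem_tsupport hn.1, image_eq_zero_of_notMem_tsupport hn.2]
  rcases h1 h0 with h2 | h2
  · exact h.zero h2
  · exact h'.zero h2

lemma norm_gradient (φ : E → ℝ) (x : E) : ‖gradient φ x‖ = ‖fderiv ℝ φ x‖ := by
  unfold gradient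
  exact LinearIsometryEquiv.norm_map _ _

lemma gradient_sub' {φ ψ : E → ℝ} (h : Tst φ) (h' : Tst ψ) (x : E) :
    gradient (fun x => φ x - ψ x) x = gradient φ x - gradient ψ x := by
  unfold gradient
  rw [fderiv_fun_sub (h.smooth.differentiable (by simp) x) (h'.smooth.differentiable (by simp) x),
    map_sub]

lemma cont_gradient {φ : E → ℝ} (h : Tst φ) : Continuous (gradient φ) := by
  unfold gradient
  exact (LinearIsometryEquiv.continuous _).comp (h.smooth.continuous_fderiv (by simp))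

lemma memLp_gradient {φ : E → ℝ} (h : Tst φ) : MemLp (gradient φ) 2 (volume : Measure E) := by
  refine (memLp_fderiv h.smooth h.comp).of_le (cont_gradient h).aestronglyMeasurable
    (Eventually.of_forall fun x => (norm_gradient φ x).le)

lemma N2_gradient (φ : E → ℝ) : N2 (gradient φ) = N2 (fderiv ℝ φ) := by
  unfold N2
  congr 1
  exact eLpNorm_congr_norm_ae (Eventually.of_forall fun x => norm_gradient φ x)

/-- the Sobolev inequality -/
lemma sobolev : ∃ S : NNReal, ∀ φ : E → ℝ, Tst φ →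
    eLpNorm φ 6 volume ≤ S * eLpNorm (gradient φ) 2 volume := by
  refine ⟨SNormLESNormFDerivOfEqConst ℝ (volume : Measure E) ((2 : NNReal) : ℝ), fun φ h => ?_⟩
  have hfr : Module.finrank ℝ E = 3 := by simp [E]
  have h3 := eLpNorm_le_eLpNorm_fderiv_of_eq (volume : Measure E) (u := φ)
      (h.smooth.of_le (by norm_cast)) h.comp (p := 2) (p' := 6) (by norm_num) (by rw [hfr]; norm_num)
      (by rw [hfr]; norm_num)
  have h4 : eLpNorm (gradient φ) 2 (volume : Measure E) = eLpNorm (fderiv ℝ φ) 2 volume :=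
    eLpNorm_congr_norm_ae (Eventually.of_forall fun x => norm_gradient φ x)
  rw [h4]
  exact h3

/-- the data of a weak solution -/
structure Sq (φ : ℕ → E → ℝ) (u : E → ℝ) (G : E → E) : Prop where
  tst : ∀ n, Tst (φ n)
  hu : MemLp u 2 volume
  hG : MemLp G 2 volume
  conv : Tendsto (fun n => eLpNorm (fun x => φ n x - u x) 2 volume) atTop (𝓝 0)
  convG : Tendsto (fun n => eLpNorm (fun x => gradient (φ n) x - G x) 2 volume) atTop (𝓝 0)
  ae : ∀ᵐ x ∂(volume : Measure E), Tendsto (fun n => φ n x) atTop (𝓝 (u x))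

variable {φ : ℕ → E → ℝ} {u : E → ℝ} {G : E → E}

lemma Sq.six (h : Sq φ u G) : ∃ S : NNReal, ∀ m,
    eLpNorm (fun x => u x - φ m x) 6 volume ≤
      S * eLpNorm (fun x => gradient (φ m) x - G x) 2 volume := by
  obtain ⟨S, hS⟩ := sobolev
  refine ⟨S, fun m => ?_⟩
  have h1 := Lp.eLpNorm_lim_le_liminf_eLpNorm (p := 6) (μ := (volume : Measure E))
    (f := fun n x => φ n x - φ m x)
    (fun n => ((h.tst n).smooth.continuous.sub (h.tst m).smooth.continuous).aestronglyMeasurable)
    (fun x => u x - φ m x) (by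
      filter_upwards [h.ae] with x hx
      exact hx.sub_const _)
  refine h1.trans ?_
  have h2 : ∀ n, eLpNorm (fun x => φ n x - φ m x) 6 volume ≤
      S * (eLpNorm (fun x => gradient (φ n) x - G x) 2 volume +
        eLpNorm (fun x => gradient (φ m) x - G x) 2 volume) := by
    intro n
    refine (hS _ ((h.tst n).sub (h.tst m))).trans ?_
    gcongr
    have e : gradient (fun x => φ n x - φ m x) =
        (fun x => gradient (φ n) x - G x) - (fun x => gradient (φ m) x - G x) := by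
      funext x
      rw [gradient_sub' (h.tst n) (h.tst m)]
      simp
    rw [e]
    exact eLpNorm_sub_le ((memLp_gradient (h.tst n)).sub h.hG).1
      ((memLp_gradient (h.tst m)).sub h.hG).1 (by norm_num)
  have h3 : Tendsto (fun n => (S : ℝ≥0∞) * (eLpNorm (fun x => gradient (φ n) x - G x) 2 volume +
        eLpNorm (fun x => gradient (φ m) x - G x) 2 volume)) atTop
      (𝓝 (S * (0 + eLpNorm (fun x => gradient (φ m) x - G x) 2 volume))) :=
    ENNReal.Tendsto.const_mul (h.convG.add_const _) (Or.inr (by simp))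
  rw [zero_add] at h3
  rw [← h3.liminf_eq]
  exact liminf_le_liminf (Eventually.of_forall h2)

lemma Sq.memLp6_sub (h : Sq φ u G) (m : ℕ) : MemLp (fun x => u x - φ m x) 6 volume := by
  obtain ⟨S, hS⟩ := h.six
  refine ⟨(h.hu.1.sub (h.tst m).smooth.continuous.aestronglyMeasurable), ?_⟩
  refine (hS m).trans_lt ?_
  exact ENNReal.mul_lt_top (by simp) ((memLp_gradient (h.tst m)).sub h.hG).2

lemma Sq.memLp6 (h : Sq φ u G) : MemLp u 6 volume := by
  have h1 := (h.memLp6_sub 0).add ((h.tst 0).memLp 6)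
  refine (memLp_congr_ae (Eventually.of_forall fun x => ?_)).mp h1
  simp

lemma Sq.conv6 (h : Sq φ u G) : Tendsto (fun m => Np 6 (fun x => u x - φ m x)) atTop (𝓝 0) := by
  obtain ⟨S, hS⟩ := h.six
  have h1 : Tendsto (fun n => (S : ℝ≥0∞) * eLpNorm (fun x => gradient (φ n) x - G x) 2 volume) atTop
      (𝓝 (S * 0)) := ENNReal.Tendsto.const_mul h.convG (Or.inr (by simp))
  rw [mul_zero] at h1
  have h2 : Tendsto (fun m => eLpNorm (fun x => u x - φ m x) 6 volume) atTop (𝓝 0) :=
    tendsto_of_tendsto_of_tendsto_of_le_of_le tendsto_const_nhds h1 (fun _ => zero_le) hS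
  have h3 := (ENNReal.tendsto_toReal ENNReal.zero_ne_top).comp h2
  simp only [ENNReal.toReal_zero] at h3
  exact h3

lemma Sq.conv2 (h : Sq φ u G) : Tendsto (fun m => N2 (fun x => u x - φ m x)) atTop (𝓝 0) := by
  have h3 := (ENNReal.tendsto_toReal ENNReal.zero_ne_top).comp h.conv
  simp only [ENNReal.toReal_zero] at h3
  refine h3.congr fun m => ?_
  exact N2_sub_comm (φ m) u

lemma Sq.convGr (h : Sq φ u G) :
    Tendsto (fun m => N2 (fun x => gradient (φ m) x - G x)) atTop (𝓝 0) := by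
  have h3 := (ENNReal.tendsto_toReal ENNReal.zero_ne_top).comp h.convG
  simp only [ENNReal.toReal_zero] at h3
  exact h3

end Pool.Agent.H6R3.HS
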