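import Mathlib
import Pool.Agent.H6R3.HS4

set_option autoImplicit false
open MeasureTheory Filter Topology ENNReal

namespace Pool.Agent.H6R3.HS

lemma N2_smul {F : Type} [NormedAddCommGroup F] [NormedSpace ℝ F] (c : ℝ) (f : E → F) :
    N2 (fun x => c • f x) = |c| * N2 f := by
  unfold N2
  rw [show (fun x => c • f x) = c • f from rfl, eLpNorm_const_smul, ENNReal.toReal_mul]
  simp

lemma Tst.dil {φ : E → ℝ} (h : Tst φ) {l : ℝ} (hl : 1 ≤ l) : Tst (fun x => φ (l • x)) := by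
  refine ⟨h.smooth.comp (contDiff_const_smul l), comp_dil h.comp (by linarith), ?_⟩
  obtain ⟨r, hr, h0⟩ := near_zero h hl
  rw [notMem_tsupport_iff_eventuallyEq]
  filter_upwards [Metric.ball_mem_nhds (0 : E) hr] with x hx
  exact (h0 x (by simpa using hx)).1

lemma fderiv_dil {φ : E → ℝ} (h : Tst φ) (l : ℝ) (x : E) :
    fderiv ℝ (fun x => φ (l • x)) x = l • fderiv ℝ φ (l • x) := by
  have h1 : HasFDerivAt φ (fderiv ℝ φ (l • x)) (l • x) :=
    (h.smooth.differentiable (by simp) (l • x)).hasFDerivAt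
  have h2 : HasFDerivAt (fun x : E => l • x) (l • ContinuousLinearMap.id ℝ E) x :=
    (hasFDerivAt_id x).const_smul l
  have h3 := (h1.comp x h2).fderiv
  have h4 : fderiv ℝ (fun x => φ (l • x)) x = (fderiv ℝ φ (l • x)).comp
      (l • ContinuousLinearMap.id ℝ E) := h3
  rw [h4]
  ext v
  simp

lemma N2_grad_dil {φ : E → ℝ} (h : Tst φ) {μ : ℝ} (hμ : 0 < μ) :
    N2 (gradient (fun x => φ (μ ^ 2 • x))) = μ⁻¹ * N2 (gradient φ) := by
  rw [N2_gradient, N2_gradient]
  have e : fderiv ℝ (fun x => φ (μ ^ 2 • x)) = fun x => μ ^ 2 • (fderiv ℝ φ (μ ^ 2 • x)) := by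
    funext x
    exact fderiv_dil h _ x
  rw [e, N2_smul, N2_dil (memLp_fderiv h.smooth h.comp) hμ, abs_of_pos (by positivity)]
  field_simp

lemma Np_neg (p : ℝ≥0∞) (f : E → ℝ) : Np p (fun x => - f x) = Np p f := by
  unfold Np
  rw [show (fun x => - f x) = -f from rfl, eLpNorm_neg]

variable {φ : ℕ → E → ℝ} {u : E → ℝ} {G : E → E}

lemma Sq.bd6 (h : Sq φ u G) (m : ℕ) : Np 6 (φ m) ≤ Np 6 u + Np 6 (fun x => u x - φ m x) := by
  have h1 := Np_add (by norm_num) h.memLp6 (h.memLp6_sub m).neg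
  have e : (fun x => u x + (- fun x => u x - φ m x) x) = φ m := by
    funext x
    simp
  rw [e] at h1
  refine h1.trans ?_
  rw [show (- fun x => u x - φ m x) = fun x => - (u x - φ m x) from rfl, Np_neg]

lemma cube_of {f : E → ℝ} (h : MemLp f 6 volume) : MemLp (fun x => f x ^ 3) 2 volume := by
  have := (mul3 h h h).1
  refine (memLp_congr_ae (Eventually.of_forall fun x => ?_)).mp this
  ring

lemma sq_of {f : E → ℝ} (h2 : MemLp f 2 volume) (h : MemLp f 6 volume) :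
    MemLp (fun x => f x ^ 2) 2 volume := by
  have := (mul2 h2 h h).1
  refine (memLp_congr_ae (Eventually.of_forall fun x => ?_)).mp this
  ring

lemma N2_add3 {f g k : E → ℝ} (hf : MemLp f 2 volume) (hg : MemLp g 2 volume)
    (hk : MemLp k 2 volume) : N2 (fun x => f x + (g x + k x)) ≤ N2 f + (N2 g + N2 k) := by
  have h1 : N2 (fun x => g x + k x) ≤ N2 g + N2 k := N2_add hg hk
  have h2 : N2 (fun x => f x + (g x + k x)) ≤ N2 f + N2 (fun x => g x + k x) :=
    N2_add hf (hg.add hk)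
  linarith

lemma Sq.cube_sub (h : Sq φ u G) (m : ℕ) : N2 (fun x => u x ^ 3 - φ m x ^ 3) ≤
    Np 6 (fun x => u x - φ m x) * (Np 6 u * Np 6 u) + (Np 6 (fun x => u x - φ m x) *
      (Np 6 u * Np 6 (φ m)) + Np 6 (fun x => u x - φ m x) * (Np 6 (φ m) * Np 6 (φ m))) := by
  obtain ⟨a1, a2⟩ := mul3 (h.memLp6_sub m) h.memLp6 h.memLp6
  obtain ⟨b1, b2⟩ := mul3 (h.memLp6_sub m) h.memLp6 ((h.tst m).memLp 6)
  obtain ⟨c1, c2⟩ := mul3 (h.memLp6_sub m) ((h.tst m).memLp 6) ((h.tst m).memLp 6)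
  have h1 := N2_add3 a1 b1 c1
  have e : (fun x => (u x - φ m x) * (u x * u x) + ((u x - φ m x) * (u x * φ m x) +
      (u x - φ m x) * (φ m x * φ m x))) = fun x => u x ^ 3 - φ m x ^ 3 := by
    funext x
    ring
  rw [e] at h1
  linarith

lemma Sq.conv_cube (h : Sq φ u G) :
    Tendsto (fun m => N2 (fun x => u x ^ 3 - φ m x ^ 3)) atTop (𝓝 0) := by
  set K := Np 6 u with hK
  have hK0 : 0 ≤ K := Np_nonneg _ _
  have h1 : ∀ m, N2 (fun x => u x ^ 3 - φ m x ^ 3) ≤
      Np 6 (fun x => u x - φ m x) * (3 * (K + Np 6 (fun x => u x - φ m x)) ^ 2) := by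
    intro m
    refine (h.cube_sub m).trans ?_
    have h2 := h.bd6 m
    have h3 := Np_nonneg 6 (φ m)
    have h4 := Np_nonneg 6 (fun x => u x - φ m x)
    rw [← hK] at *
    set ε := Np 6 (fun x => u x - φ m x)
    set q := Np 6 (φ m)
    have h5 : K * K ≤ (K + ε) ^ 2 := by nlinarith
    have h6 : K * q ≤ (K + ε) ^ 2 := by nlinarith
    have h7 : q * q ≤ (K + ε) ^ 2 := by nlinarith
    nlinarith
  have h2 : Tendsto (fun m => Np 6 (fun x => u x - φ m x) *
      (3 * (K + Np 6 (fun x => u x - φ m x)) ^ 2)) atTop (𝓝 (0 * (3 * (K + 0) ^ 2))) :=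
    h.conv6.mul (((h.conv6.const_add K).pow 2).const_mul 3)
  rw [zero_mul] at h2
  exact squeeze_zero (fun m => N2_nonneg _) h1 h2

/-- if `v m → 0` in `L²` and in `L⁶` and `g m` is bounded in `L⁶` then `v m * g m → 0` in `L²` -/
lemma conv_mul2 {v g : ℕ → E → ℝ} (hv2 : ∀ m, MemLp (v m) 2 volume)
    (hv : ∀ m, MemLp (v m) 6 volume) (hg : ∀ m, MemLp (g m) 6 volume) {K : ℝ}
    (hK : ∀ m, Np 6 (g m) ≤ K) (h2 : Tendsto (fun m => N2 (v m)) atTop (𝓝 0))
    (h6 : Tendsto (fun m => Np 6 (v m)) atTop (𝓝 0)) :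
    Tendsto (fun m => N2 (fun x => v m x * g m x)) atTop (𝓝 0) := by
  have h1 : Tendsto (fun m => N2 (fun x => v m x * g m x) ^ 2) atTop (𝓝 0) := by
    have h3 : Tendsto (fun m => N2 (v m) * (Np 6 (v m) * (K * K))) atTop
      (𝓝 (0 * (0 * (K * K)))) := h2.mul (h6.mul_const _)
    rw [zero_mul] at h3
    refine squeeze_zero (fun m => by positivity) (fun m => ?_) h3
    refine (mul2 (hv2 m) (hv m) (hg m)).2.trans ?_
    have h4 := Np_nonneg 6 (g m)
    have h5 := Np_nonneg 6 (v m)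
    have h7 := N2_nonneg (v m)
    have h8 := hK m
    have h9 : 0 ≤ K := h4.trans h8
    gcongr
  have h9 := (Real.continuous_sqrt.tendsto 0).comp h1
  rw [Real.sqrt_zero] at h9
  refine h9.congr fun m => ?_
  simp only [Function.comp_apply]
  exact Real.sqrt_sq (N2_nonneg _)

lemma Sq.memLp2_sub (h : Sq φ u G) (m : ℕ) : MemLp (fun x => u x - φ m x) 2 volume :=
  h.hu.sub ((h.tst m).memLp 2)

lemma Sq.conv_mulu (h : Sq φ u G) :
    Tendsto (fun m => N2 (fun x => (u x - φ m x) * u x)) atTop (𝓝 0) :=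
  conv_mul2 h.memLp2_sub h.memLp6_sub (fun _ => h.memLp6) (fun _ => le_rfl) h.conv2 h.conv6

lemma Sq.conv_sq (h : Sq φ u G) :
    Tendsto (fun m => N2 (fun x => (u x - φ m x) * (u x + φ m x))) atTop (𝓝 0) := by
  obtain ⟨K, hK⟩ := h.conv6.bddAbove_range
  refine conv_mul2 (g := fun m x => u x + φ m x) (K := Np 6 u + (Np 6 u + K)) h.memLp2_sub
    h.memLp6_sub (fun m => h.memLp6.add ((h.tst m).memLp 6)) (fun m => ?_) h.conv2 h.conv6
  refine (Np_add (by norm_num) h.memLp6 ((h.tst m).memLp 6)).trans ?_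
  have h1 := h.bd6 m
  have h2 : Np 6 (fun x => u x - φ m x) ≤ K := hK ⟨m, rfl⟩
  linarith

/-- the quantities -/
noncomputable def A (f : E → ℝ) : ℝ := ∫ x, f x ^ 4 / ‖x‖
noncomputable def B (f : E → ℝ) : ℝ := ∫ x, f x ^ 3 * f x ^ 2
noncomputable def P (f : E → ℝ) : ℝ := ∫ x, |f x| ^ 3 * f x ^ 2
noncomputable def J (u f : E → ℝ) : ℝ := ∫ x, u x ^ 3 * (f x * u x)
noncomputable def D (G : E → E) (f : E → ℝ) : ℝ := ∫ x, inner ℝ (G x) (gradient f x)
noncomputable def H (u f : E → ℝ) : ℝ := ∫ x, u x ^ 3 * (f x / ‖x‖)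

lemma Sq.D_lim (h : Sq φ u G) : Tendsto (fun n => D G (φ n)) atTop (𝓝 (N2 G ^ 2)) := by
  have h1 : ∀ n, |D G (φ n) - N2 G ^ 2| ≤ N2 G * N2 (fun x => gradient (φ n) x - G x) := by
    intro n
    have h2 := CS_inner h.hG ((memLp_gradient (h.tst n)).sub h.hG)
    refine le_trans (le_of_eq ?_) h2
    congr 1
    rw [N2_sq h.hG]
    unfold D
    have i1 := int_inner h.hG (memLp_gradient (h.tst n))
    have i2 := int_inner h.hG h.hG
    have e2 : ∀ x, ‖G x‖ ^ 2 = inner ℝ (G x) (G x) := fun x => (real_inner_self_eq_norm_sq _).symm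
    simp only [e2]
    rw [← integral_sub i1 i2]
    congr 1
    funext x
    rw [← inner_sub_right]
    rfl
  have h3 : Tendsto (fun n => N2 G * N2 (fun x => gradient (φ n) x - G x)) atTop (𝓝 (N2 G * 0)) :=
    h.convGr.const_mul _
  rw [mul_zero] at h3
  rw [tendsto_iff_dist_tendsto_zero]
  exact squeeze_zero (fun n => dist_nonneg) (fun n => by rw [Real.dist_eq]; exact h1 n) h3

lemma Sq.grad_lim (h : Sq φ u G) : Tendsto (fun n => N2 (gradient (φ n))) atTop (𝓝 (N2 G)) := by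
  have h1 : ∀ n, |N2 (gradient (φ n)) - N2 G| ≤ N2 (fun x => gradient (φ n) x - G x) := by
    intro n
    have m1 := memLp_gradient (h.tst n)
    have a1 := N2_add h.hG (m1.sub h.hG)
    have e1 : (fun x => G x + (gradient (φ n) - G) x) = gradient (φ n) := by
      funext x
      simp
    rw [e1] at a1
    have a2 := N2_add m1 (h.hG.sub m1)
    have e2 : (fun x => gradient (φ n) x + (G - gradient (φ n)) x) = G := by
      funext x
      simp
    rw [e2] at a2
    have e3 : N2 (gradient (φ n) - G) = N2 (fun x => gradient (φ n) x - G x) := rfl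
    have e4 : N2 (G - gradient (φ n)) = N2 (fun x => gradient (φ n) x - G x) :=
      N2_sub_comm G (gradient (φ n))
    rw [abs_le]
    constructor <;> linarith
  rw [tendsto_iff_dist_tendsto_zero]
  exact squeeze_zero (fun n => dist_nonneg) (fun n => by rw [Real.dist_eq]; exact h1 n) h.convGr

lemma Sq.J_lim (h : Sq φ u G) : Tendsto (fun n => J u (φ n)) atTop (𝓝 (B u)) := by
  have c3 := cube_of h.memLp6
  have h1 : ∀ n, |J u (φ n) - B u| ≤
      N2 (fun x => u x ^ 3) * N2 (fun x => (u x - φ n x) * u x) := by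
    intro n
    have m1 := (mul2 (h.memLp2_sub n) (h.memLp6_sub n) h.memLp6).1
    have m2 := (mul2 ((h.tst n).memLp 2) ((h.tst n).memLp 6) h.memLp6).1
    have m3 := sq_of h.hu h.memLp6
    have h2 := CS_mul c3 m1
    rw [← abs_neg] at h2
    refine le_trans (le_of_eq ?_) h2
    congr 1
    unfold J B
    rw [← integral_sub (int_mul c3 m2) (int_mul c3 m3), ← integral_neg]
    congr 1
    funext x
    ring
  have h3 : Tendsto (fun n => N2 (fun x => u x ^ 3) * N2 (fun x => (u x - φ n x) * u x)) atTop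
      (𝓝 (N2 (fun x => u x ^ 3) * 0)) := h.conv_mulu.const_mul _
  rw [mul_zero] at h3
  rw [tendsto_iff_dist_tendsto_zero]
  exact squeeze_zero (fun n => dist_nonneg) (fun n => by rw [Real.dist_eq]; exact h1 n) h3

lemma abs_cube_sub (a b : ℝ) : |(|a| ^ 3 - |b| ^ 3)| ≤ |a ^ 3 - b ^ 3| := by
  rw [← abs_pow, ← abs_pow]
  exact abs_abs_sub_abs_le _ _

lemma N2_mono {f g : E → ℝ} (hg : MemLp g 2 volume) (h : ∀ x, |f x| ≤ |g x|) : N2 f ≤ N2 g := by
  unfold N2
  refine ENNReal.toReal_mono hg.2.ne (eLpNorm_mono fun x => ?_)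
  simpa using h x

lemma abs_cube_mem {f : E → ℝ} (h : MemLp f 6 volume) : MemLp (fun x => |f x| ^ 3) 2 volume := by
  have h1 := (cube_of h).norm
  refine (memLp_congr_ae (Eventually.of_forall fun x => ?_)).mp h1
  simp

lemma Sq.P_lim (h : Sq φ u G) (hn : ∀ᵐ x ∂(volume : Measure E), 0 ≤ u x) :
    Tendsto (fun n => P (φ n)) atTop (𝓝 (B u)) := by
  have hB : B u = P u := by
    unfold B P
    refine integral_congr_ae ?_
    filter_upwards [hn] with x hx
    rw [abs_of_nonneg hx]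
  rw [hB]
  have c3 := abs_cube_mem h.memLp6
  have m3 := sq_of h.hu h.memLp6
  -- φ² → u² in L²
  have hsq : Tendsto (fun m => N2 (fun x => φ m x ^ 2 - u x ^ 2)) atTop (𝓝 0) := by
    refine h.conv_sq.congr fun m => ?_
    rw [N2_sub_comm]
    congr 1
    funext x
    ring
  have hcu : Tendsto (fun m => N2 (fun x => φ m x ^ 3 - u x ^ 3)) atTop (𝓝 0) := by
    refine h.conv_cube.congr fun m => ?_
    rw [N2_sub_comm]
  have h1 : ∀ n, |P (φ n) - P u| ≤ N2 (fun x => φ n x ^ 3 - u x ^ 3) *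
      (N2 (fun x => φ n x ^ 2 - u x ^ 2) + N2 (fun x => u x ^ 2)) +
      N2 (fun x => |u x| ^ 3) * N2 (fun x => φ n x ^ 2 - u x ^ 2) := by
    intro n
    have f3 := abs_cube_mem ((h.tst n).memLp 6)
    have f2 := sq_of ((h.tst n).memLp 2) ((h.tst n).memLp 6)
    have g3 : MemLp (fun x => |φ n x| ^ 3 - |u x| ^ 3) 2 volume := f3.sub c3
    have g2 : MemLp (fun x => φ n x ^ 2 - u x ^ 2) 2 volume := f2.sub m3
    have d3 : MemLp (fun x => φ n x ^ 3 - u x ^ 3) 2 volume :=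
      (cube_of ((h.tst n).memLp 6)).sub (cube_of h.memLp6)
    have i1 := int_mul f3 f2
    have i2 := int_mul c3 m3
    have i3 := int_mul g3 f2
    have i4 := int_mul c3 g2
    have e : P (φ n) - P u = (∫ x, (|φ n x| ^ 3 - |u x| ^ 3) * φ n x ^ 2) +
        ∫ x, |u x| ^ 3 * (φ n x ^ 2 - u x ^ 2) := by
      unfold P
      rw [← integral_sub i1 i2, ← integral_add i3 i4]
      congr 1
      funext x
      ring
    rw [e]
    refine (abs_add_le _ _).trans ?_
    have s1 := CS_mul g3 f2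
    have s2 := CS_mul c3 g2
    have s3 : N2 (fun x => |φ n x| ^ 3 - |u x| ^ 3) ≤ N2 (fun x => φ n x ^ 3 - u x ^ 3) :=
      N2_mono d3 fun x => abs_cube_sub _ _
    have s4 : N2 (fun x => φ n x ^ 2) ≤ N2 (fun x => φ n x ^ 2 - u x ^ 2) + N2 (fun x => u x ^ 2) := by
      have := N2_add g2 m3
      simpa using this
    have s5 : N2 (fun x => |φ n x| ^ 3 - |u x| ^ 3) * N2 (fun x => φ n x ^ 2) ≤
        N2 (fun x => φ n x ^ 3 - u x ^ 3) *
          (N2 (fun x => φ n x ^ 2 - u x ^ 2) + N2 (fun x => u x ^ 2)) := by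
      have q1 := N2_nonneg (fun x => φ n x ^ 3 - u x ^ 3)
      have q2 := N2_nonneg (fun x => φ n x ^ 2)
      exact mul_le_mul s3 s4 q2 q1
    linarith
  have h3 := (hcu.mul (hsq.add_const (N2 (fun x => u x ^ 2)))).add
    (hsq.const_mul (N2 (fun x => |u x| ^ 3)))
  rw [zero_mul, mul_zero, add_zero] at h3
  rw [tendsto_iff_dist_tendsto_zero]
  exact squeeze_zero (fun n => dist_nonneg) (fun n => by rw [Real.dist_eq]; exact h1 n) h3

end Pool.Agent.H6R3.HS
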