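import Mathlib
import Pool.Agent.H6R3.HS5

set_option autoImplicit false
open MeasureTheory Filter Topology ENNReal

namespace Pool.Agent.H6R3.HS

/-- the data of a nonnegative weak solution, tested with dilated approximations -/
structure Sol (φ : ℕ → E → ℝ) (u : E → ℝ) (G : E → E) : Prop where
  sq : Sq φ u G
  nn : ∀ᵐ x ∂(volume : Measure E), 0 ≤ u x
  W : ∀ n (l : ℝ), 1 ≤ l → D G (fun x => φ n (l • x)) + J u (fun x => φ n (l • x)) =
    H u (fun x => φ n (l • x))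

lemma young (a b : ℝ) (ha : 0 ≤ a) :
    a ^ 3 * (b * a) ≤ (4 / 5) * (a ^ 3 * a ^ 2) + (1 / 5) * (|b| ^ 3 * b ^ 2) := by
  have h1 : a ^ 3 * (b * a) ≤ a ^ 4 * |b| := by
    have : a ^ 3 * (b * a) = a ^ 4 * b := by ring
    rw [this]
    exact mul_le_mul_of_nonneg_left (le_abs_self b) (by positivity)
  have h2 : |b| ^ 3 * b ^ 2 = |b| ^ 5 := by
    rw [← sq_abs b]
    ring
  rw [h2]
  have hb := abs_nonneg b
  have h3 : 0 ≤ (a - |b|) ^ 2 * (4 * a ^ 3 + 3 * a ^ 2 * |b| + 2 * a * |b| ^ 2 + |b| ^ 3) := by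
    positivity
  nlinarith

lemma int_P {f : E → ℝ} (h2 : MemLp f 2 volume) (h : MemLp f 6 volume) :
    Integrable (fun x => |f x| ^ 3 * f x ^ 2) volume := int_mul (abs_cube_mem h) (sq_of h2 h)

lemma J_le {u f : E → ℝ} (h2 : MemLp u 2 volume) (h : MemLp u 6 volume)
    (hn : ∀ᵐ x ∂(volume : Measure E), 0 ≤ u x) (hf : Tst f) :
    J u f ≤ (4 / 5) * B u + (1 / 5) * P f := by
  have i1 : Integrable (fun x => u x ^ 3 * u x ^ 2) volume := int_mul (cube_of h) (sq_of h2 h)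
  have i2 := int_P (hf.memLp 2) (hf.memLp 6)
  have i3 : Integrable (fun x => u x ^ 3 * (f x * u x)) volume :=
    int_mul (cube_of h) (mul2 (hf.memLp 2) (hf.memLp 6) h).1
  unfold J B P
  rw [← integral_const_mul, ← integral_const_mul, ← integral_add (i1.const_mul _) (i2.const_mul _)]
  refine integral_mono_ae i3 ((i1.const_mul _).add (i2.const_mul _)) ?_
  filter_upwards [hn] with x hx
  exact young _ _ hx

lemma P_dil (f : E → ℝ) {μ : ℝ} (hμ : 0 < μ) : P (fun x => f (μ ^ 2 • x)) = (μ ^ 6)⁻¹ * P f := by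
  unfold P
  rw [integral_dil (fun x => |f x| ^ 3 * f x ^ 2) (l := μ ^ 2) (by positivity)]
  rw [← pow_mul]

lemma H_sub {u f : E → ℝ} (h : MemLp u 6 volume) (hf : Tst f) {l : ℝ} (hl : 1 ≤ l) :
    H u (fun x => f (l • x)) - H u f = ∫ x, u x ^ 3 * dq l f x := by
  unfold H
  have i1 := int_mul (cube_of h) (memLp_hardy (hf.dil hl))
  have i2 := int_mul (cube_of h) (memLp_hardy hf)
  rw [← integral_sub i1 i2]
  congr 1
  funext x
  unfold dq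
  ring

variable {φ : ℕ → E → ℝ} {u : E → ℝ} {G : E → E}

lemma Sol.upper (h : Sol φ u G) (n : ℕ) {μ : ℝ} (hμ : 1 < μ) :
    ∫ x, u x ^ 3 * dq (μ ^ 2) (φ n) x ≤ N2 G * (μ⁻¹ * N2 (gradient (φ n))) - D G (φ n) +
      (4 / 5) * B u + (1 / 5) * ((μ ^ 6)⁻¹ * P (φ n)) - J u (φ n) := by
  have hμ0 : 0 < μ := by linarith
  have hl : 1 ≤ μ ^ 2 := one_le_pow₀ hμ.le
  rw [← H_sub h.sq.memLp6 (h.sq.tst n) hl]
  have w1 := h.W n (μ ^ 2) hl
  have w2 := h.W n 1 le_rfl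
  simp only [one_smul] at w2
  have e : (fun x => φ n x) = φ n := rfl
  rw [e] at w2
  rw [← w1, ← w2]
  have ht := (h.sq.tst n).dil hl
  have h1 : D G (fun x => φ n (μ ^ 2 • x)) ≤ N2 G * (μ⁻¹ * N2 (gradient (φ n))) := by
    rw [← N2_grad_dil (h.sq.tst n) hμ0]
    exact (le_abs_self _).trans (CS_inner h.sq.hG (memLp_gradient ht))
  have h2 := J_le h.sq.hu h.sq.memLp6 h.nn ht
  rw [P_dil (φ n) hμ0] at h2
  linarith

lemma Sq.lower (h : Sq φ u G) (n m : ℕ) {l : ℝ} (hl : 1 < l) :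
    (∫ x, φ m x ^ 3 * dq l (φ m) x) - (l - 1) * (N2 (fun x => u x ^ 3 - φ m x ^ 3) *
      N2 (gradient (φ m)) + N2 (fun x => u x ^ 3) * (N2 (fun x => gradient (φ n) x - G x) +
        N2 (fun x => gradient (φ m) x - G x))) ≤ ∫ x, u x ^ 3 * dq l (φ n) x := by
  have c3 := cube_of h.memLp6
  have f3 := cube_of ((h.tst m).memLp 6)
  have d3 : MemLp (fun x => u x ^ 3 - φ m x ^ 3) 2 volume := c3.sub f3
  have qm := memLp_dq (h.tst m) hl.le
  have qn := memLp_dq (h.tst n) hl.le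
  have ht := (h.tst n).sub (h.tst m)
  have qd := memLp_dq ht hl.le
  have e : ∫ x, u x ^ 3 * dq l (φ n) x = (∫ x, φ m x ^ 3 * dq l (φ m) x) +
      ((∫ x, (u x ^ 3 - φ m x ^ 3) * dq l (φ m) x) +
        ∫ x, u x ^ 3 * dq l (fun x => φ n x - φ m x) x) := by
    have i12 : Integrable (fun x => (u x ^ 3 - φ m x ^ 3) * dq l (φ m) x +
        u x ^ 3 * dq l (fun x => φ n x - φ m x) x) volume :=
      (int_mul d3 qm).add (int_mul c3 qd)
    rw [← integral_add (int_mul d3 qm) (int_mul c3 qd), ← integral_add (int_mul f3 qm) i12]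
    congr 1
    funext x
    unfold dq
    ring
  have h1 := CS_mul d3 qm
  have h2 := CS_mul c3 qd
  have h3 := dq_le (h.tst m) hl
  have h4 := dq_le ht hl
  rw [← N2_gradient] at h3 h4
  have h5 : N2 (gradient (fun x => φ n x - φ m x)) ≤ N2 (fun x => gradient (φ n) x - G x) +
        N2 (fun x => gradient (φ m) x - G x) := by
    have g1 : MemLp (fun x => gradient (φ n) x - G x) 2 volume :=
      (memLp_gradient (h.tst n)).sub h.hG
    have g2 : MemLp (fun x => G x - gradient (φ m) x) 2 volume :=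
      h.hG.sub (memLp_gradient (h.tst m))
    have := N2_add g1 g2
    rw [N2_sub_comm G (gradient (φ m))] at this
    refine le_trans (le_of_eq ?_) this
    congr 1
    funext x
    rw [gradient_sub' (h.tst n) (h.tst m)]
    abel
  have hl0 : 0 ≤ l - 1 := by linarith
  have h6 : N2 (dq l (fun x => φ n x - φ m x)) ≤ (l - 1) * (N2 (fun x => gradient (φ n) x - G x) +
        N2 (fun x => gradient (φ m) x - G x)) :=
    h4.trans (mul_le_mul_of_nonneg_left h5 hl0)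
  have h7 := mul_le_mul_of_nonneg_left h3 (N2_nonneg (fun x => u x ^ 3 - φ m x ^ 3))
  have h8 := mul_le_mul_of_nonneg_left h6 (N2_nonneg (fun x => u x ^ 3))
  have h9 := neg_abs_le (∫ x, (u x ^ 3 - φ m x ^ 3) * dq l (φ m) x)
  have h10 := neg_abs_le (∫ x, u x ^ 3 * dq l (fun x => φ n x - φ m x) x)
  rw [e]
  nlinarith

/-- the error term -/
noncomputable def er (φ : ℕ → E → ℝ) (u : E → ℝ) (G : E → E) (m : ℕ) : ℝ :=
  N2 (fun x => u x ^ 3 - φ m x ^ 3) * N2 (gradient (φ m)) +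
    N2 (fun x => u x ^ 3) * N2 (fun x => gradient (φ m) x - G x)

lemma Sol.main (h : Sol φ u G) (m : ℕ) : ∃ C : ℝ, ∀ μ : ℝ, 1 < μ →
    (1 / 4) * ((μ ^ 4)⁻¹ - 1) * A (φ m) - C * (μ ^ 2 - 1) ^ 2 - (μ ^ 2 - 1) * er φ u G m ≤
      (μ⁻¹ - 1) * N2 G ^ 2 + (1 / 5) * ((μ ^ 6)⁻¹ - 1) * B u := by
  obtain ⟨C, hC⟩ := smooth_lower (h.sq.tst m)
  refine ⟨C, fun μ hμ => ?_⟩
  have hl : 1 < μ ^ 2 := one_lt_pow₀ hμ (by norm_num)
  have h1 := hC (μ ^ 2) hl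
  have e1 : (μ ^ 2) ^ 2 = μ ^ 4 := by ring
  rw [e1] at h1
  have h2 : ∀ n, (1 / 4) * ((μ ^ 4)⁻¹ - 1) * A (φ m) - C * (μ ^ 2 - 1) ^ 2 -
      (μ ^ 2 - 1) * (N2 (fun x => u x ^ 3 - φ m x ^ 3) *
      N2 (gradient (φ m)) + N2 (fun x => u x ^ 3) * (N2 (fun x => gradient (φ n) x - G x) +
        N2 (fun x => gradient (φ m) x - G x))) ≤
      N2 G * (μ⁻¹ * N2 (gradient (φ n))) - D G (φ n) +
      (4 / 5) * B u + (1 / 5) * ((μ ^ 6)⁻¹ * P (φ n)) - J u (φ n) := by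
    intro n
    have h3 := h.upper n hμ
    have h4 := h.sq.lower n m hl
    unfold A
    linarith
  have t1 : Tendsto (fun n => (1 / 4) * ((μ ^ 4)⁻¹ - 1) * A (φ m) - C * (μ ^ 2 - 1) ^ 2 -
      (μ ^ 2 - 1) * (N2 (fun x => u x ^ 3 - φ m x ^ 3) *
      N2 (gradient (φ m)) + N2 (fun x => u x ^ 3) * (N2 (fun x => gradient (φ n) x - G x) +
        N2 (fun x => gradient (φ m) x - G x)))) atTop
      (𝓝 ((1 / 4) * ((μ ^ 4)⁻¹ - 1) * A (φ m) - C * (μ ^ 2 - 1) ^ 2 -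
      (μ ^ 2 - 1) * (N2 (fun x => u x ^ 3 - φ m x ^ 3) *
      N2 (gradient (φ m)) + N2 (fun x => u x ^ 3) * (0 +
        N2 (fun x => gradient (φ m) x - G x))))) :=
    ((((h.sq.convGr.add_const _).const_mul _).const_add _).const_mul _).const_sub _
  have t2 : Tendsto (fun n => N2 G * (μ⁻¹ * N2 (gradient (φ n))) - D G (φ n) +
      (4 / 5) * B u + (1 / 5) * ((μ ^ 6)⁻¹ * P (φ n)) - J u (φ n)) atTop
      (𝓝 (N2 G * (μ⁻¹ * N2 G) - N2 G ^ 2 + (4 / 5) * B u + (1 / 5) * ((μ ^ 6)⁻¹ * B u) - B u)) :=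
    ((((((h.sq.grad_lim.const_mul _).const_mul _).sub h.sq.D_lim).add_const _).add
      (((h.sq.P_lim h.nn).const_mul _).const_mul _)).sub h.sq.J_lim)
  have h5 := le_of_tendsto_of_tendsto' t1 t2 h2
  unfold er
  rw [zero_add] at h5
  have e2 : N2 G * (μ⁻¹ * N2 G) - N2 G ^ 2 + (4 / 5) * B u + (1 / 5) * ((μ ^ 6)⁻¹ * B u) - B u =
      (μ⁻¹ - 1) * N2 G ^ 2 + (1 / 5) * ((μ ^ 6)⁻¹ - 1) * B u := by ring
  rw [e2] at h5
  exact h5

lemma deriv_lim {A' C e g B' : ℝ} (h : ∀ μ : ℝ, 1 < μ →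
    (1 / 4) * ((μ ^ 4)⁻¹ - 1) * A' - C * (μ ^ 2 - 1) ^ 2 - (μ ^ 2 - 1) * e ≤
      (μ⁻¹ - 1) * g + (1 / 5) * ((μ ^ 6)⁻¹ - 1) * B') : g + (6 / 5) * B' ≤ A' + 2 * e := by
  have h1 : ∀ μ : ℝ, 1 < μ → 0 ≤ -μ ^ 5 * g - (1 + μ + μ ^ 2 + μ ^ 3 + μ ^ 4 + μ ^ 5) * B' / 5 +
      μ ^ 2 * (μ ^ 3 + μ ^ 2 + μ + 1) * A' / 4 + C * (μ - 1) * (μ + 1) ^ 2 * μ ^ 6 +
      (μ + 1) * μ ^ 6 * e := by
    intro μ hμ
    have h2 := h μ hμ
    have hμ0 : 0 < μ := by linarith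
    have h3 : 0 ≤ μ ^ 6 * ((μ⁻¹ - 1) * g + (1 / 5) * ((μ ^ 6)⁻¹ - 1) * B' -
      ((1 / 4) * ((μ ^ 4)⁻¹ - 1) * A' - C * (μ ^ 2 - 1) ^ 2 - (μ ^ 2 - 1) * e)) :=
      mul_nonneg (by positivity) (by linarith)
    have h4 : μ ^ 6 * ((μ⁻¹ - 1) * g + (1 / 5) * ((μ ^ 6)⁻¹ - 1) * B' -
      ((1 / 4) * ((μ ^ 4)⁻¹ - 1) * A' - C * (μ ^ 2 - 1) ^ 2 - (μ ^ 2 - 1) * e)) =
      (μ - 1) * (-μ ^ 5 * g - (1 + μ + μ ^ 2 + μ ^ 3 + μ ^ 4 + μ ^ 5) * B' / 5 +
      μ ^ 2 * (μ ^ 3 + μ ^ 2 + μ + 1) * A' / 4 + C * (μ - 1) * (μ + 1) ^ 2 * μ ^ 6 +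
      (μ + 1) * μ ^ 6 * e) := by
      field_simp
      ring
    rw [h4] at h3
    exact nonneg_of_mul_nonneg_right h3 (by linarith)
  have h5 : ContinuousAt (fun μ : ℝ => -μ ^ 5 * g - (1 + μ + μ ^ 2 + μ ^ 3 + μ ^ 4 + μ ^ 5) * B' / 5 +
      μ ^ 2 * (μ ^ 3 + μ ^ 2 + μ + 1) * A' / 4 + C * (μ - 1) * (μ + 1) ^ 2 * μ ^ 6 +
      (μ + 1) * μ ^ 6 * e) 1 := by fun_prop
  have h6 := h5.tendsto.mono_left (nhdsWithin_le_nhds (s := Set.Ioi (1 : ℝ)))
  have h7 := ge_of_tendsto h6 (by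
    filter_upwards [self_mem_nhdsWithin] with μ hμ
    exact h1 μ hμ)
  norm_num at h7
  linarith

lemma Sq.er_lim (h : Sq φ u G) : Tendsto (er φ u G) atTop (𝓝 0) := by
  have h1 := (h.conv_cube.mul h.grad_lim).add (h.convGr.const_mul (N2 (fun x => u x ^ 3)))
  rw [zero_mul, mul_zero, add_zero] at h1
  exact h1

lemma Sol.A_lim (h : Sol φ u G) : Tendsto (fun m => A (φ m)) atTop (𝓝 (N2 G ^ 2 + B u)) := by
  have h1 := h.sq.D_lim.add h.sq.J_lim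
  have h2 : ∀ n, D G (φ n) + J u (φ n) = H u (φ n) := by
    intro n
    have w2 := h.W n 1 le_rfl
    simp only [one_smul] at w2
    exact w2
  have h3 : Tendsto (fun m => H u (φ m)) atTop (𝓝 (N2 G ^ 2 + B u)) :=
    h1.congr h2
  have h4 : ∀ m, |A (φ m) - H u (φ m)| ≤
      N2 (fun x => u x ^ 3 - φ m x ^ 3) * (6 * N2 (gradient (φ m))) := by
    intro m
    have c3 := cube_of h.sq.memLp6
    have f3 := cube_of ((h.sq.tst m).memLp 6)
    have d3 : MemLp (fun x => u x ^ 3 - φ m x ^ 3) 2 volume := c3.sub f3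
    have hh := memLp_hardy (h.sq.tst m)
    have h5 := CS_mul d3 hh
    rw [← abs_neg] at h5
    have h6 := hardy (h.sq.tst m)
    rw [← N2_gradient] at h6
    refine le_trans (le_of_eq ?_) (h5.trans (mul_le_mul_of_nonneg_left h6 (N2_nonneg _)))
    congr 1
    have e : A (φ m) = ∫ x, φ m x ^ 3 * (φ m x / ‖x‖) := by
      unfold A
      congr 1
      funext x
      ring
    rw [e]
    unfold H
    rw [← integral_sub (int_mul f3 hh) (int_mul c3 hh), ← integral_neg]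
    congr 1
    funext x
    ring
  have h5 : Tendsto (fun m => N2 (fun x => u x ^ 3 - φ m x ^ 3) * (6 * N2 (gradient (φ m)))) atTop
      (𝓝 (0 * (6 * N2 G))) := h.sq.conv_cube.mul (h.sq.grad_lim.const_mul _)
  rw [zero_mul] at h5
  have h6 : Tendsto (fun m => A (φ m) - H u (φ m)) atTop (𝓝 0) :=
    squeeze_zero_norm (fun m => by rw [Real.norm_eq_abs]; exact h4 m) h5
  have h7 := h6.add h3
  rw [zero_add] at h7
  refine h7.congr fun m => ?_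
  ring

lemma Sol.B_le (h : Sol φ u G) : B u ≤ 0 := by
  have h1 : ∀ m, N2 G ^ 2 + (6 / 5) * B u ≤ A (φ m) + 2 * er φ u G m := by
    intro m
    obtain ⟨C, hC⟩ := h.main m
    exact deriv_lim hC
  have h2 := h.A_lim.add (h.sq.er_lim.const_mul 2)
  have h3 := ge_of_tendsto' h2 h1
  linarith

lemma Sol.zero (h : Sol φ u G) : ∀ᵐ x ∂(volume : Measure E), u x = 0 := by
  have h1 := h.B_le
  have i1 : Integrable (fun x => u x ^ 3 * u x ^ 2) volume :=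
    int_mul (cube_of h.sq.memLp6) (sq_of h.sq.hu h.sq.memLp6)
  have h2 : 0 ≤ᵐ[volume] fun x => u x ^ 3 * u x ^ 2 := by
    filter_upwards [h.nn] with x hx
    simp only [Pi.zero_apply]
    positivity
  have h3 : B u = 0 := le_antisymm h1 (integral_nonneg_of_ae h2)
  have h4 := (integral_eq_zero_iff_of_nonneg_ae h2 i1).mp h3
  filter_upwards [h4] with x hx
  simp only [Pi.zero_apply] at hx
  have : u x ^ 5 = 0 := by rw [← hx]; ring
  exact pow_eq_zero_iff (by norm_num) |>.mp this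

end Pool.Agent.H6R3.HS
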