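import Mathlib
import Pool.Agent.H6R3.HS6

set_option autoImplicit false
open MeasureTheory Filter Topology ENNReal

namespace Pool.Agent.H6R3.HS

/-- nonexistence on open sets of `ℝ³` which are star shaped towards the origin and do not contain
the origin -/
theorem no_sol {Ω : Set E} (hΩ : IsOpen Ω) (h0 : (0 : E) ∉ Ω) (hne : Ω.Nonempty)
    (hstar : ∀ (x : E) (l : ℝ), 1 ≤ l → l • x ∈ Ω → x ∈ Ω) {u : E → ℝ} {G : E → E}
    (hu : MemLp u 2 volume) (hG : MemLp G 2 volume) {φ : ℕ → E → ℝ}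
    (hφ : ∀ n, ContDiff ℝ ((⊤ : ℕ∞) : WithTop ℕ∞) (φ n) ∧ HasCompactSupport (φ n) ∧
      tsupport (φ n) ⊆ Ω)
    (hc1 : Tendsto (fun n => eLpNorm (fun x => φ n x - u x) 2 volume) atTop (𝓝 0))
    (hc2 : Tendsto (fun n => eLpNorm (fun x => gradient (φ n) x - G x) 2 volume) atTop (𝓝 0))
    (hpos : ∀ᵐ x ∂(volume : Measure E), x ∈ Ω → 0 < u x)
    (hW : ∀ ψ : E → ℝ, ContDiff ℝ ((⊤ : ℕ∞) : WithTop ℕ∞) ψ → HasCompactSupport ψ →
      tsupport ψ ⊆ Ω →
        Integrable (fun x => inner ℝ (G x) (gradient ψ x)) volume ∧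
        Integrable (fun x => u x ^ 4 * ψ x) volume ∧
        Integrable (fun x => u x ^ 3 * ψ x / ‖x‖) volume ∧
        ∫ x, (inner ℝ (G x) (gradient ψ x) + u x ^ 4 * ψ x - u x ^ 3 * ψ x / ‖x‖) = 0) :
    False := by
  -- an almost everywhere convergent subsequence
  have hm : TendstoInMeasure (volume : Measure E) φ atTop u :=
    tendstoInMeasure_of_tendsto_eLpNorm (p := 2) (by norm_num)
      (fun n => (hφ n).1.continuous.aestronglyMeasurable) hu.1 hc1
  obtain ⟨ns, hns, hae⟩ := hm.exists_seq_tendsto_ae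
  have hT : ∀ n, Tst (φ n) := fun n => ⟨(hφ n).1, (hφ n).2.1, fun h => h0 ((hφ n).2.2 h)⟩
  have hsq : Sq (fun k => φ (ns k)) u G :=
    { tst := fun k => hT _
      hu := hu
      hG := hG
      conv := hc1.comp hns.tendsto_atTop
      convG := hc2.comp hns.tendsto_atTop
      ae := hae }
  have hnn : ∀ᵐ x ∂(volume : Measure E), 0 ≤ u x := by
    filter_upwards [hpos, hae] with x hx hx2
    by_cases hxΩ : x ∈ Ω
    · exact (hx hxΩ).le
    · have h1 : ∀ k, φ (ns k) x = 0 := fun k =>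
        image_eq_zero_of_notMem_tsupport fun h => hxΩ ((hφ _).2.2 h)
      have h2 : Tendsto (fun _ : ℕ => (0 : ℝ)) atTop (𝓝 (u x)) := hx2.congr h1
      exact (tendsto_nhds_unique tendsto_const_nhds h2).le
  have hsol : Sol (fun k => φ (ns k)) u G := by
    refine ⟨hsq, hnn, fun k l hl => ?_⟩
    have ht := (hT (ns k)).dil hl
    have hsup : tsupport (fun x => φ (ns k) (l • x)) ⊆ Ω := by
      have h1 : tsupport (fun x => φ (ns k) (l • x)) ⊆ (fun x : E => l • x) ⁻¹' tsupport (φ (ns k)) := by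
        refine closure_minimal ?_ ((isClosed_tsupport _).preimage (continuous_const_smul l))
        intro x hx
        exact subset_tsupport _ hx
      intro x hx
      exact hstar x l hl ((hφ _).2.2 (h1 hx))
    obtain ⟨i1, i2, i3, i4⟩ := hW _ ht.smooth ht.comp hsup
    have i5 : Integrable (fun x => inner ℝ (G x) (gradient (fun x => φ (ns k) (l • x)) x) +
      u x ^ 4 * φ (ns k) (l • x)) volume := i1.add i2
    rw [integral_sub i5 i3, integral_add i1 i2] at i4
    have e1 : J u (fun x => φ (ns k) (l • x)) = ∫ x, u x ^ 4 * φ (ns k) (l • x) := by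
      unfold J
      congr 1
      funext x
      ring
    have e2 : H u (fun x => φ (ns k) (l • x)) = ∫ x, u x ^ 3 * φ (ns k) (l • x) / ‖x‖ := by
      unfold H
      congr 1
      funext x
      ring
    have e3 : D G (fun x => φ (ns k) (l • x)) =
      ∫ x, inner ℝ (G x) (gradient (fun x => φ (ns k) (l • x)) x) := rfl
    rw [e1, e2, e3]
    linarith
  have hz := hsol.zero
  have h1 : ∀ᵐ x ∂(volume : Measure E), x ∉ Ω := by
    filter_upwards [hpos, hz] with x hx hx2 hxΩ
    exact (hx hxΩ).ne' hx2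
  have h2 : (volume : Measure E) Ω = 0 := measure_eq_zero_iff_ae_notMem.mpr h1
  exact (hΩ.measure_pos volume hne).ne' h2

end Pool.Agent.H6R3.HS
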