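import Mathlib

set_option autoImplicit false
open MeasureTheory Metric Set

namespace Pool.Agent.H6R3.PL

abbrev V (d : ℕ) := EuclideanSpace ℝ (Fin d)

variable {d : ℕ}

/-- volume of the unit ball -/
noncomputable def om (d : ℕ) : ℝ := (volume (ball (0 : V d) 1)).toReal

lemma om_pos : 0 < om d := by
  unfold om
  exact ENNReal.toReal_pos (measure_ball_pos volume _ one_pos).ne' measure_ball_lt_top.ne

lemma vol_ball (x : V d) {r : ℝ} (hr : 0 < r) : (volume (ball x r)).toReal = r ^ d * om d := by
  rw [Measure.addHaar_ball_of_pos _ _ hr, ENNReal.toReal_mul, ENNReal.toReal_ofReal (by positivity)]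
  simp [om]

lemma vol_closedBall (x : V d) {r : ℝ} (hr : 0 ≤ r) :
    (volume (closedBall x r)).toReal = r ^ d * om d := by
  rw [Measure.addHaar_closedBall _ _ hr, ENNReal.toReal_mul, ENNReal.toReal_ofReal (by positivity)]
  simp [om]

lemma setInt_translate (f : V d → ℝ) (z : V d) (r : ℝ) :
    ∫ y in ball z r, f y = ∫ y in ball 0 r, f (z + y) := by
  rw [← integral_indicator measurableSet_ball, ← integral_indicator measurableSet_ball,
    ← integral_add_left_eq_self _ z]
  congr 1
  funext y
  by_cases h : y ∈ ball (0 : V d) r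
  · rw [indicator_of_mem h, indicator_of_mem]
    simpa using h
  · rw [indicator_of_notMem h, indicator_of_notMem]
    simpa using h

lemma dil_le {F : V d → ℝ} (hF : Continuous F) (hF0 : ∀ x, 0 ≤ F x) (hc : HasCompactSupport F)
    (z : V d) {r t : ℝ} (hr : 0 < r) (ht : 0 < t) (ht1 : t ≤ 1) :
    ∫ y in ball 0 r, F (z + t • y) ≤ (t ^ d)⁻¹ * ∫ y in ball z r, F y := by
  have h1 : ∫ y in ball 0 r, F (z + t • y) ≤ ∫ y, (ball z r).indicator F (z + t • y) := by
    rw [← integral_indicator measurableSet_ball]
    have hi : Integrable ((ball z r).indicator F) volume :=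
      (hF.integrable_of_hasCompactSupport hc).indicator measurableSet_ball
    have hi2 : Integrable (fun y => (ball z r).indicator F (z + t • y)) volume := by
      have := (hi.comp_add_left z)
      exact this.comp_smul ht.ne'
    refine integral_mono_of_nonneg (Filter.Eventually.of_forall fun y => ?_) hi2
      (Filter.Eventually.of_forall fun y => ?_)
    · exact indicator_nonneg (fun x _ => hF0 _) y
    · by_cases h : y ∈ ball (0 : V d) r
      · simp only [indicator_of_mem h]
        rw [indicator_of_mem]
        rw [mem_ball_zero_iff] at h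
        rw [mem_ball, dist_eq_norm, add_sub_cancel_left, norm_smul, Real.norm_eq_abs, abs_of_pos ht]
        nlinarith [norm_nonneg y]
      · simp only [indicator_of_notMem h]
        exact indicator_nonneg (fun x _ => hF0 _) _
  refine h1.trans (le_of_eq ?_)
  have h2 := Measure.integral_comp_smul (volume : Measure (V d))
    (fun y => (ball z r).indicator F (z + y)) t
  rw [h2, integral_add_left_eq_self, integral_indicator measurableSet_ball]
  have : Module.finrank ℝ (V d) = d := by simp
  rw [this, smul_eq_mul, abs_of_pos (by positivity)]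

lemma holder_set {f : V d → ℝ} (hf : Continuous f) (hf0 : ∀ x, 0 ≤ f x) {M : ℝ} (hM : ∀ x, f x ≤ M)
    {p : ℝ} (hp : 1 < p) {r : ℝ} (hr : 0 < r) :
    ∫ y in ball 0 r, f y ≤ (r ^ d * om d) ^ (1 - 1 / p) * (∫ y in ball 0 r, f y ^ p) ^ (1 / p) := by
  have hpq : p.HolderConjugate (p / (p - 1)) := Real.HolderConjugate.conjExponent hp
  have hfin : IsFiniteMeasure ((volume : Measure (V d)).restrict (ball 0 r)) :=
    ⟨by simpa using measure_ball_lt_top⟩
  have h := integral_mul_le_Lp_mul_Lq_of_nonneg (μ := (volume : Measure (V d)).restrict (ball 0 r))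
    hpq (f := f) (g := fun _ => 1) (Filter.Eventually.of_forall hf0)
    (Filter.Eventually.of_forall fun _ => zero_le_one)
    (MemLp.of_bound hf.aestronglyMeasurable M (Filter.Eventually.of_forall fun x => by
      rw [Real.norm_eq_abs, abs_of_nonneg (hf0 x)]
      exact hM x))
    (memLp_const 1)
  simp only [mul_one, Real.one_rpow] at h
  rw [setIntegral_const] at h
  have e1 : (volume : Measure (V d)).real (ball 0 r) = r ^ d * om d := vol_ball 0 hr
  rw [e1, smul_eq_mul, mul_one] at h
  have e2 : 1 / (p / (p - 1)) = 1 - 1 / p := by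
    have : p ≠ 0 := by linarith
    field_simp
  rw [e2] at h
  linarith [mul_comm ((r ^ d * om d) ^ (1 - 1 / p)) ((∫ y in ball 0 r, f y ^ p) ^ (1 / p))]

end Pool.Agent.H6R3.PL
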