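import Mathlib
import Pool.Agent.H6R3.PL1

set_option autoImplicit false
open MeasureTheory Metric Set

namespace Pool.Agent.H6R3.PL

variable {d : ℕ}

lemma ptw {ψ : V d → ℝ} (hψ : ContDiff ℝ (⊤ : ℕ∞) ψ) {z : V d} (hz : ψ z = 0) (y : V d) :
    |ψ (z + y)| ≤ ‖y‖ * ∫ t in Ioc (0 : ℝ) 1, ‖fderiv ℝ ψ (z + t • y)‖ := by
  have hd : Differentiable ℝ ψ := hψ.differentiable (by simp)
  have hcd : Continuous (fderiv ℝ ψ) := hψ.continuous_fderiv (by simp)
  have h1 : ∀ t : ℝ, HasDerivAt (fun t : ℝ => ψ (z + t • y)) (fderiv ℝ ψ (z + t • y) y) t := by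
    intro t
    have h2 : HasDerivAt (fun t : ℝ => z + t • y) y t := by
      simpa using ((hasDerivAt_id t).smul_const y).const_add z
    exact (hd (z + t • y)).hasFDerivAt.comp_hasDerivAt t h2
  have hcc : Continuous fun t : ℝ => z + t • y :=
    continuous_const.add (continuous_id.smul continuous_const)
  have hc : Continuous fun t : ℝ => fderiv ℝ ψ (z + t • y) y :=
    (hcd.comp hcc).clm_apply continuous_const
  have h3 : ψ (z + y) = ∫ t in (0 : ℝ)..1, fderiv ℝ ψ (z + t • y) y := by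
    rw [intervalIntegral.integral_eq_sub_of_hasDerivAt (fun t _ => h1 t)
      (hc.intervalIntegrable _ _), one_smul, zero_smul, add_zero, hz, sub_zero]
  rw [h3, ← Real.norm_eq_abs]
  refine (intervalIntegral.norm_integral_le_integral_norm zero_le_one).trans ?_
  rw [← integral_const_mul, intervalIntegral.integral_of_le zero_le_one]
  have i1 : IntegrableOn (fun t : ℝ => ‖fderiv ℝ ψ (z + t • y) y‖) (Ioc 0 1) :=
    (hc.norm.intervalIntegrable 0 1).1
  have i2 : IntegrableOn (fun t : ℝ => ‖y‖ * ‖fderiv ℝ ψ (z + t • y)‖) (Ioc 0 1) :=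
    ((continuous_const.mul (hcd.comp hcc).norm).intervalIntegrable 0 1).1
  refine integral_mono i1 i2 fun t => ?_
  simp only
  rw [mul_comm]
  exact (fderiv ℝ ψ (z + t • y)).le_opNorm y

lemma prod_int {F : V d → ℝ} (hF : Continuous F) (z : V d) (r : ℝ) :
    Integrable (fun w : V d × ℝ => F (z + w.2 • w.1))
      (((volume : Measure (V d)).restrict (ball 0 r)).prod
        ((volume : Measure ℝ).restrict (Ioc 0 1))) := by
  rw [Measure.prod_restrict]
  have h2 : IntegrableOn (fun w : V d × ℝ => F (z + w.2 • w.1))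
      (closedBall 0 r ×ˢ Icc 0 1) ((volume : Measure (V d)).prod (volume : Measure ℝ)) :=
    (hF.comp (continuous_const.add (continuous_snd.smul continuous_fst))).continuousOn.integrableOn_compact
      ((isCompact_closedBall _ _).prod isCompact_Icc)
  exact h2.mono_set (prod_mono ball_subset_closedBall Ioc_subset_Icc_self)

/-- Morrey type estimate for averages over balls -/
lemma morrey {p : ℝ} (hd : 1 ≤ d) (hp : (d : ℝ) < p) {ψ : V d → ℝ} (hψ : ContDiff ℝ (⊤ : ℕ∞) ψ)
    (hcs : HasCompactSupport ψ) {z : V d} (hz : ψ z = 0) {r : ℝ} (hr : 0 < r) :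
    ∫ y in ball z r, |ψ y| ≤ r * ((r ^ d * om d) ^ (1 - 1 / p) *
      (∫ y in ball z r, ‖fderiv ℝ ψ y‖ ^ p) ^ (1 / p) * (p / (p - d))) := by
  have hd1 : (1 : ℝ) ≤ d := by exact_mod_cast hd
  have hp1 : 1 < p := by linarith
  have hp0 : 0 < p := by linarith
  have hcd : Continuous (fderiv ℝ ψ) := hψ.continuous_fderiv (by simp)
  have hcsd : HasCompactSupport (fderiv ℝ ψ) := hcs.fderiv (𝕜 := ℝ)
  obtain ⟨M, hM⟩ := hcsd.exists_bound_of_continuous hcd
  have hM0 : 0 ≤ M := (norm_nonneg _).trans (hM 0)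
  set F : V d → ℝ := fun x => ‖fderiv ℝ ψ x‖ with hFdef
  have hF : Continuous F := hcd.norm
  have hF0 : ∀ x, 0 ≤ F x := fun x => norm_nonneg _
  set Fp : V d → ℝ := fun x => F x ^ p with hFp
  have hFpc : Continuous Fp := hF.rpow_const fun x => Or.inr hp0.le
  have hFp0 : ∀ x, 0 ≤ Fp x := fun x => Real.rpow_nonneg (hF0 x) _
  have hFpcs : HasCompactSupport Fp := by
    refine hcsd.mono ?_
    intro x hx
    rw [Function.mem_support] at *
    intro h3
    apply hx
    simp only [hFp, hFdef, h3, norm_zero]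
    exact Real.zero_rpow hp0.ne'
  set N := ∫ y in ball z r, Fp y with hN
  have hN0 : 0 ≤ N := setIntegral_nonneg measurableSet_ball fun x _ => hFp0 x
  -- first step
  have hpi := prod_int hF z r
  have s1 : ∫ y in ball z r, |ψ y| ≤ r * ∫ y in ball 0 r, ∫ t in Ioc (0 : ℝ) 1, F (z + t • y) := by
    rw [setInt_translate, ← integral_const_mul]
    have hcψ : Continuous fun y => |ψ (z + y)| :=
      (hψ.continuous.comp (continuous_const.add continuous_id)).abs
    refine setIntegral_mono_on ((hcψ.continuousOn.integrableOn_compact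
      (isCompact_closedBall 0 r)).mono_set ball_subset_closedBall)
      (hpi.integral_prod_left.const_mul r) measurableSet_ball ?_
    intro y hy
    refine (ptw hψ hz y).trans ?_
    rw [mem_ball_zero_iff] at hy
    refine mul_le_mul_of_nonneg_right hy.le ?_
    exact integral_nonneg fun t => norm_nonneg _
  have s2 : ∫ y in ball 0 r, ∫ t in Ioc (0 : ℝ) 1, F (z + t • y) =
      ∫ t in Ioc (0 : ℝ) 1, ∫ y in ball 0 r, F (z + t • y) := integral_integral_swap hpi
  have s3 : ∀ t ∈ Ioc (0 : ℝ) 1, ∫ y in ball 0 r, F (z + t • y) ≤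
      (r ^ d * om d) ^ (1 - 1 / p) * N ^ (1 / p) * t ^ (-(d / p : ℝ)) := by
    intro t ht
    have hct : Continuous fun y => F (z + t • y) :=
      hF.comp (continuous_const.add (continuous_const_smul t))
    have h1 := holder_set (r := r) hct (fun y => hF0 _) (fun y => hM _) hp1 hr
    have h2 := dil_le hFpc hFp0 hFpcs z hr ht.1 ht.2
    have h3 : (∫ y in ball 0 r, F (z + t • y) ^ p) ^ (1 / p) ≤ N ^ (1 / p) * t ^ (-(d / p : ℝ)) := by
      calc (∫ y in ball 0 r, F (z + t • y) ^ p) ^ (1 / p) ≤ ((t ^ d)⁻¹ * N) ^ (1 / p) := by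
            refine Real.rpow_le_rpow ?_ h2 (by positivity)
            exact setIntegral_nonneg measurableSet_ball fun x _ => hFp0 _
        _ = N ^ (1 / p) * t ^ (-(d / p : ℝ)) := by
            rw [Real.mul_rpow (by have := ht.1; positivity) hN0, mul_comm]
            congr 1
            rw [← Real.rpow_natCast t d, ← Real.rpow_neg ht.1.le, ← Real.rpow_mul ht.1.le]
            congr 1
            ring
    have h4 : 0 ≤ (r ^ d * om d) ^ (1 - 1 / p) :=
      Real.rpow_nonneg (mul_nonneg (by positivity) om_pos.le) _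
    calc ∫ y in ball 0 r, F (z + t • y) ≤ _ := h1
      _ ≤ (r ^ d * om d) ^ (1 - 1 / p) * (N ^ (1 / p) * t ^ (-(d / p : ℝ))) :=
          mul_le_mul_of_nonneg_left h3 h4
      _ = _ := by ring
  have hdp : -1 < -(d / p : ℝ) := by
    rw [neg_lt_neg_iff, div_lt_one hp0]
    exact hp
  have s4 : ∫ t in Ioc (0 : ℝ) 1, ∫ y in ball 0 r, F (z + t • y) ≤
      ∫ t in Ioc (0 : ℝ) 1, (r ^ d * om d) ^ (1 - 1 / p) * N ^ (1 / p) * t ^ (-(d / p : ℝ)) := by
    refine setIntegral_mono_on hpi.integral_prod_right ?_ measurableSet_Ioc s3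
    exact ((intervalIntegral.intervalIntegrable_rpow' hdp).1).const_mul _
  have s5 : ∫ t in Ioc (0 : ℝ) 1, (r ^ d * om d) ^ (1 - 1 / p) * N ^ (1 / p) * t ^ (-(d / p : ℝ)) =
      (r ^ d * om d) ^ (1 - 1 / p) * N ^ (1 / p) * (p / (p - d)) := by
    rw [integral_const_mul]
    congr 1
    rw [← intervalIntegral.integral_of_le zero_le_one, integral_rpow (Or.inl hdp)]
    have h6 : -(d / p : ℝ) + 1 ≠ 0 := by linarith
    rw [Real.zero_rpow h6, Real.one_rpow]
    have h7 : p - d ≠ 0 := by linarith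
    have h8 : -(d / p : ℝ) + 1 = (p - d) / p := by
      field_simp
      ring
    rw [h8]
    field_simp
    ring
  calc ∫ y in ball z r, |ψ y| ≤ r * ∫ y in ball 0 r, ∫ t in Ioc (0 : ℝ) 1, F (z + t • y) := s1
    _ ≤ _ := by
      refine mul_le_mul_of_nonneg_left ?_ hr.le
      rw [s2]
      rw [← s5]
      exact s4

end Pool.Agent.H6R3.PL
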