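import Mathlib
import Pool.Agent.H6R3.PL2

set_option autoImplicit false
open MeasureTheory Metric Set

namespace Pool.Agent.H6R3.PL

variable {d : ℕ}

/-- admissible test functions -/
def Adm (Ω : Set (V d)) (φ : V d → ℝ) : Prop :=
  ContDiff ℝ (⊤ : ℕ∞) φ ∧ HasCompactSupport φ ∧ tsupport φ ⊆ Ω ∧ φ ≠ 0

/-- first eigenvalue -/
noncomputable def lam (Ω : Set (V d)) (p : ℝ) : ℝ :=
  ⨅ φ : {φ : V d → ℝ // ContDiff ℝ (⊤ : ℕ∞) φ ∧ HasCompactSupport φ ∧ tsupport φ ⊆ Ω ∧ φ ≠ 0},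
    (∫ x, ‖fderiv ℝ φ.1 x‖ ^ p) / (∫ x, |φ.1 x| ^ p)

lemma lam_nonneg (Ω : Set (V d)) (p : ℝ) : 0 ≤ lam Ω p := by
  refine Real.iInf_nonneg fun φ => ?_
  refine div_nonneg (integral_nonneg fun x => Real.rpow_nonneg (norm_nonneg _) _)
    (integral_nonneg fun x => Real.rpow_nonneg (abs_nonneg _) _)

lemma lam_le {Ω : Set (V d)} {p : ℝ} {φ : V d → ℝ} (h : Adm Ω φ) :
    lam Ω p ≤ (∫ x, ‖fderiv ℝ φ x‖ ^ p) / (∫ x, |φ x| ^ p) := by
  refine ciInf_le (f := fun φ : {φ : V d → ℝ // ContDiff ℝ (⊤ : ℕ∞) φ ∧ HasCompactSupport φ ∧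
    tsupport φ ⊆ Ω ∧ φ ≠ 0} => (∫ x, ‖fderiv ℝ φ.1 x‖ ^ p) / (∫ x, |φ.1 x| ^ p)) ?_ ⟨φ, h⟩
  refine ⟨0, ?_⟩
  rintro _ ⟨φ, rfl⟩
  exact div_nonneg (integral_nonneg fun x => Real.rpow_nonneg (norm_nonneg _) _)
    (integral_nonneg fun x => Real.rpow_nonneg (abs_nonneg _) _)

/-- positivity of the `p`-norm of a nonzero test function -/
lemma int_pos {p : ℝ} (hp : 0 < p) {φ : V d → ℝ} (hφ : Continuous φ) (hc : HasCompactSupport φ)
    (h0 : φ ≠ 0) : 0 < ∫ x, |φ x| ^ p := by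
  have hcont : Continuous fun x => |φ x| ^ p := hφ.abs.rpow_const fun x => Or.inr hp.le
  have hcs : HasCompactSupport fun x => |φ x| ^ p := by
    refine hc.mono ?_
    intro x hx
    rw [Function.mem_support] at *
    intro h3
    apply hx
    simp only [h3, abs_zero]
    exact Real.zero_rpow hp.ne'
  obtain ⟨x, hx⟩ : ∃ x, φ x ≠ 0 := by
    by_contra h
    push Not at h
    exact h0 (funext h)
  refine hcont.integral_pos_of_hasCompactSupport_nonneg_nonzero hcs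
    (fun x => Real.rpow_nonneg (abs_nonneg _) _) (x := x) ?_
  exact (Real.rpow_pos_of_pos (abs_pos.mpr hx) _).ne'

lemma lam_ball {p : ℝ} (hp : 0 < p) : ∃ C0 : ℝ, 0 < C0 ∧
    ∀ (Ω : Set (V d)) (x : V d) (r : ℝ), 0 < r → ball x r ⊆ Ω → lam Ω p * r ^ p ≤ C0 := by
  let χ : ContDiffBump (0 : V d) := ⟨1 / 4, 1 / 2, by norm_num, by norm_num⟩
  have hχs : ContDiff ℝ (⊤ : ℕ∞) (χ : V d → ℝ) := χ.contDiff
  have hχc : HasCompactSupport (χ : V d → ℝ) := χ.hasCompactSupport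
  have hχ0 : (χ : V d → ℝ) ≠ 0 := by
    intro h
    have h1 : χ 0 = 1 := χ.one_of_mem_closedBall (by simp [χ])
    rw [h] at h1
    simp at h1
  have hSpos : 0 < ∫ x, |χ x| ^ p := int_pos hp hχs.continuous hχc hχ0
  refine ⟨(∫ x, ‖fderiv ℝ χ x‖ ^ p) / (∫ x, |χ x| ^ p) + 1, ?_, ?_⟩
  · have : 0 ≤ (∫ x, ‖fderiv ℝ χ x‖ ^ p) / (∫ x, |χ x| ^ p) :=
      div_nonneg (integral_nonneg fun x => Real.rpow_nonneg (norm_nonneg _) _) hSpos.le
    linarith
  intro Ω x r hr hx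
  set φ : V d → ℝ := fun y => χ (r⁻¹ • (y - x)) with hφ
  have hri : 0 < r⁻¹ := inv_pos.mpr hr
  have hφs : ContDiff ℝ (⊤ : ℕ∞) φ :=
    hχs.comp ((contDiff_const_smul _).comp (contDiff_id.sub contDiff_const))
  have hsupp : tsupport φ ⊆ closedBall x (r / 2) := by
    refine closure_minimal ?_ isClosed_closedBall
    intro y hy
    rw [Function.mem_support] at hy
    have h1 : r⁻¹ • (y - x) ∈ Function.support χ := hy
    rw [χ.support_eq, mem_ball_zero_iff, norm_smul, Real.norm_eq_abs, abs_of_pos hri] at h1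
    have h2 : χ.rOut = 1 / 2 := rfl
    rw [h2] at h1
    rw [mem_closedBall, dist_eq_norm]
    rw [inv_mul_lt_iff₀ hr] at h1
    linarith
  have hφc : HasCompactSupport φ :=
    HasCompactSupport.of_support_subset_isCompact (isCompact_closedBall x (r / 2))
      ((subset_tsupport _).trans hsupp)
  have hφ0 : φ ≠ 0 := by
    intro h
    have h1 : χ 0 = 1 := χ.one_of_mem_closedBall (by simp [χ])
    have h2 : φ x = 0 := by rw [h]; rfl
    simp only [hφ, sub_self, smul_zero] at h2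
    rw [h1] at h2
    exact one_ne_zero h2
  have hadm : Adm Ω φ := ⟨hφs, hφc, hsupp.trans ((closedBall_subset_ball (by linarith)).trans hx), hφ0⟩
  have hscale : ∀ f : V d → ℝ, ∫ y, f (r⁻¹ • (y - x)) = r ^ d * ∫ y, f y := by
    intro f
    have h1 := integral_sub_right_eq_self (μ := (volume : Measure (V d)))
      (fun y => f (r⁻¹ • y)) x
    rw [h1, Measure.integral_comp_smul]
    have : Module.finrank ℝ (V d) = d := by simp
    rw [this, smul_eq_mul, abs_of_pos (by positivity), inv_pow, inv_inv]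
  have hfd : ∀ y, fderiv ℝ φ y = r⁻¹ • fderiv ℝ χ (r⁻¹ • (y - x)) := by
    intro y
    have h1 : HasFDerivAt χ (fderiv ℝ χ (r⁻¹ • (y - x))) (r⁻¹ • (y - x)) :=
      (hχs.differentiable (by simp) _).hasFDerivAt
    have h2 : HasFDerivAt (fun y : V d => r⁻¹ • (y - x)) (r⁻¹ • ContinuousLinearMap.id ℝ (V d)) y :=
      ((hasFDerivAt_id y).sub_const x).const_smul r⁻¹
    have h3 : HasFDerivAt φ ((fderiv ℝ χ (r⁻¹ • (y - x))).comp
      (r⁻¹ • ContinuousLinearMap.id ℝ (V d))) y :=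
      HasFDerivAt.comp (g := (χ : V d → ℝ)) y h1 h2
    rw [h3.fderiv]
    ext v
    simp
  have hE : ∫ y, ‖fderiv ℝ φ y‖ ^ p = (r⁻¹) ^ p * (r ^ d * ∫ y, ‖fderiv ℝ χ y‖ ^ p) := by
    rw [← hscale (fun y => ‖fderiv ℝ χ y‖ ^ p), ← integral_const_mul]
    congr 1
    funext y
    rw [hfd, norm_smul, Real.norm_eq_abs, abs_of_pos hri, Real.mul_rpow hri.le (norm_nonneg _)]
  have hS : ∫ y, |φ y| ^ p = r ^ d * ∫ y, |χ y| ^ p := hscale (fun y => |χ y| ^ p)
  have h1 := lam_le (p := p) hadm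
  rw [hE, hS] at h1
  have hrp : 0 < r ^ p := Real.rpow_pos_of_pos hr _
  have hrd : 0 < r ^ d := by positivity
  have h2 : r⁻¹ ^ p * (r ^ d * ∫ (y : V d), ‖fderiv ℝ χ y‖ ^ p) / (r ^ d * ∫ (y : V d), |χ y| ^ p) =
      (r ^ p)⁻¹ * ((∫ x, ‖fderiv ℝ χ x‖ ^ p) / (∫ x, |χ x| ^ p)) := by
    rw [Real.inv_rpow hr.le]
    field_simp
  rw [h2] at h1
  have h3 := mul_le_mul_of_nonneg_right h1 hrp.le
  have h4 : (r ^ p)⁻¹ * ((∫ x, ‖fderiv ℝ χ x‖ ^ p) / (∫ x, |χ x| ^ p)) * r ^ p =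
      (∫ x, ‖fderiv ℝ χ x‖ ^ p) / (∫ x, |χ x| ^ p) := by
    field_simp
  rw [h4] at h3
  linarith

/-- Vitali selection of points of `Ω` -/
lemma select {Ω : Set (V d)} (hΩ : IsOpen Ω) (hb : Bornology.IsBounded Ω) (hne : Ω.Nonempty)
    {ρ : ℝ} (hρ : ∀ x r, 0 < r → ball x r ⊆ Ω → r ≤ ρ) :
    ∃ F : Finset (V d), (∀ b ∈ F, b ∈ Ω) ∧
      ((F : Set (V d)).PairwiseDisjoint fun b => closedBall b (2 * infDist b Ωᶜ)) ∧
      (volume Ω).toReal ≤ 2 * ∑ b ∈ F, (10 * infDist b Ωᶜ) ^ d * om d := by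
  have hcne : (Ωᶜ : Set (V d)).Nonempty := by
    by_contra h
    rw [not_nonempty_iff_eq_empty, compl_empty_iff] at h
    have h1 := hρ 0 (|ρ| + 1) (by positivity) (by rw [h]; exact subset_univ _)
    have := le_abs_self ρ
    linarith
  have hclosed : IsClosed (Ωᶜ : Set (V d)) := hΩ.isClosed_compl
  have hpos : ∀ b ∈ Ω, 0 < infDist b Ωᶜ := fun b hb =>
    (hclosed.notMem_iff_infDist_pos hcne).mp (by simpa using hb)
  have hle : ∀ b ∈ Ω, infDist b Ωᶜ ≤ ρ := fun b hb =>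
    hρ b _ (hpos b hb) ball_infDist_compl_subset
  obtain ⟨u, hu, hdis, hcov⟩ := Vitali.exists_disjoint_subfamily_covering_enlargement_closedBall
    Ω (fun x => x) (fun x => 2 * infDist x Ωᶜ) (2 * ρ) (fun a ha => by linarith [hle a ha])
    5 (by norm_num)
  have hcount : u.Countable := by
    refine hdis.countable_of_nonempty_interior fun b hb => ?_
    have h0 : 0 < 2 * infDist b Ωᶜ := by linarith [hpos b (hu hb)]
    exact ⟨b, ball_subset_interior_closedBall (mem_ball_self h0)⟩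
  have hcov2 : Ω ⊆ ⋃ b ∈ u, closedBall b (10 * infDist b Ωᶜ) := by
    intro a ha
    obtain ⟨b, hb, hsub⟩ := hcov a ha
    refine mem_iUnion₂.mpr ⟨b, hb, ?_⟩
    have h1 := hsub (mem_closedBall_self (by linarith [hpos a ha]))
    rwa [show 5 * (2 * infDist b Ωᶜ) = 10 * infDist b Ωᶜ by ring] at h1
  have hm : volume Ω ≤ ∑' b : u, volume (closedBall (b : V d) (10 * infDist (b : V d) Ωᶜ)) :=
    (measure_mono hcov2).trans (measure_biUnion_le volume hcount _)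
  have hΩ0 : volume Ω ≠ 0 := (hΩ.measure_pos volume hne).ne'
  have hΩt : volume Ω ≠ ⊤ := hb.measure_lt_top.ne
  have hlt : volume Ω / 2 < ∑' b : u, volume (closedBall (b : V d) (10 * infDist (b : V d) Ωᶜ)) :=
    (ENNReal.half_lt_self hΩ0 hΩt).trans_le hm
  rw [ENNReal.tsum_eq_iSup_sum, lt_iSup_iff] at hlt
  obtain ⟨F, hF⟩ := hlt
  refine ⟨F.map (Function.Embedding.subtype _), ?_, ?_, ?_⟩
  · intro b hb
    obtain ⟨a, -, rfl⟩ := Finset.mem_map.mp hb
    exact hu a.2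
  · refine hdis.subset ?_
    intro b hb
    obtain ⟨a, -, rfl⟩ := Finset.mem_map.mp (Finset.mem_coe.mp hb)
    exact a.2
  · rw [Finset.sum_map]
    have h1 : (volume Ω / 2).toReal ≤
        (∑ b ∈ F, volume (closedBall (b : V d) (10 * infDist (b : V d) Ωᶜ))).toReal := by
      refine ENNReal.toReal_mono ?_ hF.le
      exact (ENNReal.sum_lt_top.mpr fun b _ => measure_closedBall_lt_top).ne
    rw [ENNReal.toReal_sum fun b _ => measure_closedBall_lt_top.ne] at h1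
    have h2 : ∀ b ∈ F, (volume (closedBall (b : V d) (10 * infDist (b : V d) Ωᶜ))).toReal =
        (10 * infDist (b : V d) Ωᶜ) ^ d * om d := fun b _ =>
      vol_closedBall _ (by linarith [hpos b (hu b.2)])
    rw [Finset.sum_congr rfl h2, ENNReal.toReal_div] at h1
    simp only [ENNReal.toReal_ofNat] at h1
    simp only [Function.Embedding.subtype_apply]
    linarith

end Pool.Agent.H6R3.PL
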