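import Mathlib
import Pool.Agent.H6R3.PL3

set_option autoImplicit false
open MeasureTheory Metric Set

namespace Pool.Agent.H6R3.PL

variable {d : ℕ}

lemma exists_kappa {K ε s : ℝ} (hK : 0 < K) (hε : 0 < ε) (hs : 0 < s) :
    ∃ κ : ℝ, 0 < κ ∧ κ ≤ 1 ∧ K * κ ^ s ≤ ε := by
  have h0 : 0 < (ε / K) ^ (1 / s) := Real.rpow_pos_of_pos (by positivity) _
  refine ⟨min 1 ((ε / K) ^ (1 / s)), lt_min one_pos h0, min_le_left _ _, ?_⟩
  have h1 : (min 1 ((ε / K) ^ (1 / s))) ^ s ≤ ((ε / K) ^ (1 / s)) ^ s :=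
    Real.rpow_le_rpow (lt_min one_pos h0).le (min_le_right _ _) hs.le
  rw [← Real.rpow_mul (by positivity), one_div, inv_mul_cancel₀ hs.ne', Real.rpow_one] at h1
  calc K * (min 1 ((ε / K) ^ (1 / s))) ^ s ≤ K * (ε / K) := by
        have := mul_le_mul_of_nonneg_left h1 hK.le
        simpa [one_div] using this
    _ = ε := by field_simp

lemma alg {p X N r ρ m τ : ℝ} (hp : 1 < p) (hX : 0 < X) (hN : 0 ≤ N) (hr : 0 < r) (hrρ : r ≤ ρ)
    (hm : 0 < m) (hτ : 0 < τ) :
    r * (X ^ (1 - 1 / p) * N ^ (1 / p)) ≤ m * (τ * X + τ ^ (1 - p) * ((ρ / m) ^ p * N)) := by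
  have hρ : 0 < ρ := hr.trans_le hrρ
  have hp0 : 0 < p := by linarith
  have hX1 : X ^ (1 - 1 / p) * X ^ (1 / p) = X := by
    rw [← Real.rpow_add hX]
    simp
  rcases le_or_gt N ((m * τ / ρ) ^ p * X) with h | h
  · have h1 : N ^ (1 / p) ≤ (m * τ / ρ) * X ^ (1 / p) := by
      calc N ^ (1 / p) ≤ ((m * τ / ρ) ^ p * X) ^ (1 / p) :=
            Real.rpow_le_rpow hN h (by positivity)
        _ = _ := by
            rw [Real.mul_rpow (by positivity) hX.le, ← Real.rpow_mul (by positivity)]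
            congr 1
            rw [mul_one_div_cancel hp0.ne', Real.rpow_one]
    have h2 : 0 ≤ τ ^ (1 - p) * ((ρ / m) ^ p * N) := by positivity
    calc r * (X ^ (1 - 1 / p) * N ^ (1 / p)) ≤
          ρ * (X ^ (1 - 1 / p) * ((m * τ / ρ) * X ^ (1 / p))) := by gcongr
      _ = ρ * ((m * τ / ρ) * (X ^ (1 - 1 / p) * X ^ (1 / p))) := by ring
      _ = m * (τ * X) := by
          rw [hX1]
          field_simp
      _ ≤ _ := by
          apply mul_le_mul_of_nonneg_left _ hm.le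
          linarith
  · have hN0 : 0 < N := lt_trans (by positivity) h
    have h1 : X ≤ (ρ / (m * τ)) ^ p * N := by
      have h2 : (ρ / (m * τ)) ^ p * ((m * τ / ρ) ^ p * X) = X := by
        rw [← mul_assoc, ← Real.mul_rpow (by positivity) (by positivity)]
        have : ρ / (m * τ) * (m * τ / ρ) = 1 := by field_simp
        rw [this, Real.one_rpow, one_mul]
      calc X = (ρ / (m * τ)) ^ p * ((m * τ / ρ) ^ p * X) := h2.symm
        _ ≤ _ := by gcongr
    have h3 : X ^ (1 - 1 / p) ≤ (ρ / (m * τ)) ^ (p - 1) * N ^ (1 - 1 / p) := by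
      have h4 : 0 ≤ 1 - 1 / p := by
        rw [sub_nonneg, div_le_one hp0]
        exact hp.le
      calc X ^ (1 - 1 / p) ≤ ((ρ / (m * τ)) ^ p * N) ^ (1 - 1 / p) :=
            Real.rpow_le_rpow hX.le h1 h4
        _ = _ := by
            rw [Real.mul_rpow (by positivity) hN, ← Real.rpow_mul (by positivity)]
            congr 2
            field_simp
    have hN1 : N ^ (1 - 1 / p) * N ^ (1 / p) = N := by
      rw [← Real.rpow_add hN0]
      simp
    have h5 : 0 ≤ τ * X := by positivity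
    calc r * (X ^ (1 - 1 / p) * N ^ (1 / p)) ≤
          ρ * (((ρ / (m * τ)) ^ (p - 1) * N ^ (1 - 1 / p)) * N ^ (1 / p)) := by gcongr
      _ = ρ * ((ρ / (m * τ)) ^ (p - 1) * (N ^ (1 - 1 / p) * N ^ (1 / p))) := by ring
      _ = m * (τ ^ (1 - p) * ((ρ / m) ^ p * N)) := by
          rw [hN1]
          have e1 : (ρ / (m * τ)) ^ (p - 1) = (ρ / m) ^ (p - 1) * τ ^ (1 - p) := by
            rw [show ρ / (m * τ) = (ρ / m) * τ⁻¹ by field_simp,
              Real.mul_rpow (by positivity) (by positivity), Real.inv_rpow hτ.le,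
              ← Real.rpow_neg hτ.le]
            congr 2
            ring
          have e2 : (ρ / m) ^ p = (ρ / m) ^ (p - 1) * (ρ / m) := by
            rw [← Real.rpow_add_one (by positivity)]
            congr 1
            ring
          rw [e1, e2]
          field_simp
      _ ≤ _ := by
          apply mul_le_mul_of_nonneg_left _ hm.le
          linarith

lemma bern {p v : ℝ} (hp : 1 < p) (hv : 0 ≤ v) {m : ℝ} (hm : 0 < m) :
    m ^ p * (1 - p) + p * m ^ (p - 1) * v ≤ v ^ p := by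
  have h1 := one_add_mul_self_le_rpow_one_add (s := v / m - 1) (p := p)
    (by have : 0 ≤ v / m := by positivity
        linarith) hp.le
  have h2 : 1 + (v / m - 1) = v / m := by ring
  rw [h2, Real.div_rpow hv hm.le] at h1
  have hmp : 0 < m ^ p := Real.rpow_pos_of_pos hm _
  rw [le_div_iff₀ hmp] at h1
  have h3 : m ^ p = m ^ (p - 1) * m := by
    rw [← Real.rpow_add_one hm.ne']
    congr 1
    ring
  have h4 : (1 + p * (v / m - 1)) * m ^ p = m ^ p * (1 - p) + p * m ^ (p - 1) * v := by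
    rw [h3]
    field_simp
    ring
  linarith

/-- local estimate near the boundary -/
lemma loc {p : ℝ} (hd : 1 ≤ d) (hp : (d : ℝ) < p) {Ω : Set (V d)} (hΩ : IsOpen Ω)
    (hcne : (Ωᶜ : Set (V d)).Nonempty) {ψ : V d → ℝ} (hψ : Adm Ω ψ) {b : V d} (hb : b ∈ Ω)
    {κ ρ m τ : ℝ} (hκ : 0 < κ) (hκ1 : κ ≤ 1) (hrρ : infDist b Ωᶜ ≤ ρ) (hm : 0 < m) (hτ : 0 < τ) :
    ∃ w : V d, ball w (κ * infDist b Ωᶜ / 2) ⊆ ball b (infDist b Ωᶜ) ∧
      ∫ y in ball w (κ * infDist b Ωᶜ / 2), |ψ y| ≤ (om d ^ (1 - 1 / p) * (p / (p - d))) * (m * (κ *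
        (τ * (κ * infDist b Ωᶜ) ^ d + τ ^ (1 - p) * ((ρ / m) ^ p *
          ∫ y in closedBall b (2 * infDist b Ωᶜ), ‖fderiv ℝ ψ y‖ ^ p)))) := by
  have hd1 : (1 : ℝ) ≤ d := by exact_mod_cast hd
  have hp1 : 1 < p := by linarith
  have hp0 : 0 < p := by linarith
  have hclosed : IsClosed (Ωᶜ : Set (V d)) := hΩ.isClosed_compl
  have hpos : 0 < infDist b Ωᶜ := (hclosed.notMem_iff_infDist_pos hcne).mp (by simpa using hb)
  obtain ⟨z, hz, hzd⟩ := hclosed.exists_infDist_eq_dist hcne b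
  set r := infDist b Ωᶜ with hr
  have hnorm : ‖b - z‖ = r := by rw [hzd, dist_eq_norm]
  have hψz : ψ z = 0 := by
    by_contra h
    exact hz (hψ.2.2.1 (subset_tsupport _ h))
  set w := z + (κ / 2) • (b - z) with hw
  have hwz : ‖w - z‖ = κ * r / 2 := by
    rw [hw, add_sub_cancel_left, norm_smul, hnorm, Real.norm_eq_abs, abs_of_pos (by positivity)]
    ring
  have hwb : ‖w - b‖ = (1 - κ / 2) * r := by
    have : w - b = -((1 - κ / 2) • (b - z)) := by
      rw [hw, sub_smul, one_smul]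
      abel
    rw [this, norm_neg, norm_smul, hnorm, Real.norm_eq_abs, abs_of_nonneg (by linarith)]
  have hsub1 : ball w (κ * r / 2) ⊆ ball b r := by
    refine ball_subset_ball' ?_
    rw [dist_eq_norm, hwb]
    linarith
  have hsub2 : ball w (κ * r / 2) ⊆ ball z (κ * r) := by
    refine ball_subset_ball' ?_
    rw [dist_eq_norm, hwz]
    linarith
  have hsub3 : ball z (κ * r) ⊆ closedBall b (2 * r) := by
    refine (ball_subset_ball' (y := b) (ε₂ := 2 * r) ?_).trans ball_subset_closedBall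
    rw [dist_comm, ← hzd]
    nlinarith
  refine ⟨w, hsub1, ?_⟩
  have hψc : Continuous ψ := hψ.1.continuous
  have hcd : Continuous (fderiv ℝ ψ) := hψ.1.continuous_fderiv (by simp)
  have hFc : Continuous fun y => ‖fderiv ℝ ψ y‖ ^ p := hcd.norm.rpow_const fun x => Or.inr hp0.le
  have hF0 : ∀ y, 0 ≤ ‖fderiv ℝ ψ y‖ ^ p := fun y => Real.rpow_nonneg (norm_nonneg _) _
  have i1 : IntegrableOn (fun y => |ψ y|) (ball z (κ * r)) volume :=
    (hψc.abs.continuousOn.integrableOn_compact (isCompact_closedBall z (κ * r))).mono_set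
      ball_subset_closedBall
  have i2 : IntegrableOn (fun y => ‖fderiv ℝ ψ y‖ ^ p) (closedBall b (2 * r)) volume :=
    hFc.continuousOn.integrableOn_compact (isCompact_closedBall _ _)
  have h1 : ∫ y in ball w (κ * r / 2), |ψ y| ≤ ∫ y in ball z (κ * r), |ψ y| :=
    setIntegral_mono_set i1 (Filter.Eventually.of_forall fun y => abs_nonneg _)
      (Filter.Eventually.of_forall hsub2)
  have hκr : 0 < κ * r := by positivity
  have h2 := morrey hd hp hψ.1 hψ.2.1 hψz hκr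
  have h3 : ∫ y in ball z (κ * r), ‖fderiv ℝ ψ y‖ ^ p ≤
      ∫ y in closedBall b (2 * r), ‖fderiv ℝ ψ y‖ ^ p :=
    setIntegral_mono_set i2 (Filter.Eventually.of_forall fun y => hF0 y)
      (Filter.Eventually.of_forall hsub3)
  set N' := ∫ y in ball z (κ * r), ‖fderiv ℝ ψ y‖ ^ p with hN'
  set N := ∫ y in closedBall b (2 * r), ‖fderiv ℝ ψ y‖ ^ p with hN
  have hN'0 : 0 ≤ N' := setIntegral_nonneg measurableSet_ball fun y _ => hF0 y
  have hX : 0 < (κ * r) ^ d := by positivity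
  have h4 := alg (p := p) (X := (κ * r) ^ d) (N := N') (r := r) (ρ := ρ) (m := m) (τ := τ)
    hp1 hX hN'0 hpos hrρ hm hτ
  have hom : 0 < om d := om_pos
  have hpd : 0 < p - d := by linarith
  have h5 : κ * r * (((κ * r) ^ d * om d) ^ (1 - 1 / p) * N' ^ (1 / p) * (p / (p - ↑d))) =
      (om d ^ (1 - 1 / p) * (p / (p - d))) * (κ * (r * (((κ * r) ^ d) ^ (1 - 1 / p) * N' ^ (1 / p)))) := by
    rw [Real.mul_rpow hX.le hom.le]
    ring
  have h6 : 0 ≤ om d ^ (1 - 1 / p) * (p / (p - d)) := by positivity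
  have hρ0 : 0 < ρ := hpos.trans_le hrρ
  calc ∫ y in ball w (κ * r / 2), |ψ y| ≤ _ := h1
    _ ≤ _ := h2
    _ = _ := h5
    _ ≤ (om d ^ (1 - 1 / p) * (p / (p - d))) * (κ * (m * (τ * (κ * r) ^ d + τ ^ (1 - p) *
        ((ρ / m) ^ p * N')))) := by gcongr
    _ ≤ (om d ^ (1 - 1 / p) * (p / (p - d))) * (κ * (m * (τ * (κ * r) ^ d + τ ^ (1 - p) *
        ((ρ / m) ^ p * N)))) := by gcongr
    _ = _ := by ring

end Pool.Agent.H6R3.PL
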