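import Mathlib
import Pool.Agent.H6R3.PL4

set_option autoImplicit false
open MeasureTheory Metric Set

namespace Pool.Agent.H6R3.PL

variable {d : ℕ}

lemma key {p : ℝ} (hd : 1 ≤ d) (hp : (d : ℝ) < p) {C0 κ : ℝ} (hC0 : 0 < C0)
    (hC : ∀ (Ω : Set (V d)) (x : V d) (r : ℝ), 0 < r → ball x r ⊆ Ω → lam Ω p * r ^ p ≤ C0)
    (hκ : 0 < κ) (hκ1 : κ ≤ 1)
    (hκ2 : (om d ^ (1 - 1 / p) * (p / (p - d))) * (1 + 8 * C0 * 10 ^ d * om d) *
      κ ^ (1 - d / p : ℝ) ≤ (p - 1) / (2 * p) * (om d / 2 ^ d))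
    {Ω : Set (V d)} (hΩ : IsOpen Ω) (hb : Bornology.IsBounded Ω) (hne : Ω.Nonempty)
    {ψ : V d → ℝ} (hψ : Adm Ω ψ) (hlam : 0 < lam Ω p) {m : ℝ} (hm : 0 < m)
    (hmI : ∫ x, |ψ x| = m * (volume Ω).toReal)
    (hE : ∫ x, ‖fderiv ℝ ψ x‖ ^ p ≤ 4 * lam Ω p * m ^ p * (volume Ω).toReal) :
    m ^ p * (volume Ω).toReal * (1 + (p - 1) / 4 * (κ / 20) ^ d) ≤ ∫ x, |ψ x| ^ p := by
  have hd1 : (1 : ℝ) ≤ d := by exact_mod_cast hd
  have hp1 : 1 < p := by linarith
  have hp0 : 0 < p := by linarith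
  have hom : 0 < om d := om_pos
  have hpd : 0 < p - d := by linarith
  set v := (volume Ω).toReal with hv
  have hv0 : 0 ≤ v := ENNReal.toReal_nonneg
  set ρ := (C0 / lam Ω p) ^ (1 / p) with hρdef
  have hρ0 : 0 < ρ := Real.rpow_pos_of_pos (by positivity) _
  have hρp : ρ ^ p = C0 / lam Ω p := by
    rw [hρdef, ← Real.rpow_mul (by positivity), one_div, inv_mul_cancel₀ hp0.ne', Real.rpow_one]
  have hρ : ∀ (x : V d) (r : ℝ), 0 < r → ball x r ⊆ Ω → r ≤ ρ := by
    intro x r hr hx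
    have h1 := hC Ω x r hr hx
    have h2 : r ^ p ≤ C0 / lam Ω p := by
      rw [le_div_iff₀ hlam]
      linarith
    rw [← hρp] at h2
    exact (Real.rpow_le_rpow_iff hr.le hρ0.le hp0).mp h2
  have hcne : (Ωᶜ : Set (V d)).Nonempty := by
    by_contra h
    rw [not_nonempty_iff_eq_empty, compl_empty_iff] at h
    have h1 := hρ 0 (|ρ| + 1) (by positivity) (by rw [h]; exact subset_univ _)
    have := le_abs_self ρ
    linarith
  have hclosed : IsClosed (Ωᶜ : Set (V d)) := hΩ.isClosed_compl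
  have hpos : ∀ b ∈ Ω, 0 < infDist b Ωᶜ := fun b hb =>
    (hclosed.notMem_iff_infDist_pos hcne).mp (by simpa using hb)
  have hle : ∀ b ∈ Ω, infDist b Ωᶜ ≤ ρ := fun b hb =>
    hρ b _ (hpos b hb) ball_infDist_compl_subset
  obtain ⟨F, hFΩ, hFd, hFv⟩ := select hΩ hb hne hρ
  set τ := κ ^ (-(d / p : ℝ)) with hτdef
  have hτ : 0 < τ := Real.rpow_pos_of_pos hκ _
  set C := om d ^ (1 - 1 / p) * (p / (p - d)) with hCdef
  have hC' : 0 ≤ C := by positivity
  have hex : ∀ b, ∃ w : V d, b ∈ Ω → ball w (κ * infDist b Ωᶜ / 2) ⊆ ball b (infDist b Ωᶜ) ∧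
      ∫ y in ball w (κ * infDist b Ωᶜ / 2), |ψ y| ≤ C * (m * (κ *
        (τ * (κ * infDist b Ωᶜ) ^ d + τ ^ (1 - p) * ((ρ / m) ^ p *
          ∫ y in closedBall b (2 * infDist b Ωᶜ), ‖fderiv ℝ ψ y‖ ^ p)))) := by
    intro b
    by_cases hbΩ : b ∈ Ω
    · obtain ⟨w, hw⟩ := loc hd hp hΩ hcne hψ hbΩ hκ hκ1 (hle b hbΩ) hm hτ
      exact ⟨w, fun _ => hw⟩
    · exact ⟨0, fun h => absurd h hbΩ⟩
  choose w hw using hex
  set Wb : V d → Set (V d) := fun b => ball (w b) (κ * infDist b Ωᶜ / 2) with hWb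
  set W : Set (V d) := ⋃ b ∈ F, Wb b with hW
  have hWsub : ∀ b ∈ F, Wb b ⊆ ball b (infDist b Ωᶜ) := fun b hb => (hw b (hFΩ b hb)).1
  have hWΩ : W ⊆ Ω := by
    refine iUnion₂_subset fun b hb => (hWsub b hb).trans ?_
    exact ball_infDist_compl_subset
  have hdisW : (F : Set (V d)).PairwiseDisjoint Wb := by
    intro a ha b hb hab
    refine (hFd ha hb hab).mono ?_ ?_
    · refine (hWsub a ha).trans ((ball_subset_ball ?_).trans ball_subset_closedBall)
      linarith [hpos a (hFΩ a ha)]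
    · refine (hWsub b hb).trans ((ball_subset_ball ?_).trans ball_subset_closedBall)
      linarith [hpos b (hFΩ b hb)]
  have hψc : Continuous ψ := hψ.1.continuous
  have hcd : Continuous (fderiv ℝ ψ) := hψ.1.continuous_fderiv (by simp)
  have hFc : Continuous fun y => ‖fderiv ℝ ψ y‖ ^ p := hcd.norm.rpow_const fun x => Or.inr hp0.le
  have hF0 : ∀ y, 0 ≤ ‖fderiv ℝ ψ y‖ ^ p := fun y => Real.rpow_nonneg (norm_nonneg _) _
  have hFcs : HasCompactSupport fun y => ‖fderiv ℝ ψ y‖ ^ p := by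
    refine (hψ.2.1.fderiv (𝕜 := ℝ)).mono ?_
    intro x hx
    rw [Function.mem_support] at *
    intro h3
    apply hx
    simp only [h3, norm_zero]
    exact Real.zero_rpow hp0.ne'
  have iF : Integrable (fun y => ‖fderiv ℝ ψ y‖ ^ p) volume := hFc.integrable_of_hasCompactSupport hFcs
  have hψcs : HasCompactSupport fun y => |ψ y| := hψ.2.1.norm
  have iψ : Integrable (fun y => |ψ y|) volume := hψc.abs.integrable_of_hasCompactSupport hψcs
  -- sum of the energies
  have hN : ∑ b ∈ F, ∫ y in closedBall b (2 * infDist b Ωᶜ), ‖fderiv ℝ ψ y‖ ^ p ≤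
      ∫ x, ‖fderiv ℝ ψ x‖ ^ p := by
    rw [← integral_biUnion_finset F (fun b _ => measurableSet_closedBall) hFd
      (fun b _ => iF.integrableOn)]
    exact setIntegral_le_integral iF (Filter.Eventually.of_forall hF0)
  set X := ∑ b ∈ F, (κ * infDist b Ωᶜ) ^ d with hX
  have hX0 : 0 ≤ X := Finset.sum_nonneg fun b hb => by
    have := hpos b (hFΩ b hb)
    positivity
  have hvX : v ≤ 2 * 10 ^ d * om d * ((κ ^ d)⁻¹ * X) := by
    refine hFv.trans (le_of_eq ?_)
    rw [hX, Finset.mul_sum, Finset.mul_sum, Finset.mul_sum]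
    refine Finset.sum_congr rfl fun b _ => ?_
    rw [mul_pow, mul_pow]
    field_simp
  have hmp : 0 < m ^ p := Real.rpow_pos_of_pos hm _
  have hρE : (ρ / m) ^ p * ∫ x, ‖fderiv ℝ ψ x‖ ^ p ≤ 4 * C0 * v := by
    rw [Real.div_rpow hρ0.le hm.le, hρp]
    calc C0 / lam Ω p / m ^ p * ∫ x, ‖fderiv ℝ ψ x‖ ^ p ≤
          C0 / lam Ω p / m ^ p * (4 * lam Ω p * m ^ p * v) := by gcongr
      _ = _ := by field_simp
  have e1 : κ * τ = κ ^ (1 - d / p : ℝ) := by
    rw [hτdef, mul_comm, ← Real.rpow_add_one hκ.ne']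
    congr 1
    ring
  have e2 : κ * τ ^ (1 - p) * (κ ^ d)⁻¹ = κ ^ (1 - d / p : ℝ) := by
    rw [hτdef, ← Real.rpow_mul hκ.le, mul_comm κ, ← Real.rpow_add_one hκ.ne', ← Real.rpow_natCast κ d,
      ← Real.rpow_neg hκ.le, ← Real.rpow_add hκ]
    congr 1
    field_simp
    ring
  -- the total integral over W
  have hsum : ∑ b ∈ F, ∫ y in Wb b, |ψ y| ≤ m * ((p - 1) / (2 * p) * (om d / 2 ^ d) * X) := by
    calc ∑ b ∈ F, ∫ y in Wb b, |ψ y| ≤ ∑ b ∈ F, C * (m * (κ *
        (τ * (κ * infDist b Ωᶜ) ^ d + τ ^ (1 - p) * ((ρ / m) ^ p *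
          ∫ y in closedBall b (2 * infDist b Ωᶜ), ‖fderiv ℝ ψ y‖ ^ p)))) :=
          Finset.sum_le_sum fun b hb => (hw b (hFΩ b hb)).2
      _ = C * (m * (κ * (τ * X + τ ^ (1 - p) * ((ρ / m) ^ p *
          ∑ b ∈ F, ∫ y in closedBall b (2 * infDist b Ωᶜ), ‖fderiv ℝ ψ y‖ ^ p)))) := by
          rw [← Finset.mul_sum, ← Finset.mul_sum, ← Finset.mul_sum, Finset.sum_add_distrib,
            ← Finset.mul_sum, ← Finset.mul_sum, ← Finset.mul_sum]
      _ ≤ C * (m * (κ * (τ * X + τ ^ (1 - p) * (4 * C0 * (2 * 10 ^ d * om d * ((κ ^ d)⁻¹ * X)))))) := by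
          have h1 : (ρ / m) ^ p *
            ∑ b ∈ F, ∫ y in closedBall b (2 * infDist b Ωᶜ), ‖fderiv ℝ ψ y‖ ^ p ≤
              4 * C0 * (2 * 10 ^ d * om d * ((κ ^ d)⁻¹ * X)) := by
            calc _ ≤ (ρ / m) ^ p * ∫ x, ‖fderiv ℝ ψ x‖ ^ p := by gcongr
              _ ≤ 4 * C0 * v := hρE
              _ ≤ _ := by gcongr
          gcongr
      _ = m * ((C * (1 + 8 * C0 * 10 ^ d * om d) * κ ^ (1 - d / p : ℝ)) * X) := by
          have : C * (m * (κ * (τ * X + τ ^ (1 - p) * (4 * C0 * (2 * 10 ^ d * om d * ((κ ^ d)⁻¹ * X)))))) =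
            m * (C * (κ * τ + 8 * C0 * 10 ^ d * om d * (κ * τ ^ (1 - p) * (κ ^ d)⁻¹)) * X) := by ring
          rw [this, e1, e2]
          ring
      _ ≤ _ := by gcongr
  -- volume of W
  have hmeas : MeasurableSet W := Finset.measurableSet_biUnion F fun b _ => measurableSet_ball
  have hvW : (volume W).toReal = om d / 2 ^ d * X := by
    rw [hW, measure_biUnion_finset hdisW (fun b _ => measurableSet_ball),
      ENNReal.toReal_sum (fun b _ => measure_ball_lt_top.ne), hX, Finset.mul_sum]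
    refine Finset.sum_congr rfl fun b hb => ?_
    have := hpos b (hFΩ b hb)
    rw [vol_ball _ (by positivity), div_pow]
    field_simp
  -- main integration
  set L : V d → ℝ := fun y => m ^ p * (1 - p) + p * m ^ (p - 1) * |ψ y| with hL
  have hvt : volume Ω ≠ ⊤ := hb.measure_lt_top.ne
  have iLΩ : IntegrableOn L Ω volume :=
    (integrableOn_const hvt).add (iψ.integrableOn.const_mul _)
  have iLW : IntegrableOn L W volume := iLΩ.mono_set hWΩ
  have iS : Integrable (fun y => |ψ y| ^ p) volume := by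
    refine Continuous.integrable_of_hasCompactSupport (hψc.abs.rpow_const fun x => Or.inr hp0.le) ?_
    refine hψ.2.1.mono ?_
    intro x hx
    rw [Function.mem_support] at *
    intro h3
    apply hx
    simp only [h3, abs_zero]
    exact Real.zero_rpow hp0.ne'
  have hz : ∀ x ∉ Ω, ψ x = 0 := fun x hx => by
    by_contra h
    exact hx (hψ.2.2.1 (subset_tsupport _ h))
  have hS : ∫ x in Ω, |ψ x| ^ p = ∫ x, |ψ x| ^ p :=
    setIntegral_eq_integral_of_forall_compl_eq_zero fun x hx => by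
      rw [hz x hx, abs_zero, Real.zero_rpow hp0.ne']
  have hI : ∫ x in Ω, |ψ x| = m * v := by
    rw [← hmI]
    exact setIntegral_eq_integral_of_forall_compl_eq_zero fun x hx => by
      rw [hz x hx, abs_zero]
  have hmain : ∫ x in Ω, (L x - W.indicator L x) ≤ ∫ x in Ω, |ψ x| ^ p := by
    refine setIntegral_mono_on (iLΩ.sub ?_) iS.integrableOn hΩ.measurableSet fun x _ => ?_
    · exact iLΩ.indicator hmeas
    · by_cases hxW : x ∈ W
      · rw [indicator_of_mem hxW, sub_self]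
        exact Real.rpow_nonneg (abs_nonneg _) _
      · rw [indicator_of_notMem hxW, sub_zero]
        exact bern hp1 (abs_nonneg _) hm
  have iind : IntegrableOn (W.indicator L) Ω volume := iLΩ.indicator hmeas
  rw [integral_sub iLΩ iind, setIntegral_indicator hmeas, inter_eq_self_of_subset_right hWΩ, hS] at hmain
  have ic : IntegrableOn (fun _ : V d => m ^ p * (1 - p)) Ω volume := integrableOn_const hvt
  have iψ2 : Integrable (fun y => p * m ^ (p - 1) * |ψ y|) volume := iψ.const_mul _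
  have hLΩ : ∫ x in Ω, L x = m ^ p * v := by
    rw [hL, integral_add ic iψ2.integrableOn, setIntegral_const, integral_const_mul, hI]
    have h3 : m ^ p = m ^ (p - 1) * m := by
      rw [← Real.rpow_add_one hm.ne']
      congr 1
      ring
    have h4 : (volume : Measure (V d)).real Ω = v := rfl
    rw [h4, smul_eq_mul, h3]
    ring
  have hvWt : volume W ≠ ⊤ := ((measure_mono hWΩ).trans_lt hb.measure_lt_top).ne
  have icW : IntegrableOn (fun _ : V d => m ^ p * (1 - p)) W volume := integrableOn_const hvWt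
  have hLW : ∫ x in W, L x ≤ -(m ^ p * ((p - 1) / 2) * (om d / 2 ^ d * X)) := by
    rw [hL, integral_add icW iψ2.integrableOn, setIntegral_const,
      integral_const_mul, hW, integral_biUnion_finset F (fun b _ => measurableSet_ball) hdisW
      (fun b _ => iψ.integrableOn), ← hW]
    have h4 : (volume : Measure (V d)).real W = om d / 2 ^ d * X := hvW
    rw [h4, smul_eq_mul]
    have h3 : m ^ p = m ^ (p - 1) * m := by
      rw [← Real.rpow_add_one hm.ne']
      congr 1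
      ring
    have hmp1 : 0 < m ^ (p - 1) := Real.rpow_pos_of_pos hm _
    have h5 := mul_le_mul_of_nonneg_left hsum (by positivity : 0 ≤ p * m ^ (p - 1))
    have h6 : p * m ^ (p - 1) * (m * ((p - 1) / (2 * p) * (om d / 2 ^ d) * X)) =
        m ^ (p - 1) * m * ((p - 1) / 2) * (om d / 2 ^ d * X) := by
      field_simp
    rw [h6] at h5
    rw [h3]
    nlinarith
  have hfin : m ^ p * v + m ^ p * ((p - 1) / 2) * (om d / 2 ^ d * X) ≤ ∫ x, |ψ x| ^ p := by
    rw [hLΩ] at hmain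
    linarith
  refine le_trans ?_ hfin
  have h7 : (κ / 20) ^ d * v / 2 ≤ om d / 2 ^ d * X := by
    have h8 := mul_le_mul_of_nonneg_left hvX (by positivity : 0 ≤ (κ / 20) ^ d / 2)
    have h9 : (κ / 20) ^ d / 2 * (2 * 10 ^ d * om d * ((κ ^ d)⁻¹ * X)) = om d / 2 ^ d * X := by
      rw [div_pow, show (20 : ℝ) ^ d = 2 ^ d * 10 ^ d by rw [← mul_pow]; norm_num]
      field_simp
    rw [h9] at h8
    linarith
  have h10 := mul_le_mul_of_nonneg_left h7 (by
    have : 0 < p - 1 := by linarith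
    positivity : 0 ≤ m ^ p * ((p - 1) / 2))
  nlinarith

end Pool.Agent.H6R3.PL
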