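import Mathlib
import Pool.Agent.H6R3.PL5

set_option autoImplicit false
open MeasureTheory Metric Set

namespace Pool.Agent.H6R3.PL

variable {d : ℕ}

/-- the Hölder (Polya) inequality -/
lemma polya {p : ℝ} (hp1 : 1 < p) {Ω : Set (V d)} (hΩ : IsOpen Ω) (hb : Bornology.IsBounded Ω)
    {ψ : V d → ℝ} (hψ : Adm Ω ψ) {m : ℝ} (hm : 0 < m)
    (hmI : ∫ x, |ψ x| = m * (volume Ω).toReal) :
    m ^ p * (volume Ω).toReal ≤ ∫ x, |ψ x| ^ p := by
  have hp0 : 0 < p := by linarith
  set v := (volume Ω).toReal with hv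
  have hψc : Continuous ψ := hψ.1.continuous
  have hψcs : HasCompactSupport fun y => |ψ y| := hψ.2.1.norm
  have iψ : Integrable (fun y => |ψ y|) volume := hψc.abs.integrable_of_hasCompactSupport hψcs
  set L : V d → ℝ := fun y => m ^ p * (1 - p) + p * m ^ (p - 1) * |ψ y| with hL
  have hvt : volume Ω ≠ ⊤ := hb.measure_lt_top.ne
  have iLΩ : IntegrableOn L Ω volume :=
    (integrableOn_const hvt).add (iψ.integrableOn.const_mul _)
  have iS : Integrable (fun y => |ψ y| ^ p) volume := by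
    refine Continuous.integrable_of_hasCompactSupport (hψc.abs.rpow_const fun x => Or.inr hp0.le) ?_
    refine hψ.2.1.mono ?_
    intro x hx
    rw [Function.mem_support] at *
    intro h3
    apply hx
    simp only [h3, abs_zero]
    exact Real.zero_rpow hp0.ne'
  have hz : ∀ x ∉ Ω, ψ x = 0 := fun x hx => by
    by_contra h
    exact hx (hψ.2.2.1 (subset_tsupport _ h))
  have hS : ∫ x in Ω, |ψ x| ^ p = ∫ x, |ψ x| ^ p :=
    setIntegral_eq_integral_of_forall_compl_eq_zero fun x hx => by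
      rw [hz x hx, abs_zero, Real.zero_rpow hp0.ne']
  have hI : ∫ x in Ω, |ψ x| = m * v := by
    rw [← hmI]
    exact setIntegral_eq_integral_of_forall_compl_eq_zero fun x hx => by
      rw [hz x hx, abs_zero]
  have hmain : ∫ x in Ω, L x ≤ ∫ x in Ω, |ψ x| ^ p :=
    setIntegral_mono_on iLΩ iS.integrableOn hΩ.measurableSet fun x _ => bern hp1 (abs_nonneg _) hm
  have ic : IntegrableOn (fun _ : V d => m ^ p * (1 - p)) Ω volume := integrableOn_const hvt
  have iψ2 : Integrable (fun y => p * m ^ (p - 1) * |ψ y|) volume := iψ.const_mul _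
  have hLΩ : ∫ x in Ω, L x = m ^ p * v := by
    rw [hL, integral_add ic iψ2.integrableOn, setIntegral_const, integral_const_mul, hI]
    have h3 : m ^ p = m ^ (p - 1) * m := by
      rw [← Real.rpow_add_one hm.ne']
      congr 1
      ring
    have h4 : (volume : Measure (V d)).real Ω = v := rfl
    rw [h4, smul_eq_mul, h3]
    ring
  rw [hLΩ, hS] at hmain
  exact hmain

theorem main (hd : 1 ≤ d) {p : ℝ} (hp : (d : ℝ) < p) : ∃ c : ℝ, c < 1 ∧
    ∀ Ω : Set (V d), IsOpen Ω → Bornology.IsBounded Ω → Ω.Nonempty → ∀ ψ : V d → ℝ, Adm Ω ψ →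
      lam Ω p * ((∫ x, |ψ x|) ^ p / (∫ x, ‖fderiv ℝ ψ x‖ ^ p)) ≤
        c * ((volume Ω).toReal) ^ (p - 1) := by
  have hd1 : (1 : ℝ) ≤ d := by exact_mod_cast hd
  have hp1 : 1 < p := by linarith
  have hp0 : 0 < p := by linarith
  have hom : 0 < om d := om_pos
  have hpd : 0 < p - d := by linarith
  obtain ⟨C0, hC0, hC⟩ := lam_ball (d := d) hp0
  obtain ⟨κ, hκ, hκ1, hκ2⟩ := exists_kappa
    (K := (om d ^ (1 - 1 / p) * (p / (p - d))) * (1 + 8 * C0 * 10 ^ d * om d))
    (ε := (p - 1) / (2 * p) * (om d / 2 ^ d)) (s := 1 - d / p) (by positivity)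
    (by
      have : 0 < p - 1 := by linarith
      positivity)
    (by
      rw [sub_pos, div_lt_one hp0]
      exact hp)
  set g := (p - 1) / 4 * (κ / 20) ^ d with hg
  have hg0 : 0 < g := by
    have : 0 < p - 1 := by linarith
    positivity
  refine ⟨max (1 / 2) (1 / (1 + g)), ?_, ?_⟩
  · rw [max_lt_iff]
    constructor
    · norm_num
    · rw [div_lt_one (by linarith)]
      linarith
  intro Ω hΩ hb hne ψ hψ
  set c := max (1 / 2) (1 / (1 + g)) with hc
  have hc1 : 1 / 2 ≤ c := le_max_left _ _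
  have hc2 : 1 / (1 + g) ≤ c := le_max_right _ _
  have hvt : volume Ω ≠ ⊤ := hb.measure_lt_top.ne
  have hv0 : 0 < (volume Ω).toReal := ENNReal.toReal_pos (hΩ.measure_pos volume hne).ne' hvt
  set v := (volume Ω).toReal with hv
  have hvp : 0 < v ^ (p - 1) := Real.rpow_pos_of_pos hv0 _
  have hrhs : 0 ≤ c * v ^ (p - 1) := by
    have : 0 ≤ c := by linarith
    positivity
  set E := ∫ x, ‖fderiv ℝ ψ x‖ ^ p with hE
  set S := ∫ x, |ψ x| ^ p with hS
  set I := ∫ x, |ψ x| with hI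
  have hE0 : 0 ≤ E := integral_nonneg fun x => Real.rpow_nonneg (norm_nonneg _) _
  have hS0 : 0 < S := int_pos hp0 hψ.1.continuous hψ.2.1 hψ.2.2.2
  have hI0 : 0 < I := by
    have := int_pos one_pos hψ.1.continuous hψ.2.1 hψ.2.2.2
    simpa using this
  rcases hE0.eq_or_lt with hE1 | hE1
  · rw [← hE1, div_zero, mul_zero]
    exact hrhs
  rcases (lam_nonneg Ω p).eq_or_lt with hl | hl
  · rw [← hl, zero_mul]
    exact hrhs
  have hlE : lam Ω p ≤ E / S := lam_le hψ
  rw [le_div_iff₀ hS0] at hlE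
  set m := I / v with hm
  have hm0 : 0 < m := div_pos hI0 hv0
  have hmI : I = m * v := by
    rw [hm]
    field_simp
  have hmp : 0 < m ^ p := Real.rpow_pos_of_pos hm0 _
  have hIp : I ^ p = m ^ p * v * v ^ (p - 1) := by
    rw [hmI, Real.mul_rpow hm0.le hv0.le, mul_assoc]
    congr 1
    rw [mul_comm, ← Real.rpow_add_one hv0.ne']
    congr 1
    ring
  have hpol : m ^ p * v ≤ S := polya hp1 hΩ hb hψ hm0 hmI
  have hIp0 : 0 < I ^ p := Real.rpow_pos_of_pos hI0 _
  -- reduction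
  have hred : ∀ t : ℝ, 0 ≤ t → m ^ p * v ≤ t * S → lam Ω p * (I ^ p / E) ≤ t * v ^ (p - 1) := by
    intro t ht h
    have h1 : lam Ω p * (I ^ p / E) ≤ I ^ p / S := by
      rw [mul_div_assoc', div_le_div_iff₀ hE1 hS0]
      nlinarith
    refine h1.trans ?_
    rw [div_le_iff₀ hS0, hIp]
    nlinarith
  have hmono : ∀ t : ℝ, t ≤ c → t * v ^ (p - 1) ≤ c * v ^ (p - 1) := fun t ht =>
    mul_le_mul_of_nonneg_right ht hvp.le
  rcases le_or_gt (2 * lam Ω p * S) E with h1 | h1
  · refine le_trans ?_ (hmono _ hc1)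
    rw [mul_div_assoc', div_le_iff₀ hE1, hIp]
    have h2 : lam Ω p * (m ^ p * v * v ^ (p - 1)) ≤ lam Ω p * (S * v ^ (p - 1)) := by gcongr
    nlinarith
  rcases le_or_gt (2 * (m ^ p * v)) S with h2 | h2
  · exact (hred (1 / 2) (by norm_num) (by linarith)).trans (hmono _ hc1)
  · have h3 : E ≤ 4 * lam Ω p * m ^ p * v := by nlinarith
    have h4 := key hd hp hC0 hC hκ hκ1 hκ2 hΩ hb hne hψ hl hm0 hmI h3
    refine (hred (1 / (1 + g)) (by positivity) ?_).trans (hmono _ hc2)
    rw [one_div, ← div_eq_inv_mul, le_div_iff₀ (by linarith)]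
    exact h4

end Pool.Agent.H6R3.PL
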